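import Pool.Agent.Q106.PK.Stm

/-! Project PK, job UP -/

namespace Pool.Agent.Q106.PK
open Filter Topology

/-- **PK-UP** -/
theorem t_UP (h : S_BOUND) : S_UP := by
  intro lam hlam m E hm hE hyp
  refine le_of_tendsto hlam ?_
  filter_upwards [eventually_ge_atTop m] with n hn
  have h1 := h m E hm hE hyp n hn
  have hn1 : (1 : ℝ) ≤ (n : ℝ) := by exact_mod_cast (by omega : 1 ≤ n)
  have hn5 : (1 : ℝ) ≤ (n : ℝ) ^ 5 := one_le_pow₀ hn1
  have ht : (0 : ℝ) ≤ (t n : ℝ) := Nat.cast_nonneg _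
  have h2 : (t n : ℝ) ≤ E ^ n := le_trans (le_mul_of_one_le_right ht hn5) h1
  calc (t n : ℝ) ^ (1 / (n : ℝ)) ≤ (E ^ n) ^ (1 / (n : ℝ)) :=
        Real.rpow_le_rpow ht h2 (by positivity)
    _ = E := by
        rw [one_div]
        exact Real.pow_rpow_inv_natCast hE.le (by omega)

end Pool.Agent.Q106.PK
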