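import Pool.Agent.Q109.ISat.Stm

/-!
Project ISat (helper109), job CLB (helper222).
-/

set_option autoImplicit false

namespace Q222.ISatCLB

open Q109.ISat Set

theorem clb : S_CLB := by
  intro k m W _ τ H δ _
  have hproj : ∀ i : Fin k, proj τ (Sum.inl i : Nw k m) = τ (Sum.inl i) := fun i => rfl
  have hinj : Set.InjOn (proj τ) (old k m : Set (Nw k m)) := by
    intro x hx y hy h
    obtain ⟨i, -, rfl⟩ := Finset.mem_map.1 (Finset.mem_coe.1 hx)
    obtain ⟨j, -, rfl⟩ := Finset.mem_map.1 (Finset.mem_coe.1 hy)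
    have h1 : τ (Sum.inl i) = τ (Sum.inl j) := h
    have h2 := τ.injective h1
    rw [Sum.inl.injEq] at h2
    rw [h2]
  have himg : (old k m).image (proj τ) = first τ := by
    rw [old, first, Finset.map_eq_image, Finset.map_eq_image, Finset.image_image]
    rfl
  constructor
  · show ((¬ Set.InjOn (proj τ) (old k m : Set (Nw k m)) ∧ δ) ∨
      (Set.InjOn (proj τ) (old k m : Set (Nw k m)) ∧ (old k m).image (proj τ) ∈ symmDiff H {first τ})) ↔ _
    rw [himg, Set.mem_symmDiff, Set.mem_singleton_iff]
    tauto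
  · intro w
    let ψ₀ : W → Nw k m := fun x => match τ.symm x with
      | Sum.inl i => Sum.inl i
      | Sum.inr i => Sum.inr (i, w i)
    have h1 : ∀ x, proj τ (ψ₀ x) = x := by
      intro x
      show proj τ (match τ.symm x with
        | Sum.inl i => Sum.inl i
        | Sum.inr i => Sum.inr (i, w i)) = x
      rcases h : τ.symm x with i | i
      · show τ (Sum.inl i) = x
        rw [← h, Equiv.apply_symm_apply]
      · show τ (Sum.inr i) = x
        rw [← h, Equiv.apply_symm_apply]
    have h2 : Function.Injective ψ₀ := Function.LeftInverse.injective h1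
    refine ⟨⟨ψ₀, h2⟩, ?_, ?_⟩
    · intro x i a h
      have h3 : (match τ.symm x with
        | Sum.inl i => (Sum.inl i : Nw k m)
        | Sum.inr i => Sum.inr (i, w i)) = Sum.inr (i, a) := h
      rcases h4 : τ.symm x with j | j
      · rw [h4] at h3
        simp at h3
      · rw [h4] at h3
        simp only [Sum.inr.injEq, Prod.mk.injEq] at h3
        rw [← h3.2, h3.1]
    · intro f _
      have h3 : (f.map ⟨ψ₀, h2⟩).image (proj τ) = f := by
        rw [Finset.map_eq_image, Finset.image_image]
        have : proj τ ∘ (⟨ψ₀, h2⟩ : W ↪ Nw k m) = id := funext h1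
        rw [this, Finset.image_id]
      have h4 : Set.InjOn (proj τ) ((f.map ⟨ψ₀, h2⟩ : Finset (Nw k m)) : Set (Nw k m)) := by
        intro x hx y hy h
        obtain ⟨a, -, rfl⟩ := Finset.mem_map.1 (Finset.mem_coe.1 hx)
        obtain ⟨b, -, rfl⟩ := Finset.mem_map.1 (Finset.mem_coe.1 hy)
        have h5 : proj τ (ψ₀ a) = proj τ (ψ₀ b) := h
        rw [h1, h1] at h5
        rw [h5]
      have h5 : f.map ⟨ψ₀, h2⟩ ∈ clone τ H δ ↔ f ∈ symmDiff H {first τ} := by
        show ((¬ Set.InjOn (proj τ) ((f.map ⟨ψ₀, h2⟩ : Finset (Nw k m)) : Set (Nw k m)) ∧ δ) ∨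
          (Set.InjOn (proj τ) ((f.map ⟨ψ₀, h2⟩ : Finset (Nw k m)) : Set (Nw k m)) ∧
            (f.map ⟨ψ₀, h2⟩).image (proj τ) ∈ symmDiff H {first τ})) ↔ _
        rw [h3]
        exact ⟨fun h => h.elim (fun h => absurd h4 h.1) (fun h => h.2), fun h => Or.inr ⟨h4, h⟩⟩
      have h6 : f.map ⟨ψ₀, h2⟩ = old k m ↔ f = first τ := by
        constructor
        · intro h
          rw [← h3, h, himg]
        · rintro rfl
          rw [first, Finset.map_map, old]
          congr 1
          ext i
          show ψ₀ (τ (Sum.inl i)) = Sum.inl i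
          show (match τ.symm (τ (Sum.inl i)) with
            | Sum.inl i => (Sum.inl i : Nw k m)
            | Sum.inr i => Sum.inr (i, w i)) = Sum.inl i
          rw [Equiv.symm_apply_apply]
      rw [Set.mem_symmDiff, Set.mem_singleton_iff, h6, h5, Set.mem_symmDiff, Set.mem_singleton_iff]
      tauto

end Q222.ISatCLB
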