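import Pool.Agent.Q109.ISat.Stm

/-!
Project ISat (helper109), job CLF (helper222).
-/

set_option autoImplicit false

namespace Q222.ISatCLF

open Q109.ISat Set

theorem count {α : Type} [DecidableEq α] (S : Finset α) (Θ : α → α) (hmaps : ∀ g ∈ S, Θ g ∈ S)
    (hinj : Set.InjOn Θ (S : Set α)) (P : Set α) (F : α) (hF : F ∈ S)
    (h : ∀ g ∈ S, (g ∈ P ↔ Θ g ∈ symmDiff P {F})) : False := by
  classical
  have hS : S.image Θ = S := by
    apply Finset.eq_of_subset_of_card_le
    · intro b hb
      obtain ⟨a, ha, rfl⟩ := Finset.mem_image.1 hb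
      exact hmaps a ha
    · rw [Finset.card_image_of_injOn hinj]
  have hAB : (S.filter (· ∈ P)).image Θ = S.filter (· ∈ symmDiff P {F}) := by
    ext b
    rw [Finset.mem_image, Finset.mem_filter]
    constructor
    · rintro ⟨a, ha, rfl⟩
      rw [Finset.mem_filter] at ha
      exact ⟨hmaps a ha.1, (h a ha.1).1 ha.2⟩
    · rintro ⟨hb, hb'⟩
      rw [← hS] at hb
      obtain ⟨a, ha, rfl⟩ := Finset.mem_image.1 hb
      exact ⟨a, Finset.mem_filter.2 ⟨ha, (h a ha).2 hb'⟩, rfl⟩
  have hcard : (S.filter (· ∈ P)).card = (S.filter (· ∈ symmDiff P {F})).card := by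
    rw [← hAB, Finset.card_image_of_injOn]
    exact hinj.mono fun x hx => (Finset.mem_filter.1 hx).1
  by_cases hFP : F ∈ P
  · have h1 : S.filter (· ∈ symmDiff P {F}) = (S.filter (· ∈ P)).erase F := by
      ext b
      rw [Finset.mem_erase, Finset.mem_filter, Finset.mem_filter, Set.mem_symmDiff, Set.mem_singleton_iff]
      constructor
      · rintro ⟨h1, h2 | h2⟩
        · exact ⟨h2.2, h1, h2.1⟩
        · exact absurd (h2.1 ▸ hFP) h2.2
      · rintro ⟨h1, h2, h3⟩
        exact ⟨h2, Or.inl ⟨h3, h1⟩⟩
    have h2 : F ∈ S.filter (· ∈ P) := Finset.mem_filter.2 ⟨hF, hFP⟩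
    have h3 : 0 < (S.filter (· ∈ P)).card := Finset.card_pos.2 ⟨F, h2⟩
    rw [h1, Finset.card_erase_of_mem h2] at hcard
    omega
  · have h1 : S.filter (· ∈ symmDiff P {F}) = insert F (S.filter (· ∈ P)) := by
      ext b
      rw [Finset.mem_insert, Finset.mem_filter, Finset.mem_filter, Set.mem_symmDiff, Set.mem_singleton_iff]
      constructor
      · rintro ⟨h1, h2 | h2⟩
        · exact Or.inr ⟨h1, h2.1⟩
        · exact Or.inl h2.1
      · rintro (rfl | ⟨h2, h3⟩)
        · exact ⟨hF, Or.inr ⟨rfl, hFP⟩⟩
        · refine ⟨h2, Or.inl ⟨h3, ?_⟩⟩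
          rintro rfl
          exact hFP h3
    have h2 : F ∉ S.filter (· ∈ P) := fun h => hFP (Finset.mem_filter.1 h).2
    rw [h1, Finset.card_insert_of_notMem h2] at hcard
    omega


section

variable {k : ℕ} {W : Type} [DecidableEq W] {H : Set (Finset W)} {δ : Prop}

theorem tw_symm {u v : W} (h : Twins k H δ u v) : Twins k H δ v u :=
  ⟨h.1.symm, fun f hf hv hu => h.2.1 f hf hu hv, fun g hg hv hu => (h.2.2 g hg hu hv).symm⟩

theorem tw_trans {x y z : W} (h1 : Twins k H δ x y) (h2 : Twins k H δ y z) (hxz : x ≠ z) :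
    Twins k H δ x z := by
  refine ⟨hxz, ?_, ?_⟩
  · intro f hf hx hz
    by_cases hy : y ∈ f
    · exact h1.2.1 f hf hx hy
    · have hc : (f.erase x).card + 1 = k := by rw [Finset.card_erase_add_one hx, hf]
      have h3 := h1.2.2 (f.erase x) hc (Finset.notMem_erase x f) (fun h => hy (Finset.mem_of_mem_erase h))
      rw [Finset.insert_erase hx] at h3
      rw [h3]
      apply h2.2.1
      · rw [Finset.card_insert_of_notMem (fun h => hy (Finset.mem_of_mem_erase h)), hc]
      · exact Finset.mem_insert_self _ _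
      · exact Finset.mem_insert_of_mem (Finset.mem_erase.2 ⟨hxz.symm, hz⟩)
  · intro g hg hx hz
    by_cases hy : y ∈ g
    · rw [h1.2.1 (insert x g) (by rw [Finset.card_insert_of_notMem hx, hg]) (Finset.mem_insert_self _ _)
          (Finset.mem_insert_of_mem hy),
        h2.2.1 (insert z g) (by rw [Finset.card_insert_of_notMem hz, hg]) (Finset.mem_insert_of_mem hy)
          (Finset.mem_insert_self _ _)]
    · exact (h1.2.2 g hg hx hy).trans (h2.2.2 g hg hy hz)

variable (k H δ) in
theorem exists_rho : ∃ ρ : W → W, (∀ x, ρ (ρ x) = ρ x) ∧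
    ∀ x y, ρ x = ρ y ↔ (x = y ∨ Twins k H δ x y) := by
  let st : Setoid W := ⟨fun x y => x = y ∨ Twins k H δ x y, fun x => Or.inl rfl, by
    rintro x y (rfl | h)
    · exact Or.inl rfl
    · exact Or.inr (tw_symm h), by
    rintro x y z (rfl | h1) (rfl | h2)
    · exact Or.inl rfl
    · exact Or.inr h2
    · exact Or.inr h1
    · by_cases hxz : x = z
      · exact Or.inl hxz
      · exact Or.inr (tw_trans h1 h2 hxz)⟩
  have h1 : ∀ x : W, (Quotient.mk st (Quotient.mk st x).out) = Quotient.mk st x := fun x => Quotient.out_eq _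
  refine ⟨fun x => (Quotient.mk st x).out, fun x => ?_, fun x y => ?_⟩
  · show (Quotient.mk st (Quotient.mk st x).out).out = (Quotient.mk st x).out
    rw [h1]
  · show (Quotient.mk st x).out = (Quotient.mk st y).out ↔ _
    rw [Quotient.out_inj]
    exact Quotient.eq (r := st)

variable {ρ : W → W} (hρ1 : ∀ x, ρ (ρ x) = ρ x) (hρ2 : ∀ x y, ρ x = ρ y ↔ (x = y ∨ Twins k H δ x y))

include hρ2 in
theorem red1 {g : Finset W} (hg : g.card = k) (h : ¬ Set.InjOn ρ (g : Set W)) : g ∈ H ↔ δ := by
  unfold Set.InjOn at h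
  push Not at h
  obtain ⟨a, ha, b, hb, hab, hne⟩ := h
  rcases (hρ2 a b).1 hab with h1 | h1
  · exact absurd h1 hne
  · exact h1.2.1 g hg ha hb

include hρ1 hρ2 in
theorem red2 (n : ℕ) : ∀ g : Finset W, (g.filter fun x => ρ x ≠ x).card = n → g.card = k →
    Set.InjOn ρ (g : Set W) → (g ∈ H ↔ g.image ρ ∈ H) := by
  induction n with
  | zero =>
    intro g hn _ _
    rw [Finset.card_eq_zero, Finset.filter_eq_empty_iff] at hn
    have h1 : g.image ρ = g := by
      have h2 : g.image ρ = g.image id := Finset.image_congr fun x hx => not_not.1 (hn hx)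
      rw [h2, Finset.image_id]
    rw [h1]
  | succ n ih =>
    intro g hn hg hinj
    have h0 : 0 < (g.filter fun x => ρ x ≠ x).card := by omega
    obtain ⟨x, hx⟩ := Finset.card_pos.1 h0
    have hx' := Finset.mem_filter.1 hx
    have hxg := hx'.1
    have hxne := hx'.2
    have h1 : ρ x ∉ g := fun h => hxne (hinj h hxg (hρ1 x))
    have h1' : ρ x ∉ g.erase x := fun h => h1 (Finset.mem_of_mem_erase h)
    have htw : Twins k H δ x (ρ x) := by
      rcases (hρ2 x (ρ x)).1 (hρ1 x).symm with h2 | h2
      · exact absurd h2.symm hxne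
      · exact h2
    have hc : (g.erase x).card + 1 = k := by rw [Finset.card_erase_add_one hxg, hg]
    have h3 := htw.2.2 (g.erase x) hc (Finset.notMem_erase x g) h1'
    rw [Finset.insert_erase hxg] at h3
    have hc' : (insert (ρ x) (g.erase x)).card = k := by
      rw [Finset.card_insert_of_notMem h1', hc]
    have himg : (insert (ρ x) (g.erase x)).image ρ = g.image ρ := by
      rw [Finset.image_insert, hρ1 x, ← Finset.image_insert, Finset.insert_erase hxg]
    have hinj' : Set.InjOn ρ ((insert (ρ x) (g.erase x) : Finset W) : Set W) := by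
      rw [← Finset.card_image_iff, himg, hc', Finset.card_image_of_injOn hinj, hg]
    have hn' : ((insert (ρ x) (g.erase x)).filter fun x => ρ x ≠ x).card = n := by
      have h4 : (insert (ρ x) (g.erase x)).filter (fun x => ρ x ≠ x) = (g.filter fun x => ρ x ≠ x).erase x := by
        ext y
        simp only [Finset.mem_filter, Finset.mem_insert, Finset.mem_erase]
        constructor
        · rintro ⟨rfl | ⟨h5, h6⟩, h7⟩
          · exact absurd (hρ1 x) h7
          · exact ⟨h5, h6, h7⟩
        · rintro ⟨h5, h6, h7⟩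
          exact ⟨Or.inr ⟨h5, h6⟩, h7⟩
      rw [h4, Finset.card_erase_of_mem hx]
      omega
    rw [h3, ih _ hn' hc' hinj', himg]

include hρ1 hρ2 in
theorem noT {u u' : W} (hu : ρ u = u) (hu' : ρ u' = u') (hne : u ≠ u')
    (h1 : ∀ g : Finset W, g.card = k → (∀ x ∈ g, ρ x = x) → u ∈ g → u' ∈ g → (g ∈ H ↔ δ))
    (h2 : ∀ g : Finset W, g.card + 1 = k → (∀ x ∈ g, ρ x = x) → u ∉ g → u' ∉ g →
      (insert u g ∈ H ↔ insert u' g ∈ H)) : False := by
  have hfix : ∀ g : Finset W, ∀ x ∈ g.image ρ, ρ x = x := by
    intro g x hx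
    obtain ⟨y, -, rfl⟩ := Finset.mem_image.1 hx
    exact hρ1 y
  have A : ∀ f : Finset W, f.card = k → u ∈ f.image ρ → u' ∈ f.image ρ → (f ∈ H ↔ δ) := by
    intro f hf hu hu'
    by_cases hi : Set.InjOn ρ (f : Set W)
    · rw [red2 hρ1 hρ2 _ f rfl hf hi]
      exact h1 _ (by rw [Finset.card_image_of_injOn hi, hf]) (hfix f) hu hu'
    · exact red1 hρ2 hf hi
  have B : ∀ v w : W, ρ v = v → ρ w = w → (∀ f : Finset W, f.card = k → v ∈ f.image ρ → w ∈ f.image ρ → (f ∈ H ↔ δ)) →
      ∀ g : Finset W, g.card + 1 = k → v ∉ g → w ∉ g → v ∈ g.image ρ → (insert v g ∈ H ↔ insert w g ∈ H) := by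
    intro v w hv hw hA g hg hvg hwg hvr
    have hcv : (insert v g).card = k := by rw [Finset.card_insert_of_notMem hvg, hg]
    have hcw : (insert w g).card = k := by rw [Finset.card_insert_of_notMem hwg, hg]
    rw [red1 hρ2 hcv, hA (insert w g) hcw]
    · rw [Finset.image_insert]
      exact Finset.mem_insert_of_mem hvr
    · rw [Finset.image_insert, hw]
      exact Finset.mem_insert_self _ _
    · intro hi
      obtain ⟨y, hy, hyv⟩ := Finset.mem_image.1 hvr
      have h3 : y = v := hi (Finset.mem_coe.2 (Finset.mem_insert_of_mem hy)) (Finset.mem_coe.2 (Finset.mem_insert_self _ _)) (by rw [hyv, hv])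
      exact hvg (h3 ▸ hy)
  have htw : Twins k H δ u u' := by
    refine ⟨hne, ?_, ?_⟩
    · intro f hf hu1 hu2
      exact A f hf (Finset.mem_image.2 ⟨u, hu1, hu⟩) (Finset.mem_image.2 ⟨u', hu2, hu'⟩)
    · intro g hg hug hug'
      by_cases h3 : u ∈ g.image ρ
      · exact B u u' hu hu' A g hg hug hug' h3
      · by_cases h4 : u' ∈ g.image ρ
        · exact (B u' u hu' hu (fun f hf a b => A f hf b a) g hg hug' hug h4).symm
        · have hcv : (insert u g).card = k := by rw [Finset.card_insert_of_notMem hug, hg]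
          have hcw : (insert u' g).card = k := by rw [Finset.card_insert_of_notMem hug', hg]
          by_cases hi : Set.InjOn ρ (g : Set W)
          · have h3' : ρ u ∉ ρ '' (g : Set W) := by
              rw [hu, ← Finset.coe_image]
              exact_mod_cast h3
            have h4' : ρ u' ∉ ρ '' (g : Set W) := by
              rw [hu', ← Finset.coe_image]
              exact_mod_cast h4
            have hi1 : Set.InjOn ρ ((insert u g : Finset W) : Set W) := by
              rw [Finset.coe_insert, Set.injOn_insert (by exact_mod_cast hug)]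
              exact ⟨hi, h3'⟩
            have hi2 : Set.InjOn ρ ((insert u' g : Finset W) : Set W) := by
              rw [Finset.coe_insert, Set.injOn_insert (by exact_mod_cast hug')]
              exact ⟨hi, h4'⟩
            rw [red2 hρ1 hρ2 _ _ rfl hcv hi1, red2 hρ1 hρ2 _ _ rfl hcw hi2, Finset.image_insert,
              Finset.image_insert, hu, hu']
            exact h2 _ (by rw [Finset.card_image_of_injOn hi, hg]) (hfix g) h3 h4
          · rw [red1 hρ2 hcv, red1 hρ2 hcw]
            · intro h
              exact hi (h.mono (by rw [Finset.coe_insert]; exact Set.subset_insert _ _))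
            · intro h
              exact hi (h.mono (by rw [Finset.coe_insert]; exact Set.subset_insert _ _))
  have h5 := (hρ2 u u').2 (Or.inr htw)
  rw [hu, hu'] at h5
  exact hne h5

end

theorem clf : S_CLT → S_CLF := by
  intro hclt k m W _ _ τ H δ hk hF hcopy
  obtain ⟨θ, hθ1, hθ2, -⟩ := hclt k m W τ H δ hk hcopy
  obtain ⟨ρ, hρ1, hρ2⟩ := exists_rho k H δ
  have hFfix : ∀ x y, ρ x = ρ y → y ∈ first τ → x = y := by
    intro x y h hy
    rcases (hρ2 x y).1 h with h1 | h1
    · exact h1
    · exact absurd (tw_symm h1) (hF y hy x)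
  have hFk : (first τ).card = k := by rw [first, Finset.card_map, Finset.card_univ, Fintype.card_fin]
  have hθT : ∀ u u', ρ u = u → ρ u' = u' → θ u = θ u' → u = u' := by
    intro u u' hu hu' h
    by_contra hne
    have h1 := (hρ2 u u').2 (Or.inr (hθ1 u u' hne h).1)
    rw [hu, hu'] at h1
    exact hne h1
  have hθinj : ∀ g : Finset W, (∀ x ∈ g, ρ x = x) → Set.InjOn θ (g : Set W) := by
    intro g hg x hx y hy h
    exact hθT x y (hg x hx) (hg y hy) h
  by_cases hA : ∀ u u', ρ u = u → ρ u' = u' → ρ (θ u) = ρ (θ u') → u = u'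
  · have hinj : ∀ g : Finset W, (∀ x ∈ g, ρ x = x) → Set.InjOn (fun x => ρ (θ x)) (g : Set W) := by
      intro g hg x hx y hy h
      exact hA x y (hg x hx) (hg y hy) h
    let T : Finset W := Finset.univ.filter fun x => ρ x = x
    have hT : ∀ x, x ∈ T ↔ ρ x = x := fun x => by simp [T]
    refine count (Finset.powersetCard k T) (fun g => g.image fun x => ρ (θ x)) ?_ ?_ H (first τ) ?_ ?_
    · intro g hg
      rw [Finset.mem_powersetCard] at hg ⊢
      refine ⟨?_, ?_⟩
      · intro y hy
        obtain ⟨x, -, rfl⟩ := Finset.mem_image.1 hy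
        rw [hT]
        exact hρ1 _
      · rw [Finset.card_image_of_injOn (hinj g fun x hx => (hT x).1 (hg.1 hx)), hg.2]
    · intro g hg g' hg' h
      rw [Finset.mem_coe, Finset.mem_powersetCard] at hg hg'
      have h' : g.image (fun x => ρ (θ x)) = g'.image (fun x => ρ (θ x)) := h
      ext x
      constructor
      · intro hx
        have h1 : ρ (θ x) ∈ g'.image (fun x => ρ (θ x)) := by
          rw [← h']
          exact Finset.mem_image_of_mem (fun x => ρ (θ x)) hx
        obtain ⟨y, hy, hxy⟩ := Finset.mem_image.1 h1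
        have h2 := hA y x ((hT y).1 (hg'.1 hy)) ((hT x).1 (hg.1 hx)) hxy
        rwa [← h2]
      · intro hx
        have h1 : ρ (θ x) ∈ g.image (fun x => ρ (θ x)) := by
          rw [h']
          exact Finset.mem_image_of_mem (fun x => ρ (θ x)) hx
        obtain ⟨y, hy, hxy⟩ := Finset.mem_image.1 h1
        have h2 := hA y x ((hT y).1 (hg.1 hy)) ((hT x).1 (hg'.1 hx)) hxy
        rwa [← h2]
    · rw [Finset.mem_powersetCard]
      refine ⟨fun x hx => ?_, hFk⟩
      rw [hT]
      exact hFfix _ _ (hρ1 x) hx
    · intro g hg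
      rw [Finset.mem_powersetCard] at hg
      have hgT : ∀ x ∈ g, ρ x = x := fun x hx => (hT x).1 (hg.1 hx)
      have hi := hθinj g hgT
      have himg : (g.image fun x => ρ (θ x)) = (g.image θ).image ρ := by
        rw [Finset.image_image]
        rfl
      have hρi : Set.InjOn ρ ((g.image θ : Finset W) : Set W) := by
        intro y hy y' hy' h
        obtain ⟨x, hx, rfl⟩ := Finset.mem_image.1 (Finset.mem_coe.1 hy)
        obtain ⟨x', hx', rfl⟩ := Finset.mem_image.1 (Finset.mem_coe.1 hy')
        rw [hA x x' (hgT x hx) (hgT x' hx') h]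
      have hck : (g.image θ).card = k := by rw [Finset.card_image_of_injOn hi, hg.2]
      have h1 : (g.image θ).image ρ = first τ ↔ g.image θ = first τ := by
        constructor
        · intro h
          have h2 : (g.image θ).image ρ = (g.image θ).image id := by
            apply Finset.image_congr
            intro y hy
            have h3 : ρ y ∈ first τ := by
              rw [← h]
              exact Finset.mem_image_of_mem _ hy
            exact (hFfix _ _ (hρ1 y).symm h3).symm
          rw [Finset.image_id] at h2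
          rw [← h2, h]
        · intro h
          rw [h]
          have h2 : (first τ).image ρ = (first τ).image id := by
            apply Finset.image_congr
            intro y hy
            exact hFfix _ _ (hρ1 y) hy
          rw [h2, Finset.image_id]
      show g ∈ H ↔ (g.image fun x => ρ (θ x)) ∈ symmDiff H {first τ}
      rw [himg, hθ2 g hg.2 hi, Set.mem_symmDiff, Set.mem_symmDiff, Set.mem_singleton_iff, Set.mem_singleton_iff, h1,
        red2 hρ1 hρ2 _ (g.image θ) rfl hck hρi]
  · push Not at hA
    obtain ⟨u, u', hu, hu', h, hne⟩ := hA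
    have hyy : θ u ≠ θ u' := fun h' => hne (hθT u u' hu hu' h')
    have htw : Twins k H δ (θ u) (θ u') := by
      rcases (hρ2 _ _).1 h with h1 | h1
      · exact absurd h1 hyy
      · exact h1
    have hyF : θ u ∉ first τ := fun h' => hF _ h' _ htw
    have hyF' : θ u' ∉ first τ := fun h' => hF _ h' _ (tw_symm htw)
    have key : ∀ g : Finset W, g.card = k → (∀ x ∈ g, ρ x = x) → (u ∈ g ∨ u' ∈ g) → (g ∈ H ↔ g.image θ ∈ H) := by
      intro g hg hgT hug
      rw [hθ2 g hg (hθinj g hgT), Set.mem_symmDiff, Set.mem_singleton_iff]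
      have h1 : g.image θ ≠ first τ := by
        intro h1
        rcases hug with h2 | h2
        · exact hyF (h1 ▸ Finset.mem_image_of_mem θ h2)
        · exact hyF' (h1 ▸ Finset.mem_image_of_mem θ h2)
      constructor
      · rintro (h2 | h2)
        · exact h2.1
        · exact absurd h2.1 h1
      · intro h2
        exact Or.inl ⟨h2, h1⟩
    refine noT hρ1 hρ2 hu hu' hne ?_ ?_
    · intro g hg hgT hug hug'
      rw [key g hg hgT (Or.inl hug)]
      exact htw.2.1 _ (by rw [Finset.card_image_of_injOn (hθinj g hgT), hg]) (Finset.mem_image_of_mem θ hug)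
        (Finset.mem_image_of_mem θ hug')
    · intro g hg hgT hug hug'
      have hcv : (insert u g).card = k := by rw [Finset.card_insert_of_notMem hug, hg]
      have hcw : (insert u' g).card = k := by rw [Finset.card_insert_of_notMem hug', hg]
      have hT1 : ∀ x ∈ insert u g, ρ x = x := by
        intro x hx
        rcases Finset.mem_insert.1 hx with rfl | hx
        · exact hu
        · exact hgT x hx
      have hT2 : ∀ x ∈ insert u' g, ρ x = x := by
        intro x hx
        rcases Finset.mem_insert.1 hx with rfl | hx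
        · exact hu'
        · exact hgT x hx
      rw [key _ hcv hT1 (Or.inl (Finset.mem_insert_self _ _)), key _ hcw hT2 (Or.inr (Finset.mem_insert_self _ _)),
        Finset.image_insert, Finset.image_insert]
      apply htw.2.2
      · rw [Finset.card_image_of_injOn (hθinj g hgT), hg]
      · intro h1
        obtain ⟨x, hx, hx'⟩ := Finset.mem_image.1 h1
        exact hug (hθT x u (hgT x hx) hu hx' ▸ hx)
      · intro h1
        obtain ⟨x, hx, hx'⟩ := Finset.mem_image.1 h1
        exact hug' (hθT x u' (hgT x hx) hu' hx' ▸ hx)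

end Q222.ISatCLF
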