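import Pool.Agent.Q109.ISat.Stm

/-!
Project ISat (helper109), job CLT (helper222).
-/

set_option autoImplicit false

namespace Q222.ISatCLT

open Q109.ISat Set

theorem count {α : Type} [DecidableEq α] (S : Finset α) (Θ : α → α) (hmaps : ∀ g ∈ S, Θ g ∈ S)
    (hinj : Set.InjOn Θ (S : Set α)) (P : Set α) (F : α) (hF : F ∈ S)
    (h : ∀ g ∈ S, (g ∈ P ↔ Θ g ∈ symmDiff P {F})) : False := by
  classical
  have hS : S.image Θ = S := by
    apply Finset.eq_of_subset_of_card_le
    · intro b hb
      obtain ⟨a, ha, rfl⟩ := Finset.mem_image.1 hb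
      exact hmaps a ha
    · rw [Finset.card_image_of_injOn hinj]
  have hAB : (S.filter (· ∈ P)).image Θ = S.filter (· ∈ symmDiff P {F}) := by
    ext b
    rw [Finset.mem_image, Finset.mem_filter]
    constructor
    · rintro ⟨a, ha, rfl⟩
      rw [Finset.mem_filter] at ha
      exact ⟨hmaps a ha.1, (h a ha.1).1 ha.2⟩
    · rintro ⟨hb, hb'⟩
      rw [← hS] at hb
      obtain ⟨a, ha, rfl⟩ := Finset.mem_image.1 hb
      exact ⟨a, Finset.mem_filter.2 ⟨ha, (h a ha).2 hb'⟩, rfl⟩
  have hcard : (S.filter (· ∈ P)).card = (S.filter (· ∈ symmDiff P {F})).card := by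
    rw [← hAB, Finset.card_image_of_injOn]
    exact hinj.mono fun x hx => (Finset.mem_filter.1 hx).1
  by_cases hFP : F ∈ P
  · have h1 : S.filter (· ∈ symmDiff P {F}) = (S.filter (· ∈ P)).erase F := by
      ext b
      rw [Finset.mem_erase, Finset.mem_filter, Finset.mem_filter, Set.mem_symmDiff, Set.mem_singleton_iff]
      constructor
      · rintro ⟨h1, h2 | h2⟩
        · exact ⟨h2.2, h1, h2.1⟩
        · exact absurd (h2.1 ▸ hFP) h2.2
      · rintro ⟨h1, h2, h3⟩
        exact ⟨h2, Or.inl ⟨h3, h1⟩⟩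
    have h2 : F ∈ S.filter (· ∈ P) := Finset.mem_filter.2 ⟨hF, hFP⟩
    have h3 : 0 < (S.filter (· ∈ P)).card := Finset.card_pos.2 ⟨F, h2⟩
    rw [h1, Finset.card_erase_of_mem h2] at hcard
    omega
  · have h1 : S.filter (· ∈ symmDiff P {F}) = insert F (S.filter (· ∈ P)) := by
      ext b
      rw [Finset.mem_insert, Finset.mem_filter, Finset.mem_filter, Set.mem_symmDiff, Set.mem_singleton_iff]
      constructor
      · rintro ⟨h1, h2 | h2⟩
        · exact Or.inr ⟨h1, h2.1⟩
        · exact Or.inl h2.1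
      · rintro (rfl | ⟨h2, h3⟩)
        · exact ⟨hF, Or.inr ⟨rfl, hFP⟩⟩
        · refine ⟨h2, Or.inl ⟨h3, ?_⟩⟩
          rintro rfl
          exact hFP h3
    have h2 : F ∉ S.filter (· ∈ P) := fun h => hFP (Finset.mem_filter.1 h).2
    rw [h1, Finset.card_insert_of_notMem h2] at hcard
    omega

theorem clt : S_CLT := by
  rintro k m W _ _ τ H δ hk ⟨φ, hφ⟩
  let θ : W → W := fun x => proj τ (φ x)
  have hcl : ∀ g : Finset (Nw k m), g ∈ clone τ H δ ↔ ((¬ Set.InjOn (proj τ) (g : Set (Nw k m)) ∧ δ) ∨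
      (Set.InjOn (proj τ) (g : Set (Nw k m)) ∧ g.image (proj τ) ∈ symmDiff H {first τ})) := fun g => Iff.rfl
  have hinj : ∀ f : Finset W, Set.InjOn (proj τ) ((f.map φ : Finset (Nw k m)) : Set (Nw k m)) ↔ Set.InjOn θ (f : Set W) := by
    intro f
    constructor
    · intro h x hx y hy hxy
      exact φ.injective (h (by rw [Finset.coe_map]; exact Set.mem_image_of_mem _ hx)
        (by rw [Finset.coe_map]; exact Set.mem_image_of_mem _ hy) hxy)
    · intro h x hx y hy hxy
      obtain ⟨a, ha, rfl⟩ := Finset.mem_map.1 (Finset.mem_coe.1 hx)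
      obtain ⟨b, hb, rfl⟩ := Finset.mem_map.1 (Finset.mem_coe.1 hy)
      rw [h ha hb hxy]
  have himg : ∀ f : Finset W, (f.map φ).image (proj τ) = f.image θ := by
    intro f
    rw [Finset.map_eq_image, Finset.image_image]
    rfl
  have h2 : ∀ f : Finset W, f.card = k → Set.InjOn θ (f : Set W) →
      (f ∈ H ↔ f.image θ ∈ symmDiff H {first τ}) := by
    intro f hf hfi
    rw [hφ f hf, hcl, himg, hinj]
    exact ⟨fun h => h.elim (fun h => absurd hfi h.1) (fun h => h.2), fun h => Or.inr ⟨hfi, h⟩⟩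
  have h2' : ∀ f : Finset W, f.card = k → ¬ Set.InjOn θ (f : Set W) → (f ∈ H ↔ δ) := by
    intro f hf hfi
    rw [hφ f hf, hcl, himg, hinj]
    exact ⟨fun h => h.elim (fun h => h.2) (fun h => absurd h.1 hfi), fun h => Or.inl ⟨hfi, h⟩⟩
  refine ⟨θ, ?_, h2, ?_⟩
  · intro x y hxy hθ
    refine ⟨⟨hxy, ?_, ?_⟩, ?_⟩
    · intro f hf hx hy
      apply h2' f hf
      intro h
      exact hxy (h hx hy hθ)
    · intro g hg hx hy
      have hcx : (insert x g).card = k := by rw [Finset.card_insert_of_notMem hx, hg]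
      have hcy : (insert y g).card = k := by rw [Finset.card_insert_of_notMem hy, hg]
      have hi : Set.InjOn θ ((insert x g : Finset W) : Set W) ↔ Set.InjOn θ ((insert y g : Finset W) : Set W) := by
        rw [Finset.coe_insert, Finset.coe_insert, Set.injOn_insert (by exact_mod_cast hx), Set.injOn_insert (by exact_mod_cast hy), hθ]
      by_cases h : Set.InjOn θ ((insert x g : Finset W) : Set W)
      · rw [h2 _ hcx h, h2 _ hcy (hi.1 h), Finset.image_insert, Finset.image_insert, hθ]
      · rw [h2' _ hcx h, h2' _ hcy (fun h' => h (hi.2 h'))]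
    · intro hm
      have key : ∀ z, θ z ∈ first τ → ∃ i : Fin k, φ z = Sum.inl i ∧ τ (Sum.inl i) = θ z := by
        intro z hz
        obtain ⟨i, -, hi⟩ := Finset.mem_map.1 hz
        have hi' : τ (Sum.inl i) = proj τ (φ z) := hi
        rcases h : φ z with j | ⟨j, a⟩
        · refine ⟨j, rfl, ?_⟩
          show τ (Sum.inl j) = proj τ (φ z)
          rw [h]
          rfl
        · exfalso
          rw [h] at hi'
          have h3 : τ (Sum.inl i) = τ (Sum.inr j) := hi'
          have h4 := τ.injective h3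
          simp at h4
      obtain ⟨i, hi1, hi2⟩ := key x hm
      obtain ⟨j, hj1, hj2⟩ := key y (hθ ▸ hm)
      have h3 : τ (Sum.inl i) = τ (Sum.inl j) := by rw [hi2, hj2, hθ]
      have h4 := τ.injective h3
      rw [Sum.inl.injEq] at h4
      apply hxy
      apply φ.injective
      rw [hi1, hj1, h4]
  · intro hθ
    refine count (Finset.powersetCard k (Finset.univ : Finset W)) (fun g => g.image θ) ?_ ?_ H (first τ) ?_ ?_
    · intro g hg
      rw [Finset.mem_powersetCard] at hg ⊢
      exact ⟨Finset.subset_univ _, by rw [Finset.card_image_of_injective _ hθ, hg.2]⟩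
    · exact (Finset.image_injective hθ).injOn
    · rw [Finset.mem_powersetCard]
      exact ⟨Finset.subset_univ _, by rw [first, Finset.card_map, Finset.card_univ, Fintype.card_fin]⟩
    · intro g hg
      rw [Finset.mem_powersetCard] at hg
      exact h2 g hg.2 hθ.injOn

end Q222.ISatCLT
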