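import Pool.Agent.Q109.ISat.Stm

/-!
Project ISat (helper109), job DEC (helper222).
-/

set_option autoImplicit false

namespace Q222.ISatDEC

open Q109.ISat Set

section

variable {W : Type} [Fintype W] [DecidableEq W] {H : Set (Finset W)}

theorem dsymm {δ : Prop} {X Y : Finset W} (h : Decomp 3 H δ X Y) : Decomp 3 H δ Y X := by
  obtain ⟨h1, h2, h3, h4, h5⟩ := h
  refine ⟨h1.symm, h3, h2, ?_, fun f hf hY hX => h5 f hf hX hY⟩
  rw [Finset.union_comm]
  exact h4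

theorem disj1 (hW : 4 ≤ Fintype.card W) {X Y X' Y' : Finset W} (h : Decomp 3 H False X Y)
    (h' : Decomp 3 H True X' Y') (x : W) (hx : x ∈ X) (hx' : x ∈ X') : False := by
  obtain ⟨-, -, ⟨y, hy⟩, -, h5⟩ := h
  obtain ⟨-, -, ⟨y', hy'⟩, -, h5'⟩ := h'
  obtain ⟨f, h1, -, h2⟩ := Finset.exists_subsuperset_card_eq (Finset.subset_univ ({x, y, y'} : Finset W))
    (Finset.card_le_three) (by rw [Finset.card_univ]; omega)
  have a1 : x ∈ f := h1 (by simp)
  have a2 : y ∈ f := h1 (by simp)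
  have a3 : y' ∈ f := h1 (by simp)
  have b1 := h5 f h2 ⟨x, Finset.mem_inter.2 ⟨a1, hx⟩⟩ ⟨y, Finset.mem_inter.2 ⟨a2, hy⟩⟩
  have b2 := h5' f h2 ⟨x, Finset.mem_inter.2 ⟨a1, hx'⟩⟩ ⟨y', Finset.mem_inter.2 ⟨a3, hy'⟩⟩
  tauto

theorem disj2 (hW : 4 ≤ Fintype.card W) {X Y X' Y' : Finset W} (h : Decomp 3 H False X Y)
    (h' : Decomp 3 H True X' Y') (x : W) (hx : x ∈ X ∪ Y) (hx' : x ∈ X' ∪ Y') : False := by
  rw [Finset.mem_union] at hx hx'
  rcases hx with hx | hx <;> rcases hx' with hx' | hx'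
  · exact disj1 hW h h' x hx hx'
  · exact disj1 hW h (dsymm h') x hx hx'
  · exact disj1 hW (dsymm h) h' x hx hx'
  · exact disj1 hW (dsymm h) (dsymm h') x hx hx'

/-- four elements -/
theorem case4 {a b c d : W} (hW : Fintype.card W = 4) (hab : a ≠ b) (hac : a ≠ c) (had : a ≠ d) (hbc : b ≠ c)
    (hbd : b ≠ d) (hcd : c ≠ d) (h1 : ({a, c, d} : Finset W) ∈ H) (h2 : ({b, c, d} : Finset W) ∈ H)
    (h3 : ({a, b, c} : Finset W) ∉ H) (h4 : ({a, b, d} : Finset W) ∉ H) :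
    ∃ e : Fin 4 ≃ W, ∀ f : Finset (Fin 4), f.card = 3 → (f ∈ H4 ↔ f.map e.toEmbedding ∈ H) := by
  have hinj : Function.Injective ![a, b, c, d] := by
    intro i j h
    fin_cases i <;> fin_cases j <;> simp_all
  refine ⟨Equiv.ofBijective ![a, b, c, d] ((Fintype.bijective_iff_injective_and_card _).2 ⟨hinj, by rw [hW, Fintype.card_fin]⟩), ?_⟩
  intro f hf
  have hcl : ∀ f : Finset (Fin 4), f.card = 3 → f = {0, 2, 3} ∨ f = {1, 2, 3} ∨ f = {0, 1, 2} ∨ f = {0, 1, 3} := by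
    decide
  rcases hcl f hf with rfl | rfl | rfl | rfl
  · constructor
    · intro _
      rw [Finset.map_eq_image, Finset.image_insert, Finset.image_insert, Finset.image_singleton]
      exact h1
    · intro _
      left
      rfl
  · constructor
    · intro _
      rw [Finset.map_eq_image, Finset.image_insert, Finset.image_insert, Finset.image_singleton]
      exact h2
    · intro _
      right
      rfl
  · constructor
    · intro h
      rcases h with h | h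
      · exact absurd h (by decide)
      · exact absurd h (by decide)
    · rw [Finset.map_eq_image, Finset.image_insert, Finset.image_insert, Finset.image_singleton]
      exact fun h => absurd h h3
  · constructor
    · intro h
      rcases h with h | h
      · exact absurd h (by decide)
      · exact absurd h (by decide)
    · rw [Finset.map_eq_image, Finset.image_insert, Finset.image_insert, Finset.image_singleton]
      exact fun h => absurd h h4

/-- five elements -/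
theorem case5 {a b v c d : W} (hW : Fintype.card W = 5) (hab : a ≠ b) (hav : a ≠ v) (hac : a ≠ c) (had : a ≠ d)
    (hbv : b ≠ v) (hbc : b ≠ c) (hbd : b ≠ d) (hvc : v ≠ c) (hvd : v ≠ d) (hcd : c ≠ d)
    (h1 : ({a, c, d} : Finset W) ∈ H) (h2 : ({b, c, d} : Finset W) ∈ H) (h2' : ({v, c, d} : Finset W) ∈ H)
    (h3 : ({a, b, v} : Finset W) ∉ H) (h4 : ({a, b, c} : Finset W) ∉ H) (h5 : ({a, b, d} : Finset W) ∉ H)
    (h6 : ({a, v, c} : Finset W) ∉ H) (h7 : ({a, v, d} : Finset W) ∉ H) :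
    ∃ e : Fin 5 ≃ W, ({e 0, e 3, e 4} : Finset W) ∈ H ∧ ({e 1, e 3, e 4} : Finset W) ∈ H ∧
    ({e 2, e 3, e 4} : Finset W) ∈ H ∧ ({e 0, e 1, e 2} : Finset W) ∉ H ∧
    ({e 0, e 1, e 3} : Finset W) ∉ H ∧ ({e 0, e 1, e 4} : Finset W) ∉ H ∧
    ({e 0, e 2, e 3} : Finset W) ∉ H ∧ ({e 0, e 2, e 4} : Finset W) ∉ H := by
  have hinj : Function.Injective ![a, b, v, c, d] := by
    intro i j h
    fin_cases i <;> fin_cases j <;> simp_all
  exact ⟨Equiv.ofBijective ![a, b, v, c, d] ((Fintype.bijective_iff_injective_and_card _).2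
    ⟨hinj, by rw [hW, Fintype.card_fin]⟩), h1, h2, h2', h3, h4, h5, h6, h7⟩

/-- the case of a set `X` with one element and a set `Y` with two elements -/
theorem fin5 {c d : W} (hcd : c ≠ d) {X Y : Finset W} (h : Decomp 3 H False X Y) (hZ : (X ∪ Y)ᶜ = {c, d})
    (htrue : ∀ z, z ≠ c → z ≠ d → ({z, c, d} : Finset W) ∈ H) (hX : X.card = 1) (hY : Y.card = 2)
    (hW : Fintype.card W = 5) :
    ∃ e : Fin 5 ≃ W, ({e 0, e 3, e 4} : Finset W) ∈ H ∧ ({e 1, e 3, e 4} : Finset W) ∈ H ∧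
    ({e 2, e 3, e 4} : Finset W) ∈ H ∧ ({e 0, e 1, e 2} : Finset W) ∉ H ∧
    ({e 0, e 1, e 3} : Finset W) ∉ H ∧ ({e 0, e 1, e 4} : Finset W) ∉ H ∧
    ({e 0, e 2, e 3} : Finset W) ∉ H ∧ ({e 0, e 2, e 4} : Finset W) ∉ H := by
  obtain ⟨a, rfl⟩ := Finset.card_eq_one.1 hX
  obtain ⟨b, v, hbv, rfl⟩ := Finset.card_eq_two.1 hY
  obtain ⟨h1, -, -, -, h5⟩ := h
  have hmem : ∀ z, z ∈ ({c, d} : Finset W) ↔ z ∉ ({a} ∪ {b, v} : Finset W) := fun z => by rw [← hZ, Finset.mem_compl]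
  have hc := (hmem c).1 (by simp)
  have hd := (hmem d).1 (by simp)
  simp only [Finset.mem_union, Finset.mem_singleton, Finset.mem_insert, not_or] at hc hd
  have hab : a ≠ b := by
    rintro rfl
    exact Finset.disjoint_left.1 h1 (Finset.mem_singleton_self a) (by simp)
  have hav : a ≠ v := by
    rintro rfl
    exact Finset.disjoint_left.1 h1 (Finset.mem_singleton_self a) (by simp)
  have hno : ∀ p q : W, (p = b ∨ p = v) → p ≠ q → a ≠ q → a ≠ p → ({a, p, q} : Finset W) ∉ H := by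
    intro p q hp hpq haq hap h
    have h6 := h5 {a, p, q} (Finset.card_eq_three.2 ⟨a, p, q, hap, haq, hpq, rfl⟩) ⟨a, by simp⟩ ⟨p, by
      rw [Finset.mem_inter]
      refine ⟨by simp, ?_⟩
      rw [Finset.mem_insert, Finset.mem_singleton]
      exact hp⟩
    exact h6.1 h
  refine case5 hW hab hav (Ne.symm hc.1) (Ne.symm hd.1) hbv (Ne.symm hc.2.1) (Ne.symm hd.2.1) (Ne.symm hc.2.2)
    (Ne.symm hd.2.2) hcd (htrue a (Ne.symm hc.1) (Ne.symm hd.1)) (htrue b (Ne.symm hc.2.1) (Ne.symm hd.2.1))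
    (htrue v (Ne.symm hc.2.2) (Ne.symm hd.2.2)) ?_ ?_ ?_ ?_ ?_
  · exact hno b v (Or.inl rfl) hbv hav hab
  · exact hno b c (Or.inl rfl) (Ne.symm hc.2.1) (Ne.symm hc.1) hab
  · exact hno b d (Or.inl rfl) (Ne.symm hd.2.1) (Ne.symm hd.1) hab
  · exact hno v c (Or.inr rfl) (Ne.symm hc.2.2) (Ne.symm hc.1) hav
  · exact hno v d (Or.inr rfl) (Ne.symm hd.2.2) (Ne.symm hd.1) hav

end

theorem dec : S_DEC := by
  intro W _ _ H hW
  by_cases hA : ∃ δ : Prop, ∀ X Y : Finset W, ¬ Decomp 3 H δ X Y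
  · exact Or.inl hA
  by_cases hB : ∀ X Y : Finset W, Decomp 3 H False X Y → ((X ∪ Y)ᶜ).card = 3 ∧ (X ∪ Y)ᶜ ∈ H
  · exact Or.inr (Or.inl hB)
  right; right
  push Not at hA
  obtain ⟨X', Y', hT⟩ := hA True
  push Not at hB
  obtain ⟨X, Y, hF, hZ⟩ := hB
  have hdis := disj2 hW hF hT
  have hsub : X' ∪ Y' ⊆ (X ∪ Y)ᶜ := by
    intro x hx
    rw [Finset.mem_compl]
    exact fun h => hdis x h hx
  have hsub' : X ∪ Y ⊆ (X' ∪ Y')ᶜ := by
    intro x hx
    rw [Finset.mem_compl]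
    exact fun h => hdis x hx h
  have c1 : 1 ≤ X'.card := Finset.card_pos.2 hT.2.1
  have c2 : 1 ≤ Y'.card := Finset.card_pos.2 hT.2.2.1
  have c3 : (X' ∪ Y').card = X'.card + Y'.card := Finset.card_union_of_disjoint hT.1
  have c4 : (X' ∪ Y').card ≤ ((X ∪ Y)ᶜ).card := Finset.card_le_card hsub
  have c5 : ((X ∪ Y)ᶜ).card ≤ 3 := hF.2.2.2.1
  have c6 : 1 ≤ X.card := Finset.card_pos.2 hF.2.1
  have c7 : 1 ≤ Y.card := Finset.card_pos.2 hF.2.2.1
  have c8 : (X ∪ Y).card = X.card + Y.card := Finset.card_union_of_disjoint hF.1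
  have c9 : (X ∪ Y).card ≤ ((X' ∪ Y')ᶜ).card := Finset.card_le_card hsub'
  have c10 : ((X' ∪ Y')ᶜ).card ≤ 3 := hT.2.2.2.1
  have c11 : (X ∪ Y).card + ((X ∪ Y)ᶜ).card = Fintype.card W := Finset.card_add_card_compl _
  have hZ3 : ((X ∪ Y)ᶜ).card ≠ 3 := by
    intro h3
    apply hZ h3
    obtain ⟨x, hx⟩ := hT.2.1
    obtain ⟨y, hy⟩ := hT.2.2.1
    refine (hT.2.2.2.2 _ h3 ⟨x, Finset.mem_inter.2 ⟨hsub (Finset.mem_union_left _ hx), hx⟩⟩
      ⟨y, Finset.mem_inter.2 ⟨hsub (Finset.mem_union_right _ hy), hy⟩⟩).2 trivial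
  have e1 : X'.card = 1 := by omega
  have e2 : Y'.card = 1 := by omega
  obtain ⟨c, rfl⟩ := Finset.card_eq_one.1 e1
  obtain ⟨d, rfl⟩ := Finset.card_eq_one.1 e2
  have hcd : c ≠ d := by
    rintro rfl
    exact Finset.disjoint_left.1 hT.1 (Finset.mem_singleton_self c) (Finset.mem_singleton_self c)
  have hZe : (X ∪ Y)ᶜ = {c, d} := by
    symm
    have h1 : ({c} ∪ {d} : Finset W) = {c, d} := rfl
    rw [← h1]
    apply Finset.eq_of_subset_of_card_le hsub
    omega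
  have htrue : ∀ z, z ≠ c → z ≠ d → ({z, c, d} : Finset W) ∈ H := by
    intro z hzc hzd
    refine (hT.2.2.2.2 {z, c, d} (Finset.card_eq_three.2 ⟨z, c, d, hzc, hzd, hcd, rfl⟩) ⟨c, by simp⟩ ⟨d, by simp⟩).2 trivial
  have c12 : (X ∪ Y).card = 2 ∨ (X ∪ Y).card = 3 := by omega
  rcases c12 with c12 | c12
  · left
    have e3 : X.card = 1 := by omega
    have e4 : Y.card = 1 := by omega
    obtain ⟨a, rfl⟩ := Finset.card_eq_one.1 e3
    obtain ⟨b, rfl⟩ := Finset.card_eq_one.1 e4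
    have hmem : ∀ z, z ∈ ({c, d} : Finset W) ↔ z ∉ ({a} ∪ {b} : Finset W) := fun z => by rw [← hZe, Finset.mem_compl]
    have hc := (hmem c).1 (by simp)
    have hd := (hmem d).1 (by simp)
    simp only [Finset.mem_union, Finset.mem_singleton, not_or] at hc hd
    have hab : a ≠ b := by
      rintro rfl
      exact Finset.disjoint_left.1 hF.1 (Finset.mem_singleton_self a) (Finset.mem_singleton_self a)
    refine case4 (by omega) hab (Ne.symm hc.1) (Ne.symm hd.1) (Ne.symm hc.2) (Ne.symm hd.2) hcd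
      (htrue a (Ne.symm hc.1) (Ne.symm hd.1)) (htrue b (Ne.symm hc.2) (Ne.symm hd.2)) ?_ ?_
    · intro h
      exact (hF.2.2.2.2 {a, b, c} (Finset.card_eq_three.2 ⟨a, b, c, hab, Ne.symm hc.1, Ne.symm hc.2, rfl⟩)
        ⟨a, by simp⟩ ⟨b, by simp⟩).1 h
    · intro h
      exact (hF.2.2.2.2 {a, b, d} (Finset.card_eq_three.2 ⟨a, b, d, hab, Ne.symm hd.1, Ne.symm hd.2, rfl⟩)
        ⟨a, by simp⟩ ⟨b, by simp⟩).1 h
  · right
    rcases (by omega : X.card = 1 ∧ Y.card = 2 ∨ Y.card = 1 ∧ X.card = 2) with ⟨e3, e4⟩ | ⟨e3, e4⟩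
    · exact fin5 hcd hF hZe htrue e3 e4 (by omega)
    · exact fin5 hcd (dsymm hF) (by rw [Finset.union_comm]; exact hZe) htrue e3 e4 (by omega)

end Q222.ISatDEC
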