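import Pool.Agent.Q109.ISat.Stm

/-!
Project ISat (helper109), job G4 (helper222).
-/

set_option autoImplicit false

namespace Q222.ISatG4

open Q109.ISat Set

theorem exists_tau {k m : ℕ} {W : Type} [Fintype W] [DecidableEq W] (hW : Fintype.card W = k + m)
    (f : Finset W) (hf : f.card = k) : ∃ τ : Fin k ⊕ Fin m ≃ W, first τ = f := by
  have h1 : Fintype.card {x // x ∈ f} = k := by rw [Fintype.card_coe, hf]
  have h2 : Fintype.card {x // ¬ x ∈ f} = m := by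
    rw [Fintype.card_subtype_compl, h1, hW]
    omega
  let e1 := (Fintype.equivFinOfCardEq h1).symm
  let e2 := (Fintype.equivFinOfCardEq h2).symm
  refine ⟨(Equiv.sumCongr e1 e2).trans (Equiv.sumCompl (fun x => x ∈ f)), ?_⟩
  ext x
  rw [first, Finset.mem_map]
  constructor
  · rintro ⟨i, -, rfl⟩
    exact (e1 i).2
  · intro hx
    refine ⟨e1.symm ⟨x, hx⟩, Finset.mem_univ _, ?_⟩
    show ((e1 (e1.symm ⟨x, hx⟩) : {x // x ∈ f}) : W) = x
    rw [Equiv.apply_symm_apply]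

theorem card_compl {k m : ℕ} {W : Type} [Fintype W] [DecidableEq W] (X Y : Finset W) (ζ : W → Nw k m)
    (hζ : Set.InjOn ζ {x | x ∉ X}) (h : ∀ z, z ∉ X → z ∉ Y → (ζ z).isLeft) :
    ((X ∪ Y)ᶜ).card ≤ k := by
  have h1 : ((X ∪ Y)ᶜ).image ζ ⊆ old k m := by
    intro z hz
    obtain ⟨x, hx, rfl⟩ := Finset.mem_image.1 hz
    rw [Finset.mem_compl, Finset.mem_union, not_or] at hx
    obtain ⟨i, hi⟩ := Sum.isLeft_iff.1 (h x hx.1 hx.2)
    rw [hi, old]
    exact Finset.mem_map.2 ⟨i, Finset.mem_univ _, rfl⟩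
  have h2 : ((X ∪ Y)ᶜ).card = (((X ∪ Y)ᶜ).image ζ).card := by
    rw [Finset.card_image_of_injOn]
    refine hζ.mono fun x hx => ?_
    rw [Finset.mem_coe, Finset.mem_compl, Finset.mem_union, not_or] at hx
    exact hx.1
  rw [h2]
  refine (Finset.card_le_card h1).trans ?_
  rw [old, Finset.card_map, Finset.card_univ, Fintype.card_fin]

theorem good {k m : ℕ} (hclb : S_CLB) (hclf : S_CLF) (hk4 : S_K4) (hk : 4 ≤ k) {W : Type} [Fintype W] [DecidableEq W]
    (H : Set (Finset W)) (hW : Fintype.card W = k + m) (f : Finset W) (hf : f.card = k) :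
    Good k m H (f ∉ H) := by
  obtain ⟨⟨δ, hδ⟩, ⟨δ', hδ'⟩⟩ := hk4 k hk W H (by omega)
  obtain ⟨τ, hτ⟩ := exists_tau hW f hf
  obtain ⟨h1, h2⟩ := hclb k m W τ H δ' (by omega)
  rw [hτ] at h1
  refine ⟨δ, clone τ H δ', ⟨h1, ?_, h2, ?_⟩⟩
  · exact hclf k m W τ H δ' (by omega) fun v _ u => hδ' v u
  · intro X Y hd hX hY hc ζ hζ _ h3 _
    exact hδ X Y ⟨hd, hX, hY, card_compl X Y ζ hζ h3, hc⟩

theorem g4 : S_CLB → S_CLF → S_K4 → S_G4 := by
  intro hclb hclf hk4 k m hk W _ _ H hW ⟨f, hf, hfk⟩ ⟨g, hgk, hg⟩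
  constructor
  · have h := good hclb hclf hk4 hk H hW f hfk
    have h2 : (f ∉ H) = False := by simp [hf]
    rwa [h2] at h
  · have h := good hclb hclf hk4 hk H hW g hgk
    have h2 : (g ∉ H) = True := by simp [hg]
    rwa [h2] at h

end Q222.ISatG4
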