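import Pool.Agent.Q109.ISat.Stm

/-!
Project ISat (helper109), job GT (helper222).
-/

set_option autoImplicit false

namespace Q222.ISatGT

open Q109.ISat Set

theorem gt : S_SYM → S_TOW → S_TFR → S_TSA → S_GT := by
  rintro ⟨-, -, -, hsym⟩ htow htfr htsa k m hk hm W _ _ H hf ⟨δ₀, I₀, hI₀⟩ ⟨δ₁, I₁, hI₁⟩
  obtain ⟨G, task, hT⟩ := htow k m (by omega) hm δ₀ δ₁ I₀ I₁
  have hne : Nonempty (Fin m) := ⟨⟨0, hm⟩⟩
  have : Infinite (TV m) := by infer_instance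
  obtain ⟨e⟩ : Nonempty (TV m ≃ ℕ) := nonempty_equiv_of_countable
  exact hsym k W (TV m) ℕ H G e ⟨htfr k m (by omega) hm W H hf δ₀ δ₁ I₀ I₁ hI₀ hI₁ G task hT,
    htsa k m hk hm W H δ₀ δ₁ I₀ I₁ hI₀ hI₁ G task hT⟩

end Q222.ISatGT
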