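import Pool.Agent.Q109.ISat.Stm

/-!
Project ISat (helper109), job HM (helper222).
-/

set_option autoImplicit false

namespace Q222.ISatHM

open Q109.ISat Set

theorem c3 {W : Type} [DecidableEq W] {a b c : W} (hab : a ≠ b) (hac : a ≠ c) (hbc : b ≠ c) :
    ({a, b, c} : Finset W).card = 3 :=
  Finset.card_eq_three.2 ⟨a, b, c, hab, hac, hbc, rfl⟩

/-- the internal structure -/
def II (m : ℕ) : Set (Finset (Nw 3 m)) :=
  {g | (Sum.inl 0 : Nw 3 m) ∈ g ∧ (((Sum.inl 1 : Nw 3 m) ∈ g ∧ (Sum.inl 2 : Nw 3 m) ∉ g) ∨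
    ∃ (i : Fin m) (a b : ℕ), a ≠ b ∧ (Sum.inr (i, a) : Nw 3 m) ∈ g ∧ (Sum.inr (i, b) : Nw 3 m) ∈ g)}

theorem mem_II {m : ℕ} (g : Finset (Nw 3 m)) : g ∈ II m ↔
  (Sum.inl 0 : Nw 3 m) ∈ g ∧ (((Sum.inl 1 : Nw 3 m) ∈ g ∧ (Sum.inl 2 : Nw 3 m) ∉ g) ∨
    ∃ (i : Fin m) (a b : ℕ), a ≠ b ∧ (Sum.inr (i, a) : Nw 3 m) ∈ g ∧ (Sum.inr (i, b) : Nw 3 m) ∈ g) := Iff.rfl

theorem mem_old {k m : ℕ} (z : Nw k m) : z ∈ old k m ↔ z.isLeft := by
  rw [old, Finset.mem_map]
  constructor
  · rintro ⟨i, -, rfl⟩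
    rfl
  · intro h
    obtain ⟨i, rfl⟩ := Sum.isLeft_iff.1 h
    exact ⟨i, Finset.mem_univ _, rfl⟩

theorem card_old (k m : ℕ) : (old k m).card = k := by
  rw [old, Finset.card_map, Finset.card_univ, Fintype.card_fin]

theorem old_notMem (m : ℕ) : old 3 m ∉ II m := by
  rw [mem_II]
  rintro ⟨-, ⟨-, h⟩ | ⟨i, a, b, -, h, -⟩⟩
  · exact h ((mem_old _).2 rfl)
  · rw [mem_old] at h
    simp at h

theorem exists_equiv {m : ℕ} {W : Type} [Fintype W] [DecidableEq W] {c d : W} (hW : Fintype.card W = m + 3)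
    (hcd : c ≠ d) : ∃ e : W ≃ Fin 3 ⊕ Fin m, e c = Sum.inl 0 ∧ e d = Sum.inl 1 := by
  have e₀ : W ≃ Fin 3 ⊕ Fin m := Fintype.equivOfCardEq (by
    rw [hW, Fintype.card_sum, Fintype.card_fin, Fintype.card_fin, add_comm])
  let e1 := e₀.trans (Equiv.swap (e₀ c) (Sum.inl 0))
  have h1 : e1 c = Sum.inl 0 := Equiv.swap_apply_left _ _
  let e2 := e1.trans (Equiv.swap (e1 d) (Sum.inl 1))
  have h2 : e2 d = Sum.inl 1 := Equiv.swap_apply_left _ _
  refine ⟨e2, ?_, h2⟩
  show Equiv.swap (e1 d) (Sum.inl 1) (e1 c) = Sum.inl 0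
  rw [h1]
  apply Equiv.swap_apply_of_ne_of_ne
  · rw [← h1]
    intro h
    exact hcd (e1.injective h)
  · intro h
    rw [Sum.inl.injEq] at h
    exact absurd h (by decide)

section

variable {m : ℕ} {W : Type} [Fintype W] [DecidableEq W] {H : Set (Finset W)} {c d : W}

theorem flip (hW : Fintype.card W = m + 3) (hcd : c ≠ d)
    (hH : ∀ f : Finset W, f.card = 3 → (f ∈ H ↔ c ∈ f ∧ d ∈ f)) (w : Fin m → ℕ) :
    ∃ ψ : W ↪ Nw 3 m, (∀ x i a, ψ x = Sum.inr (i, a) → a = w i) ∧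
    ∀ f : Finset W, f.card = 3 → (f ∈ H ↔ f.map ψ ∈ symmDiff (II m) {old 3 m}) := by
  obtain ⟨e, hec, hed⟩ := exists_equiv hW hcd
  let ι : Fin 3 ⊕ Fin m → Nw 3 m := fun x => match x with
    | Sum.inl i => Sum.inl i
    | Sum.inr i => Sum.inr (i, w i)
  have hι : Function.Injective ι := by
    rintro (i | i) (j | j) h
    · have h1 : (Sum.inl i : Nw 3 m) = Sum.inl j := h
      rw [Sum.inl.injEq] at h1
      rw [h1]
    · have h1 : (Sum.inl i : Nw 3 m) = Sum.inr (j, w j) := h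
      simp at h1
    · have h1 : (Sum.inr (i, w i) : Nw 3 m) = Sum.inl j := h
      simp at h1
    · have h1 : (Sum.inr (i, w i) : Nw 3 m) = Sum.inr (j, w j) := h
      simp only [Sum.inr.injEq, Prod.mk.injEq] at h1
      rw [h1.1]
  let ψ : W ↪ Nw 3 m := ⟨fun x => ι (e x), hι.comp e.injective⟩
  have hψ : ∀ x, ψ x = ι (e x) := fun x => rfl
  have hψc : ψ c = Sum.inl 0 := by rw [hψ, hec]
  have hψd : ψ d = Sum.inl 1 := by rw [hψ, hed]
  have h1 : ∀ x i a, ψ x = Sum.inr (i, a) → a = w i := by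
    intro x i a h
    rw [hψ] at h
    rcases h2 : e x with j | j
    · rw [h2] at h
      have h3 : (Sum.inl j : Nw 3 m) = Sum.inr (i, a) := h
      simp at h3
    · rw [h2] at h
      have h3 : (Sum.inr (j, w j) : Nw 3 m) = Sum.inr (i, a) := h
      simp only [Sum.inr.injEq, Prod.mk.injEq] at h3
      rw [← h3.2, h3.1]
  refine ⟨ψ, h1, fun f hf => ?_⟩
  have hc : c ∈ f ↔ (Sum.inl 0 : Nw 3 m) ∈ f.map ψ := by
    rw [← hψc, Finset.mem_map']
  have hd : d ∈ f ↔ (Sum.inl 1 : Nw 3 m) ∈ f.map ψ := by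
    rw [← hψd, Finset.mem_map']
  rw [hH f hf, hc, hd, Set.mem_symmDiff, Set.mem_singleton_iff]
  constructor
  · rintro ⟨h2, h3⟩
    by_cases h4 : (Sum.inl 2 : Nw 3 m) ∈ f.map ψ
    · right
      have h5 : f.map ψ = old 3 m := by
        symm
        apply Finset.eq_of_subset_of_card_le
        · intro z hz
          obtain ⟨i, -, rfl⟩ := Finset.mem_map.1 hz
          fin_cases i
          · exact h2
          · exact h3
          · exact h4
        · rw [Finset.card_map, hf, card_old]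
      exact ⟨h5, by rw [h5]; exact old_notMem m⟩
    · left
      refine ⟨⟨h2, Or.inl ⟨h3, h4⟩⟩, fun h5 => h4 ?_⟩
      rw [h5, mem_old]
      rfl
  · rintro (⟨⟨h2, ⟨h3, -⟩ | ⟨i, a, b, hab, h3, h4⟩⟩, -⟩ | ⟨h5, -⟩)
    · exact ⟨h2, h3⟩
    · exfalso
      obtain ⟨x, -, hx⟩ := Finset.mem_map.1 h3
      obtain ⟨y, -, hy⟩ := Finset.mem_map.1 h4
      exact hab ((h1 x i a hx).trans (h1 y i b hy).symm)
    · rw [h5, mem_old, mem_old]
      exact ⟨rfl, rfl⟩

/-- pigeonhole -/
theorem free' (hm : 2 ≤ m) (hW : Fintype.card W = m + 3) (hcd : c ≠ d)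
    (hH : ∀ f : Finset W, f.card = 3 → (f ∈ H ↔ c ∈ f ∧ d ∈ f)) (φ : W ↪ Nw 3 m)
    (hφ : ∀ f : Finset W, f.card = 3 → (f ∈ H ↔ f.map φ ∈ II m)) (hc : φ c = Sum.inl 0) : False := by
  have hedge : ∀ x, x ≠ c → x ≠ d → ((Sum.inl 1 : Nw 3 m) ∈ ({φ c, φ d, φ x} : Finset (Nw 3 m)) ∧
      (Sum.inl 2 : Nw 3 m) ∉ ({φ c, φ d, φ x} : Finset (Nw 3 m))) ∨
    ∃ (i : Fin m) (a b : ℕ), a ≠ b ∧ (Sum.inr (i, a) : Nw 3 m) ∈ ({φ c, φ d, φ x} : Finset (Nw 3 m)) ∧
      (Sum.inr (i, b) : Nw 3 m) ∈ ({φ c, φ d, φ x} : Finset (Nw 3 m)) := by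
    intro x hxc hxd
    have h1 : ({c, d, x} : Finset W).card = 3 := c3 hcd hxc.symm hxd.symm
    have h2 := (hφ _ h1).1 ((hH _ h1).2 ⟨by simp, by simp⟩)
    rw [Finset.map_insert, Finset.map_insert, Finset.map_singleton] at h2
    exact h2.2
  have hno : ∀ x y (i : Fin m) (a b : ℕ), x ≠ c → x ≠ d → y ≠ c → y ≠ d → x ≠ y → φ x = Sum.inr (i, a) →
      φ y = Sum.inr (i, b) → False := by
    intro x y i a b hxc hxd hyc hyd hxy hx hy
    have h1 : ({c, x, y} : Finset W).card = 3 := c3 hxc.symm hyc.symm hxy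
    have h2 : ({c, x, y} : Finset W) ∈ H := by
      rw [hφ _ h1, Finset.map_insert, Finset.map_insert, Finset.map_singleton, hc, hx, hy]
      refine ⟨by simp, Or.inr ⟨i, a, b, ?_, by simp, by simp⟩⟩
      rintro rfl
      exact hxy (φ.injective (hx.trans hy.symm))
    have h3 := ((hH _ h1).1 h2).2
    simp only [Finset.mem_insert, Finset.mem_singleton] at h3
    rcases h3 with h3 | h3 | h3
    · exact hcd h3.symm
    · exact hxd h3.symm
    · exact hyd h3.symm
  let Z : Finset W := (Finset.univ.erase c).erase d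
  have hZ : ∀ x, x ∈ Z ↔ x ≠ d ∧ x ≠ c := fun x => by simp [Z]
  have hZc : Z.card = m + 1 := by
    rw [Finset.card_erase_of_mem, Finset.card_erase_of_mem (Finset.mem_univ c), Finset.card_univ, hW]
    · rfl
    · rw [Finset.mem_erase]
      exact ⟨hcd.symm, Finset.mem_univ _⟩
  rcases hd : φ d with j | ⟨j, a⟩
  · -- an old vertex
    have hallr : ∀ x, x ≠ c → x ≠ d → ∃ p : Fin m × ℕ, φ x = Sum.inr p := by
      intro x hxc hxd
      rcases hedge x hxc hxd with ⟨h1, h2⟩ | ⟨i, a, b, hab, h1, h2⟩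
      · rcases hx : φ x with l | p
        · exfalso
          rw [hc, hd, hx] at h1 h2
          simp only [Finset.mem_insert, Finset.mem_singleton, Sum.inl.injEq, not_or] at h1 h2
          have g1 : l ≠ 0 := by
            rintro rfl
            exact hxc (φ.injective (hx.trans hc.symm))
          have g2 : j ≠ 0 := by
            rintro rfl
            exact hcd (φ.injective (hc.trans hd.symm))
          have g3 : l ≠ j := by
            rintro rfl
            exact hxd (φ.injective (hx.trans hd.symm))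
          obtain ⟨-, h3, h4⟩ := h2
          fin_cases l <;> fin_cases j <;> simp_all
        · exact ⟨p, rfl⟩
      · exfalso
        rw [hc, hd] at h1 h2
        simp only [Finset.mem_insert, Finset.mem_singleton, reduceCtorEq, false_or] at h1 h2
        have h3 := h1.trans h2.symm
        simp only [Sum.inr.injEq, Prod.mk.injEq, true_and] at h3
        exact hab h3
    let F : W → Fin m := fun x => match φ x with
      | Sum.inl _ => ⟨0, by omega⟩
      | Sum.inr p => p.1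
    obtain ⟨x, hx, y, hy, hxy, hF⟩ := Finset.exists_ne_map_eq_of_card_lt_of_maps_to (s := Z) (t := (Finset.univ : Finset (Fin m)))
      (by rw [hZc, Finset.card_univ, Fintype.card_fin]; omega) (f := F) (fun _ _ => Finset.mem_coe.2 (Finset.mem_univ _))
    rw [hZ] at hx hy
    obtain ⟨⟨i, a⟩, hp⟩ := hallr x hx.2 hx.1
    obtain ⟨⟨i', b⟩, hp'⟩ := hallr y hy.2 hy.1
    have h1 : F x = i := by
      show (match φ x with
        | Sum.inl _ => (⟨0, by omega⟩ : Fin m)
        | Sum.inr p => p.1) = i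
      rw [hp]
    have h2 : F y = i' := by
      show (match φ y with
        | Sum.inl _ => (⟨0, by omega⟩ : Fin m)
        | Sum.inr p => p.1) = i'
      rw [hp']
    have h3 : i = i' := by rw [← h1, hF, h2]
    subst h3
    exact hno x y i a b hx.2 hx.1 hy.2 hy.1 hxy hp hp'
  · -- a new vertex
    have hall : ∀ x, x ≠ c → x ≠ d → φ x = Sum.inl 1 ∨ ∃ b, φ x = Sum.inr (j, b) := by
      intro x hxc hxd
      rcases hedge x hxc hxd with ⟨h1, h2⟩ | ⟨i, a', b, hab, h1, h2⟩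
      · left
        rw [hc, hd] at h1
        simp only [Finset.mem_insert, Finset.mem_singleton, reduceCtorEq, Sum.inl.injEq, false_or] at h1
        rcases h1 with h1 | h1
        · exact absurd h1 (by decide)
        · exact h1.symm
      · right
        rw [hc, hd] at h1 h2
        simp only [Finset.mem_insert, Finset.mem_singleton, reduceCtorEq, Sum.inr.injEq, Prod.mk.injEq, false_or] at h1 h2
        rcases h1 with ⟨rfl, rfl⟩ | h1
        · rcases h2 with ⟨-, rfl⟩ | h2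
          · exact absurd rfl hab
          · exact ⟨b, h2.symm⟩
        · rcases h2 with ⟨rfl, rfl⟩ | h2
          · exact ⟨a', h1.symm⟩
          · exfalso
            have h3 := h1.trans h2.symm
            simp only [Sum.inr.injEq, Prod.mk.injEq, true_and] at h3
            exact hab h3
    have hZ3 : 2 < Z.card := by omega
    obtain ⟨x, hx, y, hy, z, hz, hxy, hxz, hyz⟩ := Finset.two_lt_card.1 hZ3
    rw [hZ] at hx hy hz
    rcases hall x hx.2 hx.1 with h1 | ⟨b, h1⟩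
    · rcases hall y hy.2 hy.1 with h2 | ⟨b', h2⟩
      · exact hxy (φ.injective (h1.trans h2.symm))
      · rcases hall z hz.2 hz.1 with h3 | ⟨b'', h3⟩
        · exact hxz (φ.injective (h1.trans h3.symm))
        · exact hno y z j b' b'' hy.2 hy.1 hz.2 hz.1 hyz h2 h3
    · rcases hall y hy.2 hy.1 with h2 | ⟨b', h2⟩
      · rcases hall z hz.2 hz.1 with h3 | ⟨b'', h3⟩
        · exact hyz (φ.injective (h2.trans h3.symm))
        · exact hno x z j b b'' hx.2 hx.1 hz.2 hz.1 hxz h1 h3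
      · exact hno x y j b b' hx.2 hx.1 hy.2 hy.1 hxy h1 h2

theorem free (hm : 2 ≤ m) (hW : Fintype.card W = m + 3) (hcd : c ≠ d)
    (hH : ∀ f : Finset W, f.card = 3 → (f ∈ H ↔ c ∈ f ∧ d ∈ f)) : ¬ IndCopy 3 H (II m) := by
  rintro ⟨φ, hφ⟩
  by_cases hc : φ c = Sum.inl 0
  · exact free' hm hW hcd hH φ hφ hc
  by_cases hd : φ d = Sum.inl 0
  · exact free' hm hW hcd.symm (fun f hf => by rw [hH f hf]; tauto) φ hφ hd
  have hall : ∀ x, x ≠ c → x ≠ d → φ x = Sum.inl 0 := by
    intro x hxc hxd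
    have h1 : ({c, d, x} : Finset W).card = 3 := c3 hcd hxc.symm hxd.symm
    have h2 := ((hφ _ h1).1 ((hH _ h1).2 ⟨by simp, by simp⟩)).1
    rw [Finset.map_insert, Finset.map_insert, Finset.map_singleton] at h2
    simp only [Finset.mem_insert, Finset.mem_singleton] at h2
    rcases h2 with h2 | h2 | h2
    · exact absurd h2.symm hc
    · exact absurd h2.symm hd
    · exact h2.symm
  let Z : Finset W := (Finset.univ.erase c).erase d
  have hZ : ∀ x, x ∈ Z ↔ x ≠ d ∧ x ≠ c := fun x => by simp [Z]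
  have hZc : Z.card = m + 1 := by
    rw [Finset.card_erase_of_mem, Finset.card_erase_of_mem (Finset.mem_univ c), Finset.card_univ, hW]
    · rfl
    · rw [Finset.mem_erase]
      exact ⟨hcd.symm, Finset.mem_univ _⟩
  obtain ⟨x, hx, y, hy, hxy⟩ := Finset.one_lt_card.1 (by omega : 1 < Z.card)
  rw [hZ] at hx hy
  exact hxy (φ.injective ((hall x hx.2 hx.1).trans (hall y hy.2 hy.1).symm))

theorem cross (hm : 2 ≤ m) (hW : Fintype.card W = m + 3) (hcd : c ≠ d)
    (hH : ∀ f : Finset W, f.card = 3 → (f ∈ H ↔ c ∈ f ∧ d ∈ f)) (X Y : Finset W) (hXY : Disjoint X Y)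
    (hX : X.Nonempty) (hY : Y.Nonempty) (hcr : Cross 3 H True X Y) (ζ : W → Nw 3 m)
    (hζ : Set.InjOn ζ {x | x ∉ X}) (hζY : ∀ y ∈ Y, (ζ y).isRight) (hζZ : ∀ z, z ∉ X → z ∉ Y → (ζ z).isLeft)
    (h : ∀ f : Finset W, f.card = 3 → Disjoint f X → (f ∈ H ↔ f.image ζ ∈ II m)) : False := by
  have h1 : ∀ x ∈ X, ∀ y ∈ Y, ∀ z, z ≠ x → z ≠ y → c ∈ ({x, y, z} : Finset W) ∧ d ∈ ({x, y, z} : Finset W) := by
    intro x hx y hy z hzx hzy
    have hxy : x ≠ y := by
      rintro rfl
      exact Finset.disjoint_left.1 hXY hx hy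
    have h2 : ({x, y, z} : Finset W).card = 3 := c3 hxy hzx.symm hzy.symm
    rw [← hH _ h2]
    exact (hcr _ h2 ⟨x, Finset.mem_inter.2 ⟨by simp, hx⟩⟩ ⟨y, Finset.mem_inter.2 ⟨by simp, hy⟩⟩).2 trivial
  have h2 : ∀ x ∈ X, ∀ y ∈ Y, c ∈ ({x, y} : Finset W) ∧ d ∈ ({x, y} : Finset W) := by
    intro x hx y hy
    have h3 : 1 < (({x, y} : Finset W)ᶜ).card := by
      rw [Finset.card_compl, hW]
      have := Finset.card_le_two (a := x) (b := y)
      omega
    obtain ⟨z, hz, z', hz', hzz⟩ := Finset.one_lt_card.1 h3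
    simp only [Finset.mem_compl, Finset.mem_insert, Finset.mem_singleton, not_or] at hz hz'
    obtain ⟨a1, a2⟩ := h1 x hx y hy z hz.1 hz.2
    obtain ⟨b1, b2⟩ := h1 x hx y hy z' hz'.1 hz'.2
    simp only [Finset.mem_insert, Finset.mem_singleton] at a1 a2 b1 b2 ⊢
    constructor
    · rcases a1 with a1 | a1 | a1
      · exact Or.inl a1
      · exact Or.inr a1
      · rcases b1 with b1 | b1 | b1
        · exact Or.inl b1
        · exact Or.inr b1
        · exact absurd (a1.symm.trans b1) hzz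
    · rcases a2 with a2 | a2 | a2
      · exact Or.inl a2
      · exact Or.inr a2
      · rcases b2 with b2 | b2 | b2
        · exact Or.inl b2
        · exact Or.inr b2
        · exact absurd (a2.symm.trans b2) hzz
  obtain ⟨x₁, hx₁⟩ := hX
  obtain ⟨y₁, hy₁⟩ := hY
  have hXcd : ∀ x ∈ X, x = c ∨ x = d := by
    intro x hx
    obtain ⟨a, b⟩ := h2 x hx y₁ hy₁
    simp only [Finset.mem_insert, Finset.mem_singleton] at a b
    rcases a with a | a
    · exact Or.inl a.symm
    · rcases b with b | b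
      · exact Or.inr b.symm
      · exact absurd (a.trans b.symm) hcd
  have hYcd : ∀ y ∈ Y, y = c ∨ y = d := by
    intro y hy
    obtain ⟨a, b⟩ := h2 x₁ hx₁ y hy
    simp only [Finset.mem_insert, Finset.mem_singleton] at a b
    rcases a with a | a
    · rcases b with b | b
      · exact absurd (a.trans b.symm) hcd
      · exact Or.inr b.symm
    · exact Or.inl a.symm
  let Z : Finset W := (Finset.univ.erase c).erase d
  have hZ : ∀ x, x ∈ Z ↔ x ≠ d ∧ x ≠ c := fun x => by simp [Z]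
  have hZc : Z.card = m + 1 := by
    rw [Finset.card_erase_of_mem, Finset.card_erase_of_mem (Finset.mem_univ c), Finset.card_univ, hW]
    · rfl
    · rw [Finset.mem_erase]
      exact ⟨hcd.symm, Finset.mem_univ _⟩
  have hZX : ∀ z ∈ Z, z ∉ X := by
    intro z hz hzX
    rw [hZ] at hz
    rcases hXcd z hzX with h3 | h3
    · exact hz.2 h3
    · exact hz.1 h3
  have hZY : ∀ z ∈ Z, z ∉ Y := by
    intro z hz hzX
    rw [hZ] at hz
    rcases hYcd z hzX with h3 | h3
    · exact hz.2 h3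
    · exact hz.1 h3
  have himg : Z.image ζ = old 3 m := by
    apply Finset.eq_of_subset_of_card_le
    · intro z hz
      obtain ⟨x, hx, rfl⟩ := Finset.mem_image.1 hz
      rw [mem_old]
      exact hζZ x (hZX x hx) (hZY x hx)
    · rw [card_old, Finset.card_image_of_injOn (hζ.mono fun z hz => hZX z hz), hZc]
      omega
  have h0 : (Sum.inl 0 : Nw 3 m) ∈ Z.image ζ := by rw [himg, mem_old]; rfl
  have h1' : (Sum.inl 1 : Nw 3 m) ∈ Z.image ζ := by rw [himg, mem_old]; rfl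
  obtain ⟨z, hz, hz0⟩ := Finset.mem_image.1 h0
  obtain ⟨z', hz', hz1⟩ := Finset.mem_image.1 h1'
  have hy1 := hζY y₁ hy₁
  obtain ⟨p, hp⟩ := Sum.isRight_iff.1 hy1
  have hyX : y₁ ∉ X := fun h3 => Finset.disjoint_left.1 hXY h3 hy₁
  have hyz : y₁ ≠ z := by
    rintro rfl
    exact hZY _ hz hy₁
  have hyz' : y₁ ≠ z' := by
    rintro rfl
    exact hZY _ hz' hy₁
  have hzz' : z ≠ z' := by
    rintro rfl
    rw [hz0, Sum.inl.injEq] at hz1
    exact absurd hz1 (by decide)
  have h3 : ({y₁, z, z'} : Finset W).card = 3 := c3 hyz hyz' hzz'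
  have h4 : ({y₁, z, z'} : Finset W) ∈ H := by
    rw [h _ h3, Finset.image_insert, Finset.image_insert, Finset.image_singleton, hp, hz0, hz1]
    · refine ⟨by simp, Or.inl ⟨by simp, by simp⟩⟩
    · rw [Finset.disjoint_left]
      intro a ha haX
      simp only [Finset.mem_insert, Finset.mem_singleton] at ha
      rcases ha with rfl | rfl | rfl
      · exact hyX haX
      · exact hZX _ hz haX
      · exact hZX _ hz' haX
  rw [hH _ h3] at h4
  simp only [Finset.mem_insert, Finset.mem_singleton] at h4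
  rw [hZ] at hz hz'
  obtain ⟨a, b⟩ := h4
  rcases a with a | a | a
  · rcases b with b | b | b
    · exact hcd (a.trans b.symm)
    · exact hz.1 b.symm
    · exact hz'.1 b.symm
  · exact hz.2 a.symm
  · exact hz'.2 a.symm

end

theorem hm : S_HM := by
  intro m hm W _ _ H c d hW hcd hH
  refine ⟨True, II m, ⟨?_, free hm hW hcd hH, flip hW hcd hH, ?_⟩⟩
  · exact ⟨fun h => old_notMem m h, fun h => h.elim⟩
  · intro X Y hXY hX hY hcr ζ hζ h1 h2 h3
    exact cross hm hW hcd hH X Y hXY hX hY hcr ζ hζ h1 h2 h3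

end Q222.ISatHM
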