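import Pool.Agent.Q109.ISat.Stm

/-!
Project ISat (helper109), job INT (helper222).
-/

set_option autoImplicit false

namespace Q222.ISatINT

open Q109.ISat Set

theorem tw_symm {k : ℕ} {W : Type} [DecidableEq W] {H : Set (Finset W)} {δ : Prop} {u v : W}
    (h : Twins k H δ u v) : Twins k H δ v u :=
  ⟨h.1.symm, fun f hf hv hu => h.2.1 f hf hu hv, fun g hg hv hu => (h.2.2 g hg hu hv).symm⟩

theorem int : S_INT := by
  intro W _ _ H hW ⟨f₀, hf₀, hf₀3⟩
  by_cases hA : ∃ (f : Finset W) (δ : Prop), f ∈ H ∧ f.card = 3 ∧ ∀ v ∈ f, ∀ u, ¬ Twins 3 H δ v u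
  · exact Or.inl hA
  right
  have hN : ∀ (δ : Prop) (f : Finset W), f ∈ H → f.card = 3 → ∃ v ∈ f, ∃ u, Twins 3 H δ v u := by
    intro δ f hf hf3
    by_contra hcon
    push Not at hcon
    exact hA ⟨f, δ, hf, hf3, hcon⟩
  have h1 : ∀ u v w : W, Twins 3 H False u v → Twins 3 H True u w → False := by
    intro u v w h h'
    obtain ⟨f, h1, -, h2⟩ := Finset.exists_subsuperset_card_eq (Finset.subset_univ ({u, v, w} : Finset W))
      (Finset.card_le_three) (by rw [Finset.card_univ]; omega)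
    have a1 := h.2.1 f h2 (h1 (by simp)) (h1 (by simp))
    have a2 := h'.2.1 f h2 (h1 (by simp)) (h1 (by simp))
    tauto
  obtain ⟨c, -, d, hcd⟩ := hN True f₀ hf₀ hf₀3
  have hedge : ∀ x, x ≠ c → x ≠ d → ({c, d, x} : Finset W) ∈ H ∧ ({c, d, x} : Finset W).card = 3 := by
    intro x hxc hxd
    have h2 : ({c, d, x} : Finset W).card = 3 := Finset.card_eq_three.2 ⟨c, d, x, hcd.1, hxc.symm, hxd.symm, rfl⟩
    exact ⟨(hcd.2.1 _ h2 (by simp) (by simp)).2 trivial, h2⟩
  have hD : ∀ w u, Twins 3 H True w u → w = c ∨ w = d := by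
    intro w u hwu
    by_contra hcon
    rw [not_or] at hcon
    obtain ⟨h2, h3⟩ := hedge w hcon.1 hcon.2
    obtain ⟨v, hv, z, hz⟩ := hN False _ h2 h3
    simp only [Finset.mem_insert, Finset.mem_singleton] at hv
    rcases hv with rfl | rfl | rfl
    · exact h1 _ _ _ hz hcd
    · exact h1 _ _ _ hz (tw_symm hcd)
    · exact h1 _ _ _ hz hwu
  refine ⟨c, d, hcd, ?_, ?_⟩
  · intro f hf hc hd hfH
    obtain ⟨v, hv, u, hu⟩ := hN True f hfH hf
    rcases hD v u hu with rfl | rfl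
    · exact hc hv
    · exact hd hv
  · intro x hxc hxd
    obtain ⟨h2, h3⟩ := hedge x hxc hxd
    obtain ⟨v, hv, z, hz⟩ := hN False _ h2 h3
    simp only [Finset.mem_insert, Finset.mem_singleton] at hv
    rcases hv with rfl | rfl | rfl
    · exact (h1 _ _ _ hz hcd).elim
    · exact (h1 _ _ _ hz (tw_symm hcd)).elim
    · refine ⟨z, ?_, ?_, hz⟩
      · rintro rfl
        exact h1 _ _ _ (tw_symm hz) hcd
      · rintro rfl
        exact h1 _ _ _ (tw_symm hz) (tw_symm hcd)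

end Q222.ISatINT
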