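import Pool.Agent.Q109.ISat.Stm

/-!
Project ISat (helper109), job K4 (helper222).
-/

set_option autoImplicit false

namespace Q222.ISatK4

open Q109.ISat Set

theorem k4 : S_K4 := by
  classical
  intro k hk W _ _ H hW
  have key : ∀ a b c d : W, ∃ f : Finset W, f.card = k ∧ a ∈ f ∧ b ∈ f ∧ c ∈ f ∧ d ∈ f := by
    intro a b c d
    obtain ⟨f, h1, -, h2⟩ := Finset.exists_subsuperset_card_eq (Finset.subset_univ ({a, b, c, d} : Finset W))
      (le_trans (Finset.card_le_four) hk) (by rw [Finset.card_univ]; exact hW)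
    exact ⟨f, h2, h1 (by simp), h1 (by simp), h1 (by simp), h1 (by simp)⟩
  constructor
  · by_contra hcon
    push Not at hcon
    obtain ⟨X, Y, -, ⟨x, hx⟩, ⟨y, hy⟩, -, h1⟩ := hcon True
    obtain ⟨X', Y', -, ⟨x', hx'⟩, ⟨y', hy'⟩, -, h2⟩ := hcon False
    obtain ⟨f, hf, ha, hb, hc, hd⟩ := key x y x' y'
    have h3 := h1 f hf ⟨x, Finset.mem_inter.2 ⟨ha, hx⟩⟩ ⟨y, Finset.mem_inter.2 ⟨hb, hy⟩⟩
    have h4 := h2 f hf ⟨x', Finset.mem_inter.2 ⟨hc, hx'⟩⟩ ⟨y', Finset.mem_inter.2 ⟨hd, hy'⟩⟩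
    tauto
  · by_contra hcon
    push Not at hcon
    obtain ⟨x, y, -, h1, -⟩ := hcon True
    obtain ⟨x', y', -, h2, -⟩ := hcon False
    obtain ⟨f, hf, ha, hb, hc, hd⟩ := key x y x' y'
    have h3 := h1 f hf ha hb
    have h4 := h2 f hf hc hd
    tauto

end Q222.ISatK4
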