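import Pool.Agent.Q109.ISat.Stm

/-!
Project ISat (helper109), job P0 (helper222).
-/

set_option autoImplicit false

namespace Q222.ISatP0

open Q109.ISat Set

theorem exists_tau {k m : ℕ} {W : Type} [Fintype W] [DecidableEq W] (hW : Fintype.card W = k + m)
    (f : Finset W) (hf : f.card = k) : ∃ τ : Fin k ⊕ Fin m ≃ W, first τ = f := by
  have h1 : Fintype.card {x // x ∈ f} = k := by rw [Fintype.card_coe, hf]
  have h2 : Fintype.card {x // ¬ x ∈ f} = m := by
    rw [Fintype.card_subtype_compl, h1, hW]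
    omega
  let e1 := (Fintype.equivFinOfCardEq h1).symm
  let e2 := (Fintype.equivFinOfCardEq h2).symm
  refine ⟨(Equiv.sumCongr e1 e2).trans (Equiv.sumCompl (fun x => x ∈ f)), ?_⟩
  ext x
  rw [first, Finset.mem_map]
  constructor
  · rintro ⟨i, -, rfl⟩
    exact (e1 i).2
  · intro hx
    refine ⟨e1.symm ⟨x, hx⟩, Finset.mem_univ _, ?_⟩
    show ((e1 (e1.symm ⟨x, hx⟩) : {x // x ∈ f}) : W) = x
    rw [Equiv.apply_symm_apply]

theorem card_compl {k m : ℕ} {W : Type} [Fintype W] [DecidableEq W] (X Y : Finset W) (ζ : W → Nw k m)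
    (hζ : Set.InjOn ζ {x | x ∉ X}) (h : ∀ z, z ∉ X → z ∉ Y → (ζ z).isLeft) :
    ((X ∪ Y)ᶜ).card ≤ k := by
  have h1 : ((X ∪ Y)ᶜ).image ζ ⊆ old k m := by
    intro z hz
    obtain ⟨x, hx, rfl⟩ := Finset.mem_image.1 hz
    rw [Finset.mem_compl, Finset.mem_union, not_or] at hx
    obtain ⟨i, hi⟩ := Sum.isLeft_iff.1 (h x hx.1 hx.2)
    rw [hi, old]
    exact Finset.mem_map.2 ⟨i, Finset.mem_univ _, rfl⟩
  have h2 : ((X ∪ Y)ᶜ).card = (((X ∪ Y)ᶜ).image ζ).card := by
    rw [Finset.card_image_of_injOn]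
    refine hζ.mono fun x hx => ?_
    rw [Finset.mem_coe, Finset.mem_compl, Finset.mem_union, not_or] at hx
    exact hx.1
  rw [h2]
  refine (Finset.card_le_card h1).trans ?_
  rw [old, Finset.card_map, Finset.card_univ, Fintype.card_fin]


section

variable {W : Type} [Fintype W] [DecidableEq W] {H : Set (Finset W)}

/-- four elements -/
theorem case4 {a b c d : W} (hW : Fintype.card W = 4) (hab : a ≠ b) (hac : a ≠ c) (had : a ≠ d) (hbc : b ≠ c)
    (hbd : b ≠ d) (hcd : c ≠ d) (h1 : ({a, c, d} : Finset W) ∈ H) (h2 : ({b, c, d} : Finset W) ∈ H)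
    (h3 : ({a, b, c} : Finset W) ∉ H) (h4 : ({a, b, d} : Finset W) ∉ H) :
    ∃ e : Fin 4 ≃ W, ∀ f : Finset (Fin 4), f.card = 3 → (f ∈ H4 ↔ f.map e.toEmbedding ∈ H) := by
  have hinj : Function.Injective ![a, b, c, d] := by
    intro i j h
    fin_cases i <;> fin_cases j <;> simp_all
  refine ⟨Equiv.ofBijective ![a, b, c, d] ((Fintype.bijective_iff_injective_and_card _).2 ⟨hinj, by rw [hW, Fintype.card_fin]⟩), ?_⟩
  intro f hf
  have hcl : ∀ f : Finset (Fin 4), f.card = 3 → f = {0, 2, 3} ∨ f = {1, 2, 3} ∨ f = {0, 1, 2} ∨ f = {0, 1, 3} := by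
    decide
  rcases hcl f hf with rfl | rfl | rfl | rfl
  · constructor
    · intro _
      rw [Finset.map_eq_image, Finset.image_insert, Finset.image_insert, Finset.image_singleton]
      exact h1
    · intro _
      left
      rfl
  · constructor
    · intro _
      rw [Finset.map_eq_image, Finset.image_insert, Finset.image_insert, Finset.image_singleton]
      exact h2
    · intro _
      right
      rfl
  · constructor
    · intro h
      rcases h with h | h
      · exact absurd h (by decide)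
      · exact absurd h (by decide)
    · rw [Finset.map_eq_image, Finset.image_insert, Finset.image_insert, Finset.image_singleton]
      exact fun h => absurd h h3
  · constructor
    · intro h
      rcases h with h | h
      · exact absurd h (by decide)
      · exact absurd h (by decide)
    · rw [Finset.map_eq_image, Finset.image_insert, Finset.image_insert, Finset.image_singleton]
      exact fun h => absurd h h4


theorem c3 {a b c : W} (hab : a ≠ b) (hac : a ≠ c) (hbc : b ≠ c) : ({a, b, c} : Finset W).card = 3 :=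
  Finset.card_eq_three.2 ⟨a, b, c, hab, hac, hbc, rfl⟩

theorem cl5 : ∀ f : Finset (Fin 5), f.card = 3 → f = {0, 1, 2} ∨ f = {0, 1, 3} ∨ f = {0, 1, 4} ∨ f = {0, 2, 3} ∨
    f = {0, 2, 4} ∨ f = {0, 3, 4} ∨ f = {1, 2, 3} ∨ f = {1, 2, 4} ∨ f = {1, 3, 4} ∨ f = {2, 3, 4} := by
  decide

theorem map5 (e : Fin 5 ≃ W) (i j l : Fin 5) : ({i, j, l} : Finset (Fin 5)).map e.toEmbedding = {e i, e j, e l} := by
  rw [Finset.map_insert, Finset.map_insert, Finset.map_singleton]
  rfl

theorem h5iso (e : Fin 5 ≃ W) (h034 : ({e 0, e 3, e 4} : Finset W) ∈ H) (h134 : ({e 1, e 3, e 4} : Finset W) ∈ H)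
    (h234 : ({e 2, e 3, e 4} : Finset W) ∈ H) (h012 : ({e 0, e 1, e 2} : Finset W) ∉ H)
    (h013 : ({e 0, e 1, e 3} : Finset W) ∉ H) (h014 : ({e 0, e 1, e 4} : Finset W) ∉ H)
    (h023 : ({e 0, e 2, e 3} : Finset W) ∉ H) (h024 : ({e 0, e 2, e 4} : Finset W) ∉ H)
    (h123 : ({e 1, e 2, e 3} : Finset W) ∈ H) (h124 : ({e 1, e 2, e 4} : Finset W) ∉ H) :
    ∃ e : Fin 5 ≃ W, ∀ f : Finset (Fin 5), f.card = 3 → (f ∈ H5 ↔ f.map e.toEmbedding ∈ H) := by
  refine ⟨e, fun f hf => ?_⟩
  have hm : ∀ f : Finset (Fin 5), f ∈ H5 ↔ (f = {0, 3, 4} ∨ f = {1, 3, 4} ∨ f = {2, 3, 4} ∨ f = {1, 2, 3}) := fun f => Iff.rfl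
  rcases cl5 f hf with rfl | rfl | rfl | rfl | rfl | rfl | rfl | rfl | rfl | rfl <;> rw [hm, map5]
  · exact ⟨fun h => absurd h (by decide), fun h => absurd h h012⟩
  · exact ⟨fun h => absurd h (by decide), fun h => absurd h h013⟩
  · exact ⟨fun h => absurd h (by decide), fun h => absurd h h014⟩
  · exact ⟨fun h => absurd h (by decide), fun h => absurd h h023⟩
  · exact ⟨fun h => absurd h (by decide), fun h => absurd h h024⟩
  · exact ⟨fun _ => h034, fun _ => Or.inl rfl⟩
  · exact ⟨fun _ => h123, fun _ => Or.inr (Or.inr (Or.inr rfl))⟩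
  · exact ⟨fun h => absurd h (by decide), fun h => absurd h h124⟩
  · exact ⟨fun _ => h134, fun _ => Or.inr (Or.inl rfl)⟩
  · exact ⟨fun _ => h234, fun _ => Or.inr (Or.inr (Or.inl rfl))⟩

theorem hm5 (e : Fin 5 ≃ W) (h034 : ({e 0, e 3, e 4} : Finset W) ∈ H) (h134 : ({e 1, e 3, e 4} : Finset W) ∈ H)
    (h234 : ({e 2, e 3, e 4} : Finset W) ∈ H) (h012 : ({e 0, e 1, e 2} : Finset W) ∉ H)
    (h013 : ({e 0, e 1, e 3} : Finset W) ∉ H) (h014 : ({e 0, e 1, e 4} : Finset W) ∉ H)
    (h023 : ({e 0, e 2, e 3} : Finset W) ∉ H) (h024 : ({e 0, e 2, e 4} : Finset W) ∉ H)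
    (h123 : ({e 1, e 2, e 3} : Finset W) ∉ H) (h124 : ({e 1, e 2, e 4} : Finset W) ∉ H) :
    ∀ f : Finset W, f.card = 3 → (f ∈ H ↔ e 3 ∈ f ∧ e 4 ∈ f) := by
  intro f hf
  have hfe : f = (f.map e.symm.toEmbedding).map e.toEmbedding := by
    rw [Finset.map_map]
    have h5 : e.symm.toEmbedding.trans e.toEmbedding = Function.Embedding.refl W := by
      ext x
      simp
    rw [h5, Finset.map_refl]
  have hg : (f.map e.symm.toEmbedding).card = 3 := by rw [Finset.card_map, hf]
  generalize f.map e.symm.toEmbedding = g at hfe hg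
  subst hfe
  have hmem : ∀ i : Fin 5, e i ∈ g.map e.toEmbedding ↔ i ∈ g := fun i => Finset.mem_map' e.toEmbedding
  rw [hmem, hmem]
  rcases cl5 g hg with rfl | rfl | rfl | rfl | rfl | rfl | rfl | rfl | rfl | rfl <;> rw [map5]
  · exact ⟨fun h => absurd h h012, fun h => absurd h (by decide)⟩
  · exact ⟨fun h => absurd h h013, fun h => absurd h (by decide)⟩
  · exact ⟨fun h => absurd h h014, fun h => absurd h (by decide)⟩
  · exact ⟨fun h => absurd h h023, fun h => absurd h (by decide)⟩
  · exact ⟨fun h => absurd h h024, fun h => absurd h (by decide)⟩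
  · exact ⟨fun _ => by decide, fun _ => h034⟩
  · exact ⟨fun h => absurd h h123, fun h => absurd h (by decide)⟩
  · exact ⟨fun h => absurd h h124, fun h => absurd h (by decide)⟩
  · exact ⟨fun _ => by decide, fun _ => h134⟩
  · exact ⟨fun _ => by decide, fun _ => h234⟩

/-- the property `cross` from the first two cases of `DEC` -/
theorem cross {m : ℕ} (h : (∃ δ : Prop, ∀ X Y : Finset W, ¬ Decomp 3 H δ X Y) ∨
    (∀ X Y : Finset W, Decomp 3 H False X Y → ((X ∪ Y)ᶜ).card = 3 ∧ (X ∪ Y)ᶜ ∈ H)) :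
    ∃ δ : Prop, ∀ I : Set (Finset (Nw 3 m)), old 3 m ∉ I →
      ∀ X Y : Finset W, Disjoint X Y → X.Nonempty → Y.Nonempty → Cross 3 H δ X Y →
    ∀ ζ : W → Nw 3 m, Set.InjOn ζ {x | x ∉ X} → (∀ y ∈ Y, (ζ y).isRight) →
      (∀ z, z ∉ X → z ∉ Y → (ζ z).isLeft) →
      ¬ ∀ f : Finset W, f.card = 3 → Disjoint f X → (f ∈ H ↔ f.image ζ ∈ I) := by
  rcases h with ⟨δ, hδ⟩ | h
  · refine ⟨δ, fun I _ X Y hd hX hY hc ζ hζ _ h3 _ => ?_⟩
    exact hδ X Y ⟨hd, hX, hY, card_compl X Y ζ hζ h3, hc⟩
  · refine ⟨False, fun I hI X Y hd hX hY hc ζ hζ _ h3 h4 => ?_⟩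
    obtain ⟨h5, h6⟩ := h X Y ⟨hd, hX, hY, card_compl X Y ζ hζ h3, hc⟩
    have h7 : Disjoint ((X ∪ Y)ᶜ) X := by
      rw [Finset.disjoint_left]
      intro a ha haX
      rw [Finset.mem_compl] at ha
      exact ha (Finset.mem_union_left _ haX)
    have h8 := (h4 _ h5 h7).1 h6
    have h9 : ((X ∪ Y)ᶜ).image ζ = old 3 m := by
      apply Finset.eq_of_subset_of_card_le
      · intro z hz
        obtain ⟨x, hx, rfl⟩ := Finset.mem_image.1 hz
        rw [Finset.mem_compl, Finset.mem_union, not_or] at hx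
        obtain ⟨i, hi⟩ := Sum.isLeft_iff.1 (h3 x hx.1 hx.2)
        rw [hi, old]
        exact Finset.mem_map.2 ⟨i, Finset.mem_univ _, rfl⟩
      · rw [Finset.card_image_of_injOn, h5, old, Finset.card_map, Finset.card_univ, Fintype.card_fin]
        refine hζ.mono fun x hx => ?_
        rw [Finset.mem_coe, Finset.mem_compl, Finset.mem_union, not_or] at hx
        exact hx.1
    rw [h9] at h8
    exact hI h8

end

theorem p0 : S_CLB → S_CLF → S_DEC → S_INT → S_QNE → S_HM → S_T2A → S_P0 := by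
  intro hclb hclf hdec hint hqne hhm ht2a m hm W _ _ H hW hf
  have hW4 : 4 ≤ Fintype.card W := by omega
  -- the last two cases of `DEC`
  have hmain : (((∃ δ : Prop, ∀ X Y : Finset W, ¬ Decomp 3 H δ X Y) ∨
      (∀ X Y : Finset W, Decomp 3 H False X Y → ((X ∪ Y)ᶜ).card = 3 ∧ (X ∪ Y)ᶜ ∈ H)) → Good 3 m H False ∨
      (∃ e : Fin 4 ≃ W, ∀ f : Finset (Fin 4), f.card = 3 → (f ∈ H4 ↔ f.map e.toEmbedding ∈ H)) ∨
      (∃ e : Fin 5 ≃ W, ∀ f : Finset (Fin 5), f.card = 3 → (f ∈ H5 ↔ f.map e.toEmbedding ∈ H))) →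
      Good 3 m H False ∨
      (∃ e : Fin 4 ≃ W, ∀ f : Finset (Fin 4), f.card = 3 → (f ∈ H4 ↔ f.map e.toEmbedding ∈ H)) ∨
      (∃ e : Fin 5 ≃ W, ∀ f : Finset (Fin 5), f.card = 3 → (f ∈ H5 ↔ f.map e.toEmbedding ∈ H)) := by
    intro hyp
    rcases hdec W H hW4 with h | h | h | ⟨e, h034, h134, h234, h012, h013, h014, h023, h024⟩
    · exact hyp (Or.inl h)
    · exact hyp (Or.inr h)
    · exact Or.inr (Or.inl h)
    · have hm2 : m = 2 := by
        have h1 := Fintype.card_congr e
        rw [Fintype.card_fin] at h1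
        omega
      subst hm2
      by_cases h123 : ({e 1, e 2, e 3} : Finset W) ∈ H
      · by_cases h124 : ({e 1, e 2, e 4} : Finset W) ∈ H
        · exact Or.inl (ht2a W H e h034 h134 h234 h012 h013 h014 h023 h024 h123 h124)
        · exact Or.inr (Or.inr (h5iso e h034 h134 h234 h012 h013 h014 h023 h024 h123 h124))
      · by_cases h124 : ({e 1, e 2, e 4} : Finset W) ∈ H
        · right; right
          have s0 : ((Equiv.swap (3 : Fin 5) 4).trans e) 0 = e 0 := rfl
          have s1 : ((Equiv.swap (3 : Fin 5) 4).trans e) 1 = e 1 := rfl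
          have s2 : ((Equiv.swap (3 : Fin 5) 4).trans e) 2 = e 2 := rfl
          have s3 : ((Equiv.swap (3 : Fin 5) 4).trans e) 3 = e 4 := rfl
          have s4 : ((Equiv.swap (3 : Fin 5) 4).trans e) 4 = e 3 := rfl
          apply h5iso ((Equiv.swap 3 4).trans e)
          · rw [s0, s3, s4, Finset.pair_comm]
            exact h034
          · rw [s1, s3, s4, Finset.pair_comm]
            exact h134
          · rw [s2, s3, s4, Finset.pair_comm]
            exact h234
          · rw [s0, s1, s2]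
            exact h012
          · rw [s0, s1, s3]
            exact h014
          · rw [s0, s1, s4]
            exact h013
          · rw [s0, s2, s3]
            exact h024
          · rw [s0, s2, s4]
            exact h023
          · rw [s1, s2, s3]
            exact h124
          · rw [s1, s2, s4]
            exact h123
        · left
          refine hhm 2 le_rfl W H (e 3) (e 4) (by omega) (fun h => absurd (e.injective h) (by decide)) ?_
          exact hm5 e h034 h134 h234 h012 h013 h014 h023 h024 h123 h124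
  apply hmain
  intro hdec2
  obtain ⟨δ, hcross⟩ := cross (m := m) hdec2
  rcases hint W H hW4 hf with ⟨f, δ', hfH, hf3, hno⟩ | ⟨c, d, hcd, h4, h3⟩
  · left
    obtain ⟨τ, hτ⟩ := exists_tau hW f hf3
    obtain ⟨h1, h2⟩ := hclb 3 m W τ H δ' (by norm_num)
    rw [hτ] at h1
    have h1' : old 3 m ∉ clone τ H δ' := fun h => (h1.1 h) hfH
    refine ⟨δ, clone τ H δ', ⟨⟨fun h => h1' h, fun h => h.elim⟩, ?_, h2, ?_⟩⟩
    · apply hclf 3 m W τ H δ' (by norm_num)
      rw [hτ]
      exact hno
    · intro X Y hd hX hY hc ζ hζ h6 h7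
      exact hcross _ h1' X Y hd hX hY hc ζ hζ h6 h7
  · by_cases hE : ∃ x y, x ≠ d ∧ y ≠ d ∧ x ≠ c ∧ y ≠ c ∧ x ≠ y ∧ ({c, x, y} : Finset W) ∈ H
    · left
      obtain ⟨x, y, hxd, hyd, hxc, hyc, hxy, hE⟩ := hE
      have hc3 : ({c, d, x} : Finset W).card = 3 := c3 hcd.1 hxc.symm hxd.symm
      have hcdx : ({c, d, x} : Finset W) ∈ H := (hcd.2.1 _ hc3 (by simp) (by simp)).2 trivial
      obtain ⟨τ, hτ⟩ := exists_tau hW _ hc3
      obtain ⟨h1, h2⟩ := hclb 3 m W τ H True (by norm_num)
      rw [hτ] at h1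
      have h1' : old 3 m ∉ clone τ H True := fun h => (h1.1 h) hcdx
      refine ⟨δ, clone τ H True, ⟨⟨fun h => h1' h, fun h => h.elim⟩, ?_, h2, ?_⟩⟩
      · exact (hqne m W H τ c d x x y hcd h4 h3 hxc hxd hτ hxd hyd hxc hyc hxy hE).1
      · intro X Y hd hX hY hc ζ hζ h6 h7
        exact hcross _ h1' X Y hd hX hY hc ζ hζ h6 h7
    · have hno : ∀ x y, x ≠ d → y ≠ d → x ≠ c → y ≠ c → x ≠ y → ({c, x, y} : Finset W) ∉ H := by
        intro x y h1 h2 h5 h6 h7 h8
        exact hE ⟨x, y, h1, h2, h5, h6, h7, h8⟩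
      have hH : ∀ f : Finset W, f.card = 3 → (f ∈ H ↔ c ∈ f ∧ d ∈ f) := by
        intro f hf3
        constructor
        · intro hfH
          by_cases hc : c ∈ f
          · refine ⟨hc, ?_⟩
            by_contra hd
            have h5 : (f.erase c).card = 2 := by rw [Finset.card_erase_of_mem hc, hf3]
            obtain ⟨x, y, hxy, h6⟩ := Finset.card_eq_two.1 h5
            have hx : x ∈ f.erase c := by rw [h6]; simp
            have hy : y ∈ f.erase c := by rw [h6]; simp
            rw [Finset.mem_erase] at hx hy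
            apply hno x y _ _ hx.1 hy.1 hxy
            · rw [← h6, Finset.insert_erase hc]
              exact hfH
            · rintro rfl
              exact hd hx.2
            · rintro rfl
              exact hd hy.2
          · exfalso
            by_cases hd : d ∈ f
            · have h5 : (f.erase d).card = 2 := by rw [Finset.card_erase_of_mem hd, hf3]
              have hcf : c ∉ f.erase d := fun h => hc (Finset.mem_of_mem_erase h)
              have h7 := hcd.2.2 (f.erase d) (by rw [h5]) hcf (Finset.notMem_erase d f)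
              rw [Finset.insert_erase hd] at h7
              obtain ⟨x, y, hxy, h6⟩ := Finset.card_eq_two.1 h5
              have hx : x ∈ f.erase d := by rw [h6]; simp
              have hy : y ∈ f.erase d := by rw [h6]; simp
              rw [Finset.mem_erase] at hx hy
              apply hno x y hx.1 hy.1 _ _ hxy
              · rw [← h6]
                exact h7.2 hfH
              · rintro rfl
                exact hc hx.2
              · rintro rfl
                exact hc hy.2
            · exact h4 f hf3 hc hd hfH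
        · rintro ⟨hc, hd⟩
          exact (hcd.2.1 f hf3 hc hd).2 trivial
      by_cases hm2 : 2 ≤ m
      · exact Or.inl (hhm m hm2 W H c d (by omega) hcd.1 hH)
      · right; left
        have hW4' : Fintype.card W = 4 := by omega
        have h5 : ((Finset.univ.erase c).erase d).card = 2 := by
          rw [Finset.card_erase_of_mem, Finset.card_erase_of_mem (Finset.mem_univ c), Finset.card_univ, hW4']
          rw [Finset.mem_erase]
          exact ⟨hcd.1.symm, Finset.mem_univ _⟩
        obtain ⟨a, b, hab, h6⟩ := Finset.card_eq_two.1 h5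
        have ha : a ∈ (Finset.univ.erase c).erase d := by rw [h6]; simp
        have hb : b ∈ (Finset.univ.erase c).erase d := by rw [h6]; simp
        simp only [Finset.mem_erase, Finset.mem_univ, and_true] at ha hb
        apply case4 hW4' hab ha.2 ha.1 hb.2 hb.1 hcd.1
        · rw [hH _ (c3 ha.2 ha.1 hcd.1)]
          exact ⟨by simp, by simp⟩
        · rw [hH _ (c3 hb.2 hb.1 hcd.1)]
          exact ⟨by simp, by simp⟩
        · rw [hH _ (c3 hab ha.2 hb.2)]
          rintro ⟨-, h7⟩
          simp only [Finset.mem_insert, Finset.mem_singleton] at h7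
          rcases h7 with h7 | h7 | h7
          · exact ha.1 h7.symm
          · exact hb.1 h7.symm
          · exact hcd.1 h7.symm
        · rw [hH _ (c3 hab ha.1 hb.1)]
          rintro ⟨h7, -⟩
          simp only [Finset.mem_insert, Finset.mem_singleton] at h7
          rcases h7 with h7 | h7 | h7
          · exact ha.2 h7.symm
          · exact hb.2 h7.symm
          · exact hcd.1 h7

end Q222.ISatP0
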