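import Pool.Agent.Q109.ISat.Stm

/-!
Project ISat (helper109), job QNE (helper222).
-/

set_option autoImplicit false

namespace Q222.ISatQNE

open Q109.ISat Set

theorem tw_symm {k : ℕ} {W : Type} [DecidableEq W] {H : Set (Finset W)} {δ : Prop} {u v : W}
    (h : Twins k H δ u v) : Twins k H δ v u :=
  ⟨h.1.symm, fun f hf hv hu => h.2.1 f hf hu hv, fun g hg hv hu => (h.2.2 g hg hu hv).symm⟩

section

variable {W : Type} [DecidableEq W] {H : Set (Finset W)}

theorem c3 {a b c : W} (hab : a ≠ b) (hac : a ≠ c) (hbc : b ≠ c) : ({a, b, c} : Finset W).card = 3 :=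
  Finset.card_eq_three.2 ⟨a, b, c, hab, hac, hbc, rfl⟩

/-- links of twins -/
theorem link {δ : Prop} {u v : W} (h : Twins 3 H δ u v) {a b : W} (hab : a ≠ b) (hua : u ≠ a) (hub : u ≠ b)
    (hva : v ≠ a) (hvb : v ≠ b) : (({u, a, b} : Finset W) ∈ H ↔ ({v, a, b} : Finset W) ∈ H) := by
  apply h.2.2 {a, b}
  · rw [Finset.card_pair hab]
  · simp [hua, hub]
  · simp [hva, hvb]

theorem exists_not_mem [Fintype W] (s : Finset W) (h : s.card < Fintype.card W) : ∃ z, z ∉ s := by
  by_contra hcon
  push Not at hcon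
  have : s = Finset.univ := Finset.eq_univ_of_forall hcon
  rw [this, Finset.card_univ] at h
  exact lt_irrefl _ h

end

theorem perm1 {W : Type} [DecidableEq W] (a b c : W) : ({a, b, c} : Finset W) = {b, a, c} := Finset.insert_comm a b {c}

theorem perm2 {W : Type} [DecidableEq W] (a b c : W) : ({a, b, c} : Finset W) = {a, c, b} := by
  rw [Finset.pair_comm]

theorem qne : S_CLT → S_QNE := by
  intro hclt m W _ _ H τ c d x₀ x y hcd h4 h3 hx₀c hx₀d hfirst hxd hyd hxc hyc hxy hE
  have hcdne := hcd.1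
  obtain ⟨x', hx'c, hx'd, hxx'⟩ := h3 x hxc hxd
  obtain ⟨y', hy'c, hy'd, hyy'⟩ := h3 y hyc hyd
  have nx : ∀ z, z ≠ x → z ≠ x' → ({z, x, x'} : Finset W) ∉ H := by
    intro z h1 h2 h
    exact (hxx'.2.1 {z, x, x'} (c3 h1 h2 hxx'.1) (by simp) (by simp)).1 h
  have ny : ∀ z, z ≠ y → z ≠ y' → ({z, y, y'} : Finset W) ∉ H := by
    intro z h1 h2 h
    exact (hyy'.2.1 {z, y, y'} (c3 h1 h2 hyy'.1) (by simp) (by simp)).1 h
  have hx'y : x' ≠ y := by
    rintro rfl
    exact nx c hxc.symm hx'c.symm hE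
  have hy'x : y' ≠ x := by
    rintro rfl
    apply ny c hyc.symm hxc.symm
    rw [perm2]
    exact hE
  have hE1 : ({x', c, y} : Finset W) ∈ H := by
    rw [← link hxx' hyc.symm hxc hxy hx'c hx'y, perm1]
    exact hE
  have hE2 : ({y', c, x} : Finset W) ∈ H := by
    rw [← link hyy' hxc.symm hyc hxy.symm hy'c hy'x, perm1, perm2]
    exact hE
  have hx'y' : x' ≠ y' := by
    rintro rfl
    apply ny c hyc.symm hx'c.symm
    rw [perm2, perm1]
    exact hE1
  have hcard : 6 ≤ Fintype.card W := by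
    have h5 : ({c, d, x, y, x', y'} : Finset W).card = 6 := by
      rw [Finset.card_insert_of_notMem, Finset.card_insert_of_notMem, Finset.card_insert_of_notMem,
        Finset.card_insert_of_notMem, Finset.card_pair hx'y']
      · simp [hx'y.symm, hyy'.1]
      · simp [hxy, hxx'.1, hy'x.symm]
      · simp [hxd.symm, hyd.symm, hx'd.symm, hy'd.symm]
      · simp [hcdne, hxc.symm, hyc.symm, hx'c.symm, hy'c.symm]
    rw [← h5]
    exact Finset.card_le_univ _
  refine ⟨fun hcopy => ?_, hcard⟩
  -- the only twins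
  have hD : ∀ u v, Twins 3 H True u v → (u = c ∨ u = d) := by
    intro u v huv
    by_contra hcon
    rw [not_or] at hcon
    by_cases hv : v = c ∨ v = d
    · obtain ⟨u', hu'c, hu'd, huu'⟩ := h3 u hcon.1 hcon.2
      have hvu' : v ≠ u' := by
        rcases hv with rfl | rfl
        · exact hu'c.symm
        · exact hu'd.symm
      have h5 := (huv.2.1 {v, u, u'} (c3 huv.1.symm hvu' huu'.1) (by simp) (by simp)).2 trivial
      exact (huu'.2.1 {v, u, u'} (c3 huv.1.symm hvu' huu'.1) (by simp) (by simp)).1 h5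
    · rw [not_or] at hv
      obtain ⟨z, hz⟩ := exists_not_mem ({c, d, u, v} : Finset W) (lt_of_le_of_lt Finset.card_le_four (by omega))
      simp only [Finset.mem_insert, Finset.mem_singleton, not_or] at hz
      have h5 : ({z, u, v} : Finset W).card = 3 := c3 hz.2.2.1 hz.2.2.2 huv.1
      have h6 := (huv.2.1 {z, u, v} h5 (by simp) (by simp)).2 trivial
      refine h4 {z, u, v} h5 ?_ ?_ h6
      · simp only [Finset.mem_insert, Finset.mem_singleton, not_or]
        exact ⟨Ne.symm hz.1, Ne.symm hcon.1, Ne.symm hv.1⟩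
      · simp only [Finset.mem_insert, Finset.mem_singleton, not_or]
        exact ⟨Ne.symm hz.2.1, Ne.symm hcon.2, Ne.symm hv.2⟩
  obtain ⟨θ, hθ1, hθ2, hθ3⟩ := hclt 3 m W τ H True (by norm_num) hcopy
  have hpair : ∀ a b, a ≠ b → θ a = θ b → (a = c ∧ b = d) ∨ (a = d ∧ b = c) := by
    intro a b hab h
    have h5 := (hθ1 a b hab h).1
    rcases hD a b h5 with rfl | rfl <;> rcases hD b a (tw_symm h5) with rfl | rfl
    · exact absurd rfl hab
    · exact Or.inl ⟨rfl, rfl⟩
    · exact Or.inr ⟨rfl, rfl⟩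
    · exact absurd rfl hab
  have hθcd : θ c = θ d := by
    unfold Function.Injective at hθ3
    push Not at hθ3
    obtain ⟨a, b, h5, h6⟩ := hθ3
    rcases hpair a b h6 h5 with ⟨rfl, rfl⟩ | ⟨rfl, rfl⟩
    · exact h5
    · exact h5.symm
  have hp : θ c ∉ first τ := (hθ1 c d hcdne hθcd).2
  rw [hfirst] at hp hθ2
  simp only [Finset.mem_insert, Finset.mem_singleton, not_or] at hp
  obtain ⟨hpc, hpd, hpx₀⟩ := hp
  set p := θ c with hpdef
  have hinj : Set.InjOn θ ((Finset.univ.erase d : Finset W) : Set W) := by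
    intro a ha b hb hab
    by_contra hne
    rw [Finset.mem_coe, Finset.mem_erase] at ha hb
    rcases hpair a b hne hab with ⟨-, rfl⟩ | ⟨rfl, -⟩
    · exact hb.1 rfl
    · exact ha.1 rfl
  have hRcard : ((Finset.univ.erase d).image θ).card = Fintype.card W - 1 := by
    rw [Finset.card_image_of_injOn hinj, Finset.card_erase_of_mem (Finset.mem_univ d), Finset.card_univ]
  obtain ⟨q, hq⟩ := exists_not_mem ((Finset.univ.erase d).image θ) (by rw [hRcard]; omega)
  have hR : (Finset.univ.erase d).image θ = Finset.univ.erase q := by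
    apply Finset.eq_of_subset_of_card_le
    · intro z hz
      rw [Finset.mem_erase]
      refine ⟨?_, Finset.mem_univ _⟩
      rintro rfl
      exact hq hz
    · rw [hRcard, Finset.card_erase_of_mem (Finset.mem_univ q), Finset.card_univ]
  have key : ∀ t : Finset W, t.card = 3 → q ∉ t → t ∈ H → t ≠ {c, d, x₀} → p ∈ t := by
    intro t ht hqt htH htne
    have htR : t ⊆ (Finset.univ.erase d).image θ := by
      rw [hR]
      intro z hz
      rw [Finset.mem_erase]
      refine ⟨?_, Finset.mem_univ _⟩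
      rintro rfl
      exact hqt hz
    obtain ⟨g, hg1, hg2⟩ := Finset.subset_image_iff.1 htR
    have hgi : Set.InjOn θ (g : Set W) := hinj.mono hg1
    have hg3 : g.card = 3 := by
      rw [← ht, ← hg2, Finset.card_image_of_injOn hgi]
    have hgH : g ∈ H := by
      rw [hθ2 g hg3 hgi, hg2, Set.mem_symmDiff, Set.mem_singleton_iff]
      exact Or.inl ⟨htH, htne⟩
    have hdg : d ∉ g := fun h => by
      have := hg1 h
      simp at this
    have hcg : c ∈ g := by
      by_contra h
      exact h4 g hg3 h hdg hgH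
    rw [← hg2]
    exact Finset.mem_image_of_mem θ hcg
  -- the case `q ∈ {c, d}`
  have hcase : ∀ q' : W, q' ≠ p → q ≠ q' → q ≠ x → q ≠ y → q ≠ x' → q ≠ y' → q ∈ ({c, d, x₀} : Finset W) →
      q' ≠ x → q' ≠ y → q' ≠ x' → q' ≠ y' →
      ({q', x, y} : Finset W) ∈ H → ({x', q', y} : Finset W) ∈ H → ({y', q', x} : Finset W) ∈ H → False := by
    intro q' h1 h2 h5 h6 h7 h8 hq9 g1 g2 g3 g4 e1 e2 e3
    have key' : ∀ t : Finset W, t.card = 3 → q ∉ t → t ∈ H → p ∈ t := by
      intro t ht hqt htH
      refine key t ht hqt htH ?_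
      rintro rfl
      exact hqt hq9
    have k1 := key' {q', x, y} (c3 g1 g2 hxy) (by simp [h2, h5, h6]) e1
    have k2 := key' {x', q', y} (c3 (Ne.symm g3) hx'y g2) (by simp [h2, h7, h6]) e2
    have k3 := key' {y', q', x} (c3 (Ne.symm g4) hy'x g1) (by simp [h2, h8, h5]) e3
    simp only [Finset.mem_insert, Finset.mem_singleton] at k1 k2 k3
    rcases k1 with k1 | k1 | k1
    · exact h1 k1.symm
    · rcases k2 with k2 | k2 | k2
      · exact hxx'.1 (k1.symm.trans k2)
      · exact h1 k2.symm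
      · exact hxy (k1.symm.trans k2)
    · rcases k3 with k3 | k3 | k3
      · exact hyy'.1 (k1.symm.trans k3)
      · exact h1 k3.symm
      · exact hxy (k3.symm.trans k1)
  by_cases hqc : q = c
  · subst hqc
    refine hcase d (Ne.symm hpd) hcdne hxc.symm hyc.symm hx'c.symm hy'c.symm (by simp) hxd.symm hyd.symm hx'd.symm
      hy'd.symm ?_ ?_ ?_
    · rw [← link hcd hxy hxc.symm hyc.symm hxd.symm hyd.symm]
      exact hE
    · rw [perm1, ← link hcd hx'y hx'c.symm hyc.symm hx'd.symm hyd.symm, perm1]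
      exact hE1
    · rw [perm1, ← link hcd hy'x hy'c.symm hxc.symm hy'd.symm hxd.symm, perm1]
      exact hE2
  · by_cases hqd : q = d
    · subst hqd
      exact hcase c (Ne.symm hpc) hcdne.symm hxd.symm hyd.symm hx'd.symm hy'd.symm (by simp) hxc.symm hyc.symm hx'c.symm
        hy'c.symm hE hE1 hE2
    · obtain ⟨z, hz⟩ := exists_not_mem ({c, d, x₀, q, p} : Finset W) (lt_of_le_of_lt Finset.card_le_five (by omega))
      simp only [Finset.mem_insert, Finset.mem_singleton, not_or] at hz
      obtain ⟨z1, z2, z3, z4, z5⟩ := hz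
      have h5 : ({c, d, z} : Finset W).card = 3 := c3 hcdne (Ne.symm z1) (Ne.symm z2)
      have h6 := (hcd.2.1 {c, d, z} h5 (by simp) (by simp)).2 trivial
      have h7 := key {c, d, z} h5 (by
        simp only [Finset.mem_insert, Finset.mem_singleton, not_or]
        exact ⟨hqc, hqd, Ne.symm z4⟩) h6 (by
        intro h8
        have h9 : z ∈ ({c, d, x₀} : Finset W) := by rw [← h8]; simp
        simp only [Finset.mem_insert, Finset.mem_singleton] at h9
        rcases h9 with h9 | h9 | h9
        · exact z1 h9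
        · exact z2 h9
        · exact z3 h9)
      simp only [Finset.mem_insert, Finset.mem_singleton] at h7
      rcases h7 with h7 | h7 | h7
      · exact hpc h7
      · exact hpd h7
      · exact z5 h7.symm

end Q222.ISatQNE
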