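import Pool.Agent.Q109.ISat.Stm

/-!
Project ISat (helper109), job TFR (helper222).
-/

set_option autoImplicit false

namespace Q222.ISatTFR

open Q109.ISat Set

theorem lift_inj {k m : ℕ} (t : Fin k ↪ TV m) (n : ℕ) (ht : ∀ i, (t i).1 ≤ n) :
    Function.Injective (lift t n : Nw k m → TV m) := by
  rintro (i | ⟨i, a⟩) (j | ⟨j, b⟩) h
  · exact congrArg Sum.inl (t.injective h)
  · exfalso
    have h1 : t i = (n + 1, j, b) := h
    have h2 := ht i
    rw [h1] at h2
    simp at h2
  · exfalso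
    have h1 : (n + 1, i, a) = t j := h
    have h2 := ht j
    rw [← h1] at h2
    simp at h2
  · have h1 : (n + 1, i, a) = (n + 1, j, b) := h
    simp only [Prod.mk.injEq, true_and] at h1
    rw [h1.1, h1.2]

theorem card_old (k m : ℕ) : (old k m).card = k := by
  rw [old, Finset.card_map, Finset.card_univ, Fintype.card_fin]

theorem mem_old {k m : ℕ} (z : Nw k m) : z ∈ old k m ↔ z.isLeft := by
  rw [old, Finset.mem_map]
  constructor
  · rintro ⟨i, -, rfl⟩
    rfl
  · intro h
    obtain ⟨i, rfl⟩ := Sum.isLeft_iff.1 h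
    exact ⟨i, Finset.mem_univ _, rfl⟩

theorem old_image {k m : ℕ} (t : Fin k ↪ TV m) (n : ℕ) :
    (old k m).image (lift t n) = Finset.univ.map t := by
  ext v
  rw [Finset.mem_image, Finset.mem_map]
  constructor
  · rintro ⟨x, hx, rfl⟩
    obtain ⟨i, -, rfl⟩ := Finset.mem_map.1 hx
    exact ⟨i, Finset.mem_univ _, rfl⟩
  · rintro ⟨i, -, rfl⟩
    exact ⟨Sum.inl i, Finset.mem_map.2 ⟨i, Finset.mem_univ _, rfl⟩, rfl⟩

theorem core {k m : ℕ} (hk : 1 ≤ k) {W : Type} [Fintype W] [DecidableEq W] {H : Set (Finset W)}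
    {s δ : Prop} {I : Set (Finset (Nw k m))} (hI : Internal k m H s δ I) {G : Set (Finset (TV m))}
    {t : Fin k ↪ TV m} {n : ℕ} (ht : ∀ i, (t i).1 ≤ n) (hs : Finset.univ.map t ∈ G ↔ s)
    (hin : ∀ g : Finset (Nw k m), g.card = k → (∃ x ∈ g, x.isRight) → (g.image (lift t n) ∈ G ↔ g ∈ I))
    (hout : ∀ f : Finset (TV m), f.card = k → (∃ v ∈ f, v.1 = n + 1) → (∀ v ∈ f, v.1 ≤ n + 1) →
      (∃ v ∈ f, v.1 ≤ n ∧ ∀ i, t i ≠ v) → (f ∈ G ↔ δ))
    (φ : W ↪ TV m) (hφ : ∀ f : Finset W, f.card = k → (f ∈ H ↔ f.map φ ∈ G))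
    (x₀ : W) (hx₀ : (φ x₀).1 = n + 1) (hmax : ∀ x, (φ x).1 ≤ n + 1) : False := by
  classical
  have hinj := lift_inj (m := m) t n ht
  let X : Finset W := Finset.univ.filter fun x => (φ x).1 ≤ n ∧ ∀ i, t i ≠ φ x
  let Y : Finset W := Finset.univ.filter fun x => (φ x).1 = n + 1
  have hX : ∀ x, x ∈ X ↔ (φ x).1 ≤ n ∧ ∀ i, t i ≠ φ x := fun x => by simp [X]
  have hY : ∀ x, x ∈ Y ↔ (φ x).1 = n + 1 := fun x => by simp [Y]
  have h1 : ∀ x, x ∉ X → ∃ z : Nw k m, lift t n z = φ x := by
    intro x hx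
    rcases Nat.lt_or_ge n (φ x).1 with h | h
    · have h2 : (φ x).1 = n + 1 := le_antisymm (hmax x) h
      exact ⟨Sum.inr ((φ x).2.1, (φ x).2.2), Prod.ext h2.symm rfl⟩
    · rw [hX] at hx
      push Not at hx
      obtain ⟨i, hi⟩ := hx h
      exact ⟨Sum.inl i, hi⟩
  let ζ : W → Nw k m := fun x => if h : x ∉ X then (h1 x h).choose else Sum.inl ⟨0, hk⟩
  have hζ : ∀ x, x ∉ X → lift t n (ζ x) = φ x := by
    intro x hx
    have : ζ x = (h1 x hx).choose := dif_pos hx
    rw [this]
    exact (h1 x hx).choose_spec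
  have hζinj : Set.InjOn ζ {x | x ∉ X} := by
    intro x hx y hy h
    apply φ.injective
    rw [← hζ x hx, ← hζ y hy, h]
  have hright : ∀ x, x ∈ Y → (ζ x).isRight := by
    intro x hx
    have hxX : x ∉ X := by
      rw [hX]
      rw [hY] at hx
      intro h
      omega
    have h2 := hζ x hxX
    rw [hY] at hx
    rcases h3 : ζ x with i | p
    · exfalso
      rw [h3] at h2
      have h4 : (t i).1 = n + 1 := by
        rw [← hx, ← h2]
        rfl
      have := ht i
      omega
    · rfl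
  have hleft : ∀ x, x ∉ X → x ∉ Y → (ζ x).isLeft := by
    intro x hx hxY
    have h2 := hζ x hx
    rcases h3 : ζ x with i | ⟨i, a⟩
    · rfl
    · exfalso
      apply hxY
      rw [hY, ← h2, h3]
      rfl
  have key : ∀ f : Finset W, f.card = k → Disjoint f X → (f ∈ H ↔ f.image ζ ∈ I) := by
    intro f hf hfX
    have hfX' : ∀ x ∈ f, x ∉ X := fun x hx => Finset.disjoint_left.1 hfX hx
    have hc : (f.image ζ).card = k := by
      rw [Finset.card_image_of_injOn, hf]
      exact hζinj.mono fun x hx => hfX' x hx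
    have he : f.map φ = (f.image ζ).image (lift t n) := by
      rw [Finset.image_image, Finset.map_eq_image]
      apply Finset.image_congr
      intro x hx
      exact (hζ x (hfX' x hx)).symm
    rw [hφ f hf, he]
    by_cases hr : ∃ x ∈ f.image ζ, x.isRight
    · exact hin _ hc hr
    · have ho : f.image ζ = old k m := by
        apply Finset.eq_of_subset_of_card_le
        · intro z hz
          rw [mem_old]
          by_contra h
          exact hr ⟨z, hz, by rwa [← Sum.not_isLeft]⟩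
        · rw [hc, card_old]
      rw [ho, old_image, hs, hI.base]
  rcases X.eq_empty_or_nonempty with hXe | hXn
  · have hinj' : Function.Injective ζ := by
      intro x y h
      exact hζinj (by simp [hXe]) (by simp [hXe]) h
    apply hI.free
    refine ⟨⟨ζ, hinj'⟩, fun f hf => ?_⟩
    rw [Finset.map_eq_image]
    exact key f hf (by rw [hXe]; exact Finset.disjoint_empty_right f)
  · refine hI.cross X Y ?_ hXn ⟨x₀, (hY x₀).2 hx₀⟩ ?_ ζ hζinj hright hleft key
    · rw [Finset.disjoint_left]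
      intro x hx hy
      rw [hX] at hx
      rw [hY] at hy
      omega
    · intro f hf hfX hfY
      rw [hφ f hf]
      apply hout _ (by rw [Finset.card_map, hf])
      · obtain ⟨x, hx⟩ := hfY
        rw [Finset.mem_inter, hY] at hx
        exact ⟨φ x, Finset.mem_map_of_mem φ hx.1, hx.2⟩
      · intro v hv
        obtain ⟨x, -, rfl⟩ := Finset.mem_map.1 hv
        exact hmax x
      · obtain ⟨x, hx⟩ := hfX
        rw [Finset.mem_inter, hX] at hx
        exact ⟨φ x, Finset.mem_map_of_mem φ hx.1, hx.2⟩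

theorem tfr : S_TFR := by
  intro k m hk _ W _ _ H ⟨f₀, hf₀, hf₀k⟩ δ₀ δ₁ I₀ I₁ hI₀ hI₁ G task hT ⟨φ, hφ⟩
  have hne : Nonempty W := by
    have : f₀.Nonempty := by
      rw [← Finset.card_pos, hf₀k]
      exact hk
    exact ⟨this.choose⟩
  obtain ⟨x₀, hx₀⟩ := Finite.exists_max (fun x => (φ x).1)
  rcases h : (φ x₀).1 with _ | n
  · apply hT.zero (f₀.map φ) (by rw [Finset.card_map, hf₀k])
    · intro v hv
      obtain ⟨x, -, rfl⟩ := Finset.mem_map.1 hv
      have := hx₀ x
      rw [h] at this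
      exact Nat.le_zero.1 this
    · exact (hφ f₀ hf₀k).1 hf₀
  · have hmax : ∀ x, (φ x).1 ≤ n + 1 := fun x => by rw [← h]; exact hx₀ x
    by_cases hs : Finset.univ.map (task n) ∈ G
    · refine core hk hI₁ (hT.low n) (by simp [hs]) ?_ ?_ φ hφ x₀ h hmax
      · intro g hg hr
        rw [hT.inner n g hg hr]
        simp [hs]
      · intro f hf h1 h2 h3
        rw [hT.outer n f hf h1 h2 h3]
        simp [hs]
    · refine core hk hI₀ (hT.low n) (by simp [hs]) ?_ ?_ φ hφ x₀ h hmax
      · intro g hg hr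
        rw [hT.inner n g hg hr]
        simp [hs]
      · intro f hf h1 h2 h3
        rw [hT.outer n f hf h1 h2 h3]
        simp [hs]

end Q222.ISatTFR
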