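import Pool.Agent.Q109.ISat.Stm

/-!
Project ISat (helper109), job TOW (helper222).
-/

set_option autoImplicit false

namespace Q222.ISatTOW

open Q109.ISat Set

theorem exists_emb {V : Type} (s : Finset V) (k : ℕ) (h : s.card = k) :
    ∃ t : Fin k ↪ V, Finset.univ.map t = s := by
  refine ⟨(s.equivFinOfCardEq h).symm.toEmbedding.trans (Function.Embedding.subtype _), ?_⟩
  rw [← Finset.map_map, Finset.map_univ_equiv]
  exact Finset.attach_map_val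

theorem lift_inj {k m : ℕ} (t : Fin k ↪ TV m) (n : ℕ) (ht : ∀ i, (t i).1 ≤ n) :
    Function.Injective (lift t n : Nw k m → TV m) := by
  rintro (i | ⟨i, a⟩) (j | ⟨j, b⟩) h
  · exact congrArg Sum.inl (t.injective h)
  · exfalso
    have h1 : t i = (n + 1, j, b) := h
    have h2 := ht i
    rw [h1] at h2
    simp at h2
  · exfalso
    have h1 : (n + 1, i, a) = t j := h
    have h2 := ht j
    rw [← h1] at h2
    simp at h2
  · have h1 : (n + 1, i, a) = (n + 1, j, b) := h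
    simp only [Prod.mk.injEq, true_and] at h1
    rw [h1.1, h1.2]

section

variable {k m : ℕ} (δ₀ δ₁ : Prop) (I₀ I₁ : Set (Finset (Nw k m))) (task : ℕ → Fin k ↪ TV m)

open Classical in
/-- the stages -/
noncomputable def St : ℕ → Finset (TV m) → Prop
  | 0, _ => False
  | n + 1, f =>
    if ∀ v ∈ f, v.1 ≠ n + 1 then St n f
    else if ∃ g : Finset (Nw k m), g.image (lift (task n) n) = f then
      (St n (Finset.univ.map (task n)) ∧ ∃ g : Finset (Nw k m), g.image (lift (task n) n) = f ∧ g ∈ I₁) ∨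
      (¬ St n (Finset.univ.map (task n)) ∧ ∃ g : Finset (Nw k m), g.image (lift (task n) n) = f ∧ g ∈ I₀)
    else (St n (Finset.univ.map (task n)) ∧ δ₁) ∨ (¬ St n (Finset.univ.map (task n)) ∧ δ₀)

theorem St_stable (f : Finset (TV m)) (N n : ℕ) (h : ∀ v ∈ f, v.1 ≤ N) (hn : N ≤ n) :
    St δ₀ δ₁ I₀ I₁ task n f ↔ St δ₀ δ₁ I₀ I₁ task N f := by
  induction n, hn using Nat.le_induction with
  | base => exact Iff.rfl
  | succ n hn ih =>
    rw [← ih, St, if_pos]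
    intro v hv h1
    have := h v hv
    omega

/-- the tower -/
def GG : Set (Finset (TV m)) := {f | St δ₀ δ₁ I₀ I₁ task (f.sup fun v => v.1) f}

theorem mem_GG (f : Finset (TV m)) (n : ℕ) (h : ∀ v ∈ f, v.1 ≤ n) :
    f ∈ GG δ₀ δ₁ I₀ I₁ task ↔ St δ₀ δ₁ I₀ I₁ task n f := by
  show St δ₀ δ₁ I₀ I₁ task (f.sup fun v => v.1) f ↔ _
  rw [St_stable δ₀ δ₁ I₀ I₁ task f (f.sup fun v => v.1) n]
  · intro v hv
    exact Finset.le_sup (f := fun v : TV m => v.1) hv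
  · exact Finset.sup_le h

theorem mem_map_task (low : ∀ n i, (task n i).1 ≤ n) (n : ℕ) :
    ∀ v ∈ Finset.univ.map (task n), v.1 ≤ n := by
  intro v hv
  obtain ⟨i, -, rfl⟩ := Finset.mem_map.1 hv
  exact low n i

theorem GG_inner (low : ∀ n i, (task n i).1 ≤ n) (n : ℕ) (g : Finset (Nw k m))
    (hg : ∃ x ∈ g, x.isRight) :
    (g.image (lift (task n) n) ∈ GG δ₀ δ₁ I₀ I₁ task ↔
      ((Finset.univ.map (task n) ∈ GG δ₀ δ₁ I₀ I₁ task ∧ g ∈ I₁) ∨
        (Finset.univ.map (task n) ∉ GG δ₀ δ₁ I₀ I₁ task ∧ g ∈ I₀))) := by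
  have hinj := Finset.image_injective (lift_inj (task n) n (low n))
  have h1 : ∀ v ∈ g.image (lift (task n) n), v.1 ≤ n + 1 := by
    intro v hv
    obtain ⟨x, -, rfl⟩ := Finset.mem_image.1 hv
    rcases x with i | ⟨i, a⟩
    · exact (low n i).trans (Nat.le_succ n)
    · exact le_rfl
  have h2 : ¬ ∀ v ∈ g.image (lift (task n) n), v.1 ≠ n + 1 := by
    intro h
    obtain ⟨x, hx, hr⟩ := hg
    rcases x with i | ⟨i, a⟩
    · simp at hr
    · exact h _ (Finset.mem_image_of_mem _ hx) rfl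
  have h3 : ∀ J : Set (Finset (Nw k m)), (∃ g' : Finset (Nw k m), g'.image (lift (task n) n) = g.image (lift (task n) n) ∧ g' ∈ J) ↔ g ∈ J := by
    intro J
    constructor
    · rintro ⟨g', h, h'⟩
      rw [← hinj h]
      exact h'
    · intro h
      exact ⟨g, rfl, h⟩
  rw [mem_GG δ₀ δ₁ I₀ I₁ task _ (n + 1) h1, mem_GG δ₀ δ₁ I₀ I₁ task _ n (mem_map_task task low n), St,
    if_neg h2, if_pos ⟨g, rfl⟩, h3, h3]

theorem GG_outer (low : ∀ n i, (task n i).1 ≤ n) (n : ℕ) (f : Finset (TV m))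
    (h0 : ∃ v ∈ f, v.1 = n + 1) (h1 : ∀ v ∈ f, v.1 ≤ n + 1) (h2 : ∃ v ∈ f, v.1 ≤ n ∧ ∀ i, task n i ≠ v) :
    (f ∈ GG δ₀ δ₁ I₀ I₁ task ↔
      ((Finset.univ.map (task n) ∈ GG δ₀ δ₁ I₀ I₁ task ∧ δ₁) ∨
        (Finset.univ.map (task n) ∉ GG δ₀ δ₁ I₀ I₁ task ∧ δ₀))) := by
  have h3 : ¬ ∀ v ∈ f, v.1 ≠ n + 1 := by
    intro h
    obtain ⟨v, hv, hv'⟩ := h0
    exact h v hv hv'
  have h4 : ¬ ∃ g : Finset (Nw k m), g.image (lift (task n) n) = f := by
    rintro ⟨g, rfl⟩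
    obtain ⟨v, hv, hv1, hv2⟩ := h2
    obtain ⟨x, -, rfl⟩ := Finset.mem_image.1 hv
    rcases x with i | ⟨i, a⟩
    · exact hv2 i rfl
    · have h5 : n + 1 ≤ n := hv1
      omega
  rw [mem_GG δ₀ δ₁ I₀ I₁ task _ (n + 1) h1, mem_GG δ₀ δ₁ I₀ I₁ task _ n (mem_map_task task low n), St,
    if_neg h3, if_neg h4]

theorem GG_zero (f : Finset (TV m)) (h : ∀ v ∈ f, v.1 = 0) : f ∉ GG δ₀ δ₁ I₀ I₁ task := by
  rw [mem_GG δ₀ δ₁ I₀ I₁ task f 0 (fun v hv => (h v hv).le), St]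
  exact fun h => h

end

theorem exists_task (k m : ℕ) (hm : 1 ≤ m) : ∃ task : ℕ → Fin k ↪ TV m, (∀ n i, (task n i).1 ≤ n) ∧
    ∀ e : Finset (TV m), e.card = k → ∃ n, Finset.univ.map (task n) = e := by
  obtain ⟨g, hg⟩ := exists_surjective_nat (Finset (TV m))
  have h : ∀ n : ℕ, ∃ t : Fin k ↪ TV m, (∀ i, (t i).1 ≤ n) ∧
      ((g n.unpair.1).card = k → (∀ v ∈ g n.unpair.1, v.1 ≤ n) → Finset.univ.map t = g n.unpair.1) := by
    intro n
    by_cases h1 : (g n.unpair.1).card = k ∧ ∀ v ∈ g n.unpair.1, v.1 ≤ n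
    · obtain ⟨t, ht⟩ := exists_emb _ k h1.1
      refine ⟨t, fun i => ?_, fun _ _ => ht⟩
      apply h1.2
      rw [← ht]
      exact Finset.mem_map_of_mem t (Finset.mem_univ i)
    · refine ⟨⟨fun i => (0, ⟨0, hm⟩, i.1), fun i j h => ?_⟩, fun i => Nat.zero_le _, fun h2 h3 => absurd ⟨h2, h3⟩ h1⟩
      simp only [Prod.mk.injEq, true_and] at h
      exact Fin.ext h
  choose task h1 h2 using h
  refine ⟨task, h1, fun e he => ?_⟩
  obtain ⟨a, rfl⟩ := hg e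
  refine ⟨Nat.pair a ((g a).sup fun v => v.1), ?_⟩
  have h3 := h2 (Nat.pair a ((g a).sup fun v => v.1))
  rw [Nat.unpair_pair] at h3
  apply h3 he
  intro v hv
  exact (Finset.le_sup (f := fun v : TV m => v.1) hv).trans (Nat.right_le_pair _ _)

theorem tow : S_TOW := by
  intro k m _ hm δ₀ δ₁ I₀ I₁
  obtain ⟨task, low, all⟩ := exists_task k m hm
  exact ⟨GG δ₀ δ₁ I₀ I₁ task, task, ⟨low, all, fun f _ h => GG_zero δ₀ δ₁ I₀ I₁ task f h,
    fun n g _ hg => GG_inner δ₀ δ₁ I₀ I₁ task low n g hg,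
    fun n f _ h0 h1 h2 => GG_outer δ₀ δ₁ I₀ I₁ task low n f h0 h1 h2⟩⟩

end Q222.ISatTOW
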