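import Pool.Agent.Q109.ISat.Stm

/-!
Project ISat (helper109), job TSA (helper222).
-/

set_option autoImplicit false

namespace Q222.ISatTSA

open Q109.ISat Set

theorem lift_inj {k m : ℕ} (t : Fin k ↪ TV m) (n : ℕ) (ht : ∀ i, (t i).1 ≤ n) :
    Function.Injective (lift t n : Nw k m → TV m) := by
  rintro (i | ⟨i, a⟩) (j | ⟨j, b⟩) h
  · exact congrArg Sum.inl (t.injective h)
  · exfalso
    have h1 : t i = (n + 1, j, b) := h
    have h2 := ht i
    rw [h1] at h2
    simp at h2
  · exfalso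
    have h1 : (n + 1, i, a) = t j := h
    have h2 := ht j
    rw [← h1] at h2
    simp at h2
  · have h1 : (n + 1, i, a) = (n + 1, j, b) := h
    simp only [Prod.mk.injEq, true_and] at h1
    rw [h1.1, h1.2]

theorem card_old (k m : ℕ) : (old k m).card = k := by
  rw [old, Finset.card_map, Finset.card_univ, Fintype.card_fin]

theorem mem_old {k m : ℕ} (z : Nw k m) : z ∈ old k m ↔ z.isLeft := by
  rw [old, Finset.mem_map]
  constructor
  · rintro ⟨i, -, rfl⟩
    rfl
  · intro h
    obtain ⟨i, rfl⟩ := Sum.isLeft_iff.1 h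
    exact ⟨i, Finset.mem_univ _, rfl⟩

theorem old_image {k m : ℕ} (t : Fin k ↪ TV m) (n : ℕ) :
    (old k m).image (lift t n) = Finset.univ.map t := by
  ext v
  rw [Finset.mem_image, Finset.mem_map]
  constructor
  · rintro ⟨x, hx, rfl⟩
    obtain ⟨i, -, rfl⟩ := Finset.mem_map.1 hx
    exact ⟨i, Finset.mem_univ _, rfl⟩
  · rintro ⟨i, -, rfl⟩
    exact ⟨Sum.inl i, Finset.mem_map.2 ⟨i, Finset.mem_univ _, rfl⟩, rfl⟩

/-- the first new vertices -/
def nw {m : ℕ} (n : ℕ) (w : Fin m → ℕ) (j : ℕ) : Finset (TV m) :=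
  (Finset.univ.filter fun i : Fin m => i.1 < j).image fun i => (n + 1, i, w i)

theorem mem_nw {m : ℕ} (n : ℕ) (w : Fin m → ℕ) (j : ℕ) (v : TV m) :
    v ∈ nw n w j ↔ ∃ i : Fin m, i.1 < j ∧ (n + 1, i, w i) = v := by
  simp [nw]

theorem exists_w {k m : ℕ} (hk : 2 ≤ k) (n : ℕ) (T : Finset (TV m)) (hT : T.card = k)
    (P : Set (Finset (TV m))) (hPk : ∀ e ∈ P, e.card = k) (hfin : ∀ v, {e | e ∈ P ∧ v ∈ e}.Finite)
    (j : ℕ) (hj : j ≤ m) : ∃ w : Fin m → ℕ, ∀ f ∈ P, f ≠ T → ¬ f ⊆ T ∪ nw n w j := by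
  induction j with
  | zero =>
    refine ⟨fun _ => 0, fun f hf hne hsub => hne ?_⟩
    have h1 : nw n (fun _ : Fin m => 0) 0 = ∅ := by simp [nw]
    rw [h1, Finset.union_empty] at hsub
    exact Finset.eq_of_subset_of_card_le hsub (by rw [hT, hPk f hf])
  | succ j ih =>
    obtain ⟨w, hw⟩ := ih (by omega)
    have hB : (⋃ v ∈ T ∪ nw n w j, {e | e ∈ P ∧ v ∈ e}).Finite :=
      (T ∪ nw n w j).finite_toSet.biUnion fun v _ => hfin v
    have hB2 : (⋃ e ∈ (⋃ v ∈ T ∪ nw n w j, {e | e ∈ P ∧ v ∈ e}), (e : Set (TV m))).Finite :=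
      hB.biUnion fun e _ => e.finite_toSet
    have hinj : Function.Injective fun a : ℕ => ((n + 1, ⟨j, by omega⟩, a) : TV m) := by
      intro a b h
      simpa using h
    obtain ⟨a, ha⟩ := (hB2.preimage hinj.injOn).exists_notMem
    refine ⟨Function.update w ⟨j, by omega⟩ a, fun f hf hne hsub => ?_⟩
    have hnw : nw n (Function.update w ⟨j, by omega⟩ a) (j + 1) =
        insert ((n + 1, ⟨j, by omega⟩, a) : TV m) (nw n w j) := by
      ext v
      rw [Finset.mem_insert, mem_nw, mem_nw]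
      constructor
      · rintro ⟨i, hi, rfl⟩
        rcases Nat.lt_succ_iff_lt_or_eq.1 hi with h | h
        · right
          refine ⟨i, h, ?_⟩
          rw [Function.update_of_ne]
          intro h2
          rw [h2] at h
          simp at h
        · left
          have h2 : i = ⟨j, by omega⟩ := Fin.ext h
          rw [h2, Function.update_self]
      · rintro (rfl | ⟨i, hi, rfl⟩)
        · exact ⟨⟨j, by omega⟩, Nat.lt_succ_self j, by rw [Function.update_self]⟩
        · refine ⟨i, by omega, ?_⟩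
          rw [Function.update_of_ne]
          intro h2
          rw [h2] at hi
          simp at hi
    rw [hnw] at hsub
    have h1 : ((n + 1, ⟨j, by omega⟩, a) : TV m) ∈ f := by
      by_contra h
      apply hw f hf hne
      intro v hv
      have h2 := hsub hv
      rw [Finset.mem_union, Finset.mem_insert] at h2
      rw [Finset.mem_union]
      rcases h2 with h2 | h2 | h2
      · exact Or.inl h2
      · exact absurd (h2 ▸ hv) h
      · exact Or.inr h2
    obtain ⟨v, hv, hvne⟩ := Finset.exists_mem_ne (by rw [hPk f hf]; omega) ((n + 1, ⟨j, by omega⟩, a) : TV m)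
    apply ha
    rw [Set.mem_preimage, Set.mem_iUnion₂]
    refine ⟨f, ?_, h1⟩
    rw [Set.mem_iUnion₂]
    refine ⟨v, ?_, hf, hv⟩
    have h2 := hsub hv
    rw [Finset.mem_union, Finset.mem_insert] at h2
    rw [Finset.mem_union]
    rcases h2 with h2 | h2 | h2
    · exact Or.inl h2
    · exact absurd h2 hvne
    · exact Or.inr h2

theorem core {k m : ℕ} {W : Type} [Fintype W] [DecidableEq W] {H : Set (Finset W)}
    {s δ : Prop} {I : Set (Finset (Nw k m))} (hI : Internal k m H s δ I) {G : Set (Finset (TV m))}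
    {t : Fin k ↪ TV m} {n : ℕ} (ht : ∀ i, (t i).1 ≤ n) (hs : Finset.univ.map t ∈ G ↔ s)
    (hin : ∀ g : Finset (Nw k m), g.card = k → (∃ x ∈ g, x.isRight) → (g.image (lift t n) ∈ G ↔ g ∈ I))
    (w : Fin m → ℕ) {P : Set (Finset (TV m))} (hP : Finset.univ.map t ∈ P)
    (hw : ∀ f ∈ P, f ≠ Finset.univ.map t → ¬ f ⊆ Finset.univ.map t ∪ nw n w m) :
    IndCopy k H (symmDiff G P) := by
  obtain ⟨ψ, h1, h2⟩ := hI.flip w
  have hinj := lift_inj (m := m) t n ht
  refine ⟨ψ.trans ⟨lift t n, hinj⟩, fun f hf => ?_⟩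
  rw [h2 f hf, ← Finset.map_map]
  have he : (f.map ψ).map ⟨lift t n, hinj⟩ = (f.map ψ).image (lift t n) := Finset.map_eq_image _ _
  rw [he, Set.mem_symmDiff, Set.mem_symmDiff, Set.mem_singleton_iff]
  by_cases ho : f.map ψ = old k m
  · rw [ho, old_image, hs, hI.base]
    tauto
  · have hr : ∃ x ∈ f.map ψ, x.isRight := by
      by_contra hr
      apply ho
      apply Finset.eq_of_subset_of_card_le
      · intro z hz
        rw [mem_old]
        by_contra h
        exact hr ⟨z, hz, by rwa [← Sum.not_isLeft]⟩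
      · rw [Finset.card_map, hf, card_old]
    rw [hin (f.map ψ) (by rw [Finset.card_map, hf]) hr]
    have hnP : (f.map ψ).image (lift t n) ∉ P := by
      intro h
      refine hw _ h ?_ ?_
      · intro h3
        obtain ⟨z, hz, hzr⟩ := hr
        have h4 := Finset.mem_image_of_mem (lift t n) hz
        rw [h3] at h4
        obtain ⟨i, -, hi⟩ := Finset.mem_map.1 h4
        rcases z with j | ⟨j, a⟩
        · simp at hzr
        · have h5 : (t i).1 = n + 1 := by
            rw [hi]
            rfl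
          have := ht i
          omega
      · intro v hv
        obtain ⟨z, hz, rfl⟩ := Finset.mem_image.1 hv
        obtain ⟨x, -, hx⟩ := Finset.mem_map.1 hz
        rw [Finset.mem_union]
        rcases z with i | ⟨i, a⟩
        · exact Or.inl (Finset.mem_map_of_mem t (Finset.mem_univ i))
        · right
          rw [mem_nw]
          refine ⟨i, i.2, ?_⟩
          rw [← h1 x i a hx]
          rfl
    tauto

theorem tsa : S_TSA := by
  intro k m hk _ W _ _ H δ₀ δ₁ I₀ I₁ hI₀ hI₁ G task hT P hP hPk hfin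
  obtain ⟨T, hTP⟩ := hP
  obtain ⟨n, rfl⟩ := hT.all T (hPk T hTP)
  obtain ⟨w, hw⟩ := exists_w hk n (Finset.univ.map (task n)) (hPk _ hTP) P hPk hfin m le_rfl
  by_cases hs : Finset.univ.map (task n) ∈ G
  · refine core hI₁ (hT.low n) (by simp [hs]) ?_ w hTP hw
    intro g hg hr
    rw [hT.inner n g hg hr]
    simp [hs]
  · refine core hI₀ (hT.low n) (by simp [hs]) ?_ w hTP hw
    intro g hg hr
    rw [hT.inner n g hg hr]
    simp [hs]

end Q222.ISatTSA
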