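import Mathlib
import Pool.Agent.Q127.KI.Stm

/-!
# Project KI (helper127), job NEM: the subshift `Sub` is not empty
-/

set_option autoImplicit false

namespace Pool.Agent.Q127.KI

open MeasureTheory Filter Topology

lemma nem_Sk_nonempty (k : ℕ) : (Sk k).Nonempty := by
  have hN : 0 < N k := N_pos k
  have hL : 0 < L k := L_pos k
  let s : Fin (N k) := ⟨0, hN⟩
  refine ⟨fun z => ex k s (z % (L k : ℤ)).toNat, 0, fun j => ⟨s, ?_⟩⟩
  intro i hi
  have h1 : (0 + j * (L k : ℤ) + (i : ℤ)) % (L k : ℤ) = (i : ℤ) := by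
    have h2 : (0 + j * (L k : ℤ) + (i : ℤ)) = (i : ℤ) + (L k : ℤ) * j := by ring
    rw [h2, Int.add_mul_emod_self_left]
    exact Int.emod_eq_of_lt (by positivity) (by exact_mod_cast hi)
  show ex k s ((0 + j * (L k : ℤ) + (i : ℤ)) % (L k : ℤ)).toNat = ex k s i
  rw [h1]
  simp

/-- NEM. The subshift is not empty. -/
theorem nem (h1 : S_dec) (h2 : S_cls) : S_nem := by
  have hc : IsCompact (Sk 0) := (h2 0).isCompact
  exact IsCompact.nonempty_iInter_of_sequence_nonempty_isCompact_isClosed Sk h1 nem_Sk_nonempty hc h2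

end Pool.Agent.Q127.KI
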