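import Mathlib
import Pool.Agent.Q16.SQ.Stm3

/-! Project SQ, job GLUE: union of two dissected sets -/

set_option autoImplicit false

open Pool.Agent.Helper549.Tri

namespace Pool.Agent.Q222.SQ_GLUE

open Q16.SQ

/-- **GLUE** -/
theorem t_GLUE : S_GLUE := by
  rintro a b c R1 R2 ⟨n1, P1, a1, s1, u1, d1⟩ ⟨n2, P2, a2, s2, u2, d2⟩ hd
  have sub1 : ∀ i, TriSet (P1 i) ⊆ R1 := fun i => u1 ▸ Set.subset_iUnion (fun i => TriSet (P1 i)) i
  have sub2 : ∀ i, TriSet (P2 i) ⊆ R2 := fun i => u2 ▸ Set.subset_iUnion (fun i => TriSet (P2 i)) i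
  refine ⟨n1 + n2, Fin.append P1 P2, ?_, ?_, ?_, ?_⟩
  · intro i
    refine Fin.addCases (fun i => ?_) (fun i => ?_) i
    · rw [Fin.append_left]
      exact a1 i
    · rw [Fin.append_right]
      exact a2 i
  · intro i
    refine Fin.addCases (fun i => ?_) (fun i => ?_) i
    · rw [Fin.append_left]
      exact s1 i
    · rw [Fin.append_right]
      exact s2 i
  · ext p
    simp only [Set.mem_iUnion, Set.mem_union]
    constructor
    · rintro ⟨i, hi⟩
      revert hi
      refine Fin.addCases (fun i => ?_) (fun i => ?_) i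
      · rw [Fin.append_left]
        exact fun h => Or.inl (sub1 i h)
      · rw [Fin.append_right]
        exact fun h => Or.inr (sub2 i h)
    · rintro (h | h)
      · rw [← u1, Set.mem_iUnion] at h
        obtain ⟨i, hi⟩ := h
        exact ⟨Fin.castAdd n2 i, by rw [Fin.append_left]; exact hi⟩
      · rw [← u2, Set.mem_iUnion] at h
        obtain ⟨i, hi⟩ := h
        exact ⟨Fin.natAdd n1 i, by rw [Fin.append_right]; exact hi⟩
  · intro i j
    refine Fin.addCases (fun i => ?_) (fun i => ?_) i <;>
      refine Fin.addCases (fun j => ?_) (fun j => ?_) j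
    · rw [Fin.append_left, Fin.append_left]
      exact fun h => d1 i j (fun e => h (by rw [e]))
    · rw [Fin.append_left, Fin.append_right]
      exact fun _ => hd.mono (interior_mono (sub1 i)) (interior_mono (sub2 j))
    · rw [Fin.append_right, Fin.append_left]
      exact fun _ => (hd.mono (interior_mono (sub1 j)) (interior_mono (sub2 i))).symm
    · rw [Fin.append_right, Fin.append_right]
      exact fun h => d2 i j (fun e => h (by rw [e]))

end Pool.Agent.Q222.SQ_GLUE
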