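import Mathlib
import Pool.Agent.Q16.SQ.Stm5

set_option autoImplicit false

/-!
# Common denominator of three rational multiples of pi with sum pi
-/

namespace Q222.SQ

/-- a positive rational number times a multiple of its denominator is a natural number -/
lemma exists_nat (q : ℚ) (hq : 0 < q) (n : ℕ) (hn : q.den ∣ n) : ∃ a : ℕ, (a : ℚ) = q * n := by
  obtain ⟨m, rfl⟩ := hn
  refine ⟨q.num.toNat * m, ?_⟩
  have h1 : (0 : ℤ) ≤ q.num := (Rat.num_pos.mpr hq).le
  have h2 : ((q.num.toNat : ℕ) : ℚ) = (q.num : ℚ) := by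
    have h3 : ((q.num.toNat : ℤ)) = q.num := Int.toNat_of_nonneg h1
    exact_mod_cast congrArg (fun z : ℤ => (z : ℚ)) h3
  have h4 : q * (q.den : ℚ) = q.num := Rat.mul_den_eq_num q
  push_cast
  rw [h2, ← mul_assoc, h4]

theorem t_RATN : Q16.SQ.S_RATN := by
  intro θ hpos hsum hrat
  choose q hq using hrat
  have hpi := Real.pi_pos
  have hqpos : ∀ k, 0 < q k := by
    intro k
    have h := hpos k
    rw [hq k] at h
    have h1 : (0 : ℝ) < (q k : ℝ) := pos_of_mul_pos_left h hpi.le
    exact_mod_cast h1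
  set n : ℕ := (q 0).den * (q 1).den * (q 2).den with hn
  have hn0 : 0 < n := by
    rw [hn]
    exact Nat.mul_pos (Nat.mul_pos (q 0).den_pos (q 1).den_pos) (q 2).den_pos
  have hdvd : ∀ k, (q k).den ∣ n := by
    intro k
    fin_cases k
    · exact Dvd.dvd.mul_right (Dvd.intro _ rfl) _
    · exact Dvd.dvd.mul_right (Dvd.intro_left _ rfl) _
    · exact Dvd.intro_left _ rfl
  choose a ha using fun k => exists_nat (q k) (hqpos k) n (hdvd k)
  have hnQ : (0 : ℚ) < n := by exact_mod_cast hn0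
  refine ⟨n, a, hn0, ?_, ?_, ?_⟩
  · intro k
    have h : (0 : ℚ) < (a k : ℚ) := by
      rw [ha k]
      exact mul_pos (hqpos k) hnQ
    exact_mod_cast h
  · have h1 : ((q 0 + q 1 + q 2 : ℚ) : ℝ) = 1 := by
      rw [hq 0, hq 1, hq 2] at hsum
      have h2 : ((q 0 : ℝ) + q 1 + q 2) * Real.pi = 1 * Real.pi := by
        rw [one_mul]
        linarith
      have h3 := mul_right_cancel₀ hpi.ne' h2
      push_cast
      exact h3
    have h4 : q 0 + q 1 + q 2 = 1 := by exact_mod_cast h1
    have h5 : ((a 0 + a 1 + a 2 : ℕ) : ℚ) = (n : ℚ) := by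
      push_cast
      rw [ha 0, ha 1, ha 2, ← add_mul, ← add_mul, h4, one_mul]
    exact_mod_cast h5
  · intro k
    have h1 : ((a k : ℕ) : ℝ) = (q k : ℝ) * (n : ℝ) := by
      have h := congrArg (fun z : ℚ => (z : ℝ)) (ha k)
      push_cast at h
      exact h
    have h2 : (n : ℝ) ≠ 0 := by exact_mod_cast hn0.ne'
    rw [hq k, h1]
    field_simp

end Q222.SQ
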