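import Mathlib
import Pool.Agent.Q2.CS2.Stm

/-! Project CAS, job 3 -/

namespace Q222.CS2_3

open Q2.CS2

theorem fs {X : Type} (s : Set X) (hs : s.Finite) (a : ℝ) (f : X → ℝ)
    (h1 : ∀ x ∈ s, f x = a) (h2 : ∀ x, x ∉ s → f x = 0) :
    ∑ᶠ x, f x = (s.ncard : ℝ) * a := by
  rw [finsum_eq_sum_of_support_subset (s := hs.toFinset) f (by
    intro x hx
    by_contra hc
    exact hx (h2 x (by simpa using hc)))]
  rw [Finset.sum_congr rfl (fun x hx => h1 x (by simpa using hx)), Finset.sum_const,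
    Set.ncard_eq_toFinset_card s hs, nsmul_eq_mul]

theorem j3 (h1 : S_1) (h2 : S_2) : S_3 := by
  intro X D _ π hπ
  obtain ⟨a1, a2, a3, a4⟩ := h1 X D π hπ
  obtain ⟨b1, b2, b3, b4⟩ := h2 X D π hπ
  have hK1 : ∀ x h y, π x y = h → K π x h y = (n π h)⁻¹ := by
    intro x h y hy
    simp [K, Set.indicator, hy]
  have hK0 : ∀ x h y, π x y ≠ h → K π x h y = 0 := by
    intro x h y hy
    simp [K, Set.indicator, hy]
  refine ⟨?_, ?_, ?_, ?_, ?_, ?_, ?_⟩
  · intro x h y
    by_cases hy : π x y = h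
    · rw [hK1 x h y hy]
      exact inv_nonneg.mpr (a2 h).le
    · rw [hK0 x h y hy]
  · intro x h
    refine (hπ.2.2.2 x h).subset ?_
    intro y hy
    by_contra hc
    exact hy (hK0 x h y hc)
  · intro x h
    rw [fs {y | π x y = h} (hπ.2.2.2 x h) (n π h)⁻¹ _ (fun y hy => hK1 x h y hy)
      (fun y hy => hK0 x h y hy), a1 x h]
    exact mul_inv_cancel₀ (a2 h).ne'
  · intro x h y
    constructor
    · intro hn
      by_contra hc
      exact hn (hK0 x h y hc)
    · intro hy
      rw [hK1 x h y hy]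
      exact inv_ne_zero (a2 h).ne'
  · intro h₁ h₂ x y
    rw [fs {v | π x v = h₁ ∧ π v y = h₂} (b4 x y h₁ h₂) ((n π h₁)⁻¹ * (n π h₂)⁻¹) _ ?_ ?_]
    · show tr π x y h₁ h₂ * _ = _
      ring
    · intro v hv
      rw [hK1 x h₁ v hv.1, hK1 v h₂ y hv.2]
    · intro v hv
      by_cases hv1 : π x v = h₁
      · have hv2 : π v y ≠ h₂ := fun hv2 => hv ⟨hv1, hv2⟩
        rw [hK0 v h₂ y hv2, mul_zero]
      · rw [hK0 x h₁ v hv1, zero_mul]
  · intro h₁ h₂ x y
    rw [finsum_eq_single _ (π x y) (fun h hh => by rw [hK0 x h y (Ne.symm hh), mul_zero]),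
      hK1 x _ y rfl, b1 x y h₁ h₂]
    have h0 := (a2 (π x y)).ne'
    simp only [c]
    field_simp
  · intro x y
    have hn : n π (π default default) = 1 := by
      have he : {y | π default y = π default default} = {default} := by
        ext y
        simp only [Set.mem_ofPred_eq, Set.mem_singleton_iff]
        exact ⟨fun hy => (a4 _ _ hy).symm, fun hy => by rw [hy]⟩
      simp only [n, he, Set.ncard_singleton, Nat.cast_one]
    by_cases hy : y = x
    · rw [hy, hK1 x _ x (hπ.2.1 x default), hn]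
      simp
    · rw [hK0 x _ y (fun hc => hy (a4 x y (hc.trans (hπ.2.1 default x))).symm)]
      simp [hy]

end Q222.CS2_3
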