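import Mathlib
import Pool.Agent.Q2.PM.Stm

/-! Project PM (helper2), job B4. -/

set_option autoImplicit false

namespace Q222.PM_B4

open Q2.PM
open Q2.TN (IsPNil IsSyl IsChief Nm)

theorem b4 (h3 : S_B3) : S_B4 := by
  intro G _ _ T P hT hT2 hne hP
  obtain ⟨n, hn⟩ := IsPGroup.iff_card.1 hT2
  cases n with
  | zero =>
    exact absurd (Subgroup.card_eq_one.1 (by simpa using hn)) hne
  | succ n =>
    obtain ⟨H, h1, h2, h4⟩ := h3 n G T P hT hT2 hP (by
      rw [hn]
      exact Nat.pow_le_pow_right (by norm_num) (Nat.le_succ n))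
    exact ⟨H, h1, by rw [hn, h2, pow_succ]; ring, h4⟩

end Q222.PM_B4
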