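import Mathlib
import Pool.Agent.Q2.PM.Stm

/-! Project PM (helper2), job B5. -/

set_option autoImplicit false

namespace Q222.PM_B5

open Q2.PM
open Q2.TN (IsPNil IsSyl IsChief Nm)

theorem b5 : S_B5 := by
  intro k G _ _ A C hAC hC hA hk
  haveI : Fact (Nat.Prime 2) := ⟨Nat.prime_two⟩
  obtain ⟨n, hn⟩ := IsPGroup.iff_card.1 hC
  obtain ⟨m, hm⟩ := IsPGroup.iff_card.1 (hC.to_le hAC)
  have hkn : k ≤ n := (Nat.pow_le_pow_iff_right (by norm_num)).1 (hn ▸ hk)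
  have hmk : m ≤ k := (Nat.pow_le_pow_iff_right (by norm_num)).1 (hm ▸ hA)
  have hc : Nat.card (A.subgroupOf C) = 2 ^ m := by
    rw [← hm]
    exact Nat.card_congr (Subgroup.subgroupOfEquivOfLe hAC).toEquiv
  obtain ⟨K, hK1, hK2⟩ := Sylow.exists_subgroup_card_pow_prime_le (p := 2) (n := m) (m := k)
    (by rw [hn]; exact pow_dvd_pow 2 hkn) (A.subgroupOf C) hc hmk
  refine ⟨K.map C.subtype, ?_, ?_, ?_⟩
  · intro a ha
    exact ⟨⟨a, hAC ha⟩, hK2 (Subgroup.mem_subgroupOf.2 ha), rfl⟩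
  · rintro _ ⟨x, -, rfl⟩
    exact x.2
  · rw [← hK1]
    exact (Nat.card_congr (K.equivMapOfInjective C.subtype C.subtype_injective).toEquiv).symm

end Q222.PM_B5
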