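import Mathlib
import Pool.Agent.Q2.PM.Stm

/-! Project PM (helper2), job C1. -/

set_option autoImplicit false

namespace Q222.PM_C1

open Q2.PM
open Q2.TN (IsPNil IsSyl IsChief Nm)

theorem c1 : S_C1 := by
  intro k G _ _ P T T₁ H hE hT h1 h2 h3 h4 h5 h6
  have hn : Nm T₁ = ⊤ := hE.gen H T (Nm T₁) h4 h5 hT.1 hT.2.2.1 h3 (by rw [h6])
  have hN : T₁.Normal := Subgroup.normalizer_eq_top_iff.1 hn
  rcases hT.2.2.2 T₁ hN h1 with h | h
  · rw [h2, h, Subgroup.card_bot]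
  · rw [h] at h2
    have : 0 < Nat.card T := Nat.card_pos
    omega

end Q222.PM_C1
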