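import Pool.Agent.Q82.BC.Stm

/-! Project BC, job GD2 -/

set_option autoImplicit false

open MeasureTheory Filter Topology Set
open Pool.Agent.Q82.BB (chi mu lam IsSh cv Nl Good UU Tower)

namespace Pool.Agent.Q82.BC

private theorem gd2_aux {a ξ : ℝ} (ha : 0 < a) :
    1 + |ξ| ≤ (1 + 32 / a) * Real.exp (a * |ξ| / 32) := by
  have h2 : 1 + a * |ξ| / 32 ≤ Real.exp (a * |ξ| / 32) := by
    linarith [Real.add_one_le_exp (a * |ξ| / 32)]
  calc 1 + |ξ| ≤ (1 + 32 / a) * (1 + a * |ξ| / 32) := by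
        have h3 : 32 / a * (a * |ξ| / 32) = |ξ| := by field_simp
        have h4 : (1 + 32 / a) * (1 + a * |ξ| / 32) =
            1 + 32 / a + a * |ξ| / 32 + 32 / a * (a * |ξ| / 32) := by ring
        rw [h4, h3]
        have : 0 ≤ 32 / a := by positivity
        have : 0 ≤ a * |ξ| / 32 := by positivity
        linarith
    _ ≤ _ := by gcongr

/-- **GD2** -/
theorem gd2 : S_GD2 := by
  intro T w Cs hT hA
  refine ⟨?_, ?_⟩
  · have h := hA.2.1 0
    simp only [iteratedDeriv_zero] at h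
    exact h.mono (prod_mono subset_rfl Ioo_subset_Ioc_self)
  · intro a b ha hb
    have hs : 0 < Real.sqrt a := Real.sqrt_pos.mpr ha
    refine ⟨Real.sqrt a / 32, Cs 0 * (1 + 32 / Real.sqrt a), by positivity, fun ξ τ hτ => ?_⟩
    have h := hA.2.2.2 0 ξ τ ⟨ha.trans_le hτ.1, hτ.2.trans hb.le⟩
    simp only [iteratedDeriv_zero] at h
    refine h.trans ?_
    rw [mul_assoc]
    refine mul_le_mul_of_nonneg_left ?_ (hA.2.2.1 0)
    have h1 : er ξ τ ≤ Real.exp (-(Real.sqrt a * |ξ| / 16)) := by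
      unfold er
      apply Real.exp_le_exp.mpr
      have := mul_le_mul_of_nonneg_right (Real.sqrt_le_sqrt hτ.1) (abs_nonneg ξ)
      linarith
    calc (1 + |ξ|) * er ξ τ ≤ (1 + |ξ|) * Real.exp (-(Real.sqrt a * |ξ| / 16)) := by
          gcongr
      _ ≤ ((1 + 32 / Real.sqrt a) * Real.exp (Real.sqrt a * |ξ| / 32)) *
          Real.exp (-(Real.sqrt a * |ξ| / 16)) := by
          gcongr
          exact gd2_aux hs
      _ = (1 + 32 / Real.sqrt a) * Real.exp (-(Real.sqrt a / 32 * |ξ|)) := by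
          rw [mul_assoc, ← Real.exp_add]
          congr 2
          ring

end Pool.Agent.Q82.BC
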