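import Pool.Agent.Q141.CP.Stm

set_option autoImplicit false

namespace Pool.Agent.Q141.CP

open Finset MeasureTheory Filter Topology

namespace LAW

/-- the measure on the two values -/
noncomputable def nu : Measure Bool :=
  ENNReal.ofReal (25 / 26) • Measure.dirac false + ENNReal.ofReal (1 / 26) • Measure.dirac true

/-- the values -/
noncomputable def ph (b : Bool) : ℝ := if b then 5 else -1 / 5

theorem meas_ph : Measurable ph := Measurable.of_discrete

theorem law_eq : law = nu.map ph := by
  unfold law nu
  rw [Measure.map_add _ _ meas_ph, Measure.map_smul, Measure.map_smul,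
    Measure.map_dirac' meas_ph, Measure.map_dirac' meas_ph]
  simp [ph]

instance : IsProbabilityMeasure nu := by
  constructor
  unfold nu
  simp only [Measure.coe_add, Measure.coe_smul, Pi.add_apply, Pi.smul_apply, measure_univ,
    smul_eq_mul, mul_one]
  rw [← ENNReal.ofReal_add (by norm_num) (by norm_num)]
  norm_num

instance : IsProbabilityMeasure law := by
  rw [law_eq]
  exact Measure.isProbabilityMeasure_map (by fun_prop)

theorem int_law (f : ℝ → ℝ) : ∫ x, f x ∂law = 25 / 26 * f (-1 / 5) + 1 / 26 * f 5 := by
  unfold law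
  rw [integral_add_measure, integral_smul_measure, integral_smul_measure, integral_dirac,
    integral_dirac]
  · rw [ENNReal.toReal_ofReal (by norm_num), ENNReal.toReal_ofReal (by norm_num)]
    simp
  · exact (integrable_dirac (by simp)).smul_measure ENNReal.ofReal_ne_top
  · exact (integrable_dirac (by simp)).smul_measure ENNReal.ofReal_ne_top

theorem nu_true : nu.real {true} = 1 / 26 := by
  unfold nu
  rw [measureReal_def]
  simp

theorem nu_false : nu.real {false} = 25 / 26 := by
  unfold nu
  rw [measureReal_def]
  simp
  norm_num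

/-- `gs` as a finite sum -/
theorem gs_eq (δ β : ℝ) (l : ℕ) : gs law δ β l = ∑ b : Fin l → Bool,
    (∏ i, nu.real {b i}) * Real.exp (δ * (∑ i, ph (b i)) - β * (∑ i, ph (b i)) ^ 2) := by
  unfold gs
  have h : (Measure.pi fun _ : Fin l => law) =
      (Measure.pi fun _ : Fin l => nu).map (fun b i => ph (b i)) := by
    rw [law_eq]
    have : ∀ _ : Fin l, SigmaFinite (nu.map ph) := fun _ => by
      rw [← law_eq]; infer_instance
    exact (Measure.pi_map_pi (fun _ => meas_ph.aemeasurable)).symm
  have hm : Measurable fun (b : Fin l → Bool) (i : Fin l) => ph (b i) := Measurable.of_discrete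
  rw [h, integral_map hm.aemeasurable (by fun_prop), integral_fintype (Integrable.of_finite)]
  refine Finset.sum_congr rfl fun b _ => ?_
  rw [smul_eq_mul]
  congr 1
  rw [measureReal_def, Measure.pi_singleton, ENNReal.toReal_prod]
  rfl

theorem nu_pos (b : Bool) : 0 < nu.real {b} := by
  cases b
  · rw [nu_false]; norm_num
  · rw [nu_true]; norm_num

theorem sum_w (l : ℕ) : ∑ b : Fin l → Bool, (∏ i, nu.real {b i}) = 1 := by
  have h := Finset.prod_univ_sum (fun _ : Fin l => (Finset.univ : Finset Bool))
    (fun _ b => nu.real {b})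
  rw [Fintype.piFinset_univ] at h
  rw [← h]
  simp only [Fintype.sum_bool, nu_true, nu_false]
  norm_num

/-- the integer `Y` -/
def Y {l : ℕ} (b : Fin l → Bool) : ℤ := ∑ i, (if b i then 25 else -1)

theorem sum_ph {l : ℕ} (b : Fin l → Bool) : ∑ i, ph (b i) = (Y b : ℝ) / 5 := by
  unfold Y
  push_cast
  rw [Finset.sum_div]
  refine Finset.sum_congr rfl fun i _ => ?_
  unfold ph
  split_ifs <;> norm_num

theorem expo {l : ℕ} (β : ℝ) (b : Fin l → Bool) :
    (2 * β / 5) * (∑ i, ph (b i)) - β * (∑ i, ph (b i)) ^ 2 =
      β / 25 * (1 - ((Y b : ℝ) - 1) ^ 2) := by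
  rw [sum_ph]
  ring

theorem Y_mod {l : ℕ} (b : Fin l → Bool) (h : Y b = 1) : l % 26 = 25 := by
  have h1 : Y b + l = 26 * ∑ i, (if b i then 1 else 0 : ℤ) := by
    have h2 : (l : ℤ) = ∑ _i : Fin l, (1 : ℤ) := by simp
    unfold Y
    conv_lhs => rw [h2]
    rw [← Finset.sum_add_distrib, Finset.mul_sum]
    refine Finset.sum_congr rfl fun i _ => ?_
    split_ifs <;> norm_num
  rw [h] at h1
  omega

theorem up {l : ℕ} {β : ℝ} {C : ℝ}
    (h : ∀ b : Fin l → Bool, β / 25 * (1 - ((Y b : ℝ) - 1) ^ 2) ≤ C) :
    gs law (2 * β / 5) β l ≤ Real.exp C := by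
  rw [gs_eq]
  calc _ ≤ ∑ b : Fin l → Bool, (∏ i, nu.real {b i}) * Real.exp C := by
        refine Finset.sum_le_sum fun b _ => ?_
        refine mul_le_mul_of_nonneg_left ?_ (Finset.prod_nonneg fun i _ => (nu_pos _).le)
        rw [expo]
        exact Real.exp_le_exp.2 (h b)
    _ = Real.exp C := by rw [← Finset.sum_mul, sum_w, one_mul]

end LAW

open LAW

theorem t_LAW : S_LAW := by
  refine ⟨⟨inferInstance, ?_, ?_, ?_⟩, ?_⟩
  · intro t
    unfold law
    refine Integrable.add_measure ?_ ?_
    · exact (integrable_dirac (by simp)).smul_measure ENNReal.ofReal_ne_top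
    · exact (integrable_dirac (by simp)).smul_measure ENNReal.ofReal_ne_top
  · rw [int_law (fun x => x)]
    norm_num
  · rw [int_law (fun x => x ^ 2)]
    norm_num
  · intro β hβ
    refine ⟨?_, ?_, ?_, ?_, ?_⟩
    · rw [gs_eq]
      simp
    · intro l
      rw [gs_eq]
      refine Finset.sum_pos (fun b _ => ?_) ⟨fun _ => false, Finset.mem_univ _⟩
      exact mul_pos (Finset.prod_pos fun i _ => nu_pos _) (Real.exp_pos _)
    · rw [gs_eq]
      have hinj : Function.Injective
          (fun i : Fin 25 => Function.update (fun _ : Fin 25 => false) i true) := by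
        intro i j hij
        by_contra hne
        have h := congrFun hij i
        simp only [Function.update_self] at h
        rw [Function.update_of_ne hne] at h
        exact absurd h (by simp)
      have hle : ∑ b ∈ Finset.univ.image
          (fun i : Fin 25 => Function.update (fun _ : Fin 25 => false) i true),
          (∏ i, nu.real {b i}) *
            Real.exp ((2 * β / 5) * (∑ i, ph (b i)) - β * (∑ i, ph (b i)) ^ 2) ≤
          ∑ b : Fin 25 → Bool, (∏ i, nu.real {b i}) *
            Real.exp ((2 * β / 5) * (∑ i, ph (b i)) - β * (∑ i, ph (b i)) ^ 2) := by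
        refine Finset.sum_le_sum_of_subset_of_nonneg (Finset.subset_univ _) ?_
        intro b _ _
        exact mul_nonneg (Finset.prod_nonneg fun i _ => (nu_pos _).le) (Real.exp_pos _).le
      refine le_trans ?_ hle
      rw [Finset.sum_image (fun i _ j _ h => hinj h)]
      have hterm : ∀ i : Fin 25,
          (∏ j, nu.real {Function.update (fun _ : Fin 25 => false) i true j}) *
            Real.exp ((2 * β / 5) *
              (∑ j, ph (Function.update (fun _ : Fin 25 => false) i true j)) -
              β * (∑ j, ph (Function.update (fun _ : Fin 25 => false) i true j)) ^ 2) =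
          (25 / 26) ^ 24 * (1 / 26) * Real.exp (β / 25) := by
        intro i
        have h1 : ∏ j, nu.real {Function.update (fun _ : Fin 25 => false) i true j} =
            (25 / 26) ^ 24 * (1 / 26) := by
          rw [← Finset.mul_prod_erase Finset.univ _ (Finset.mem_univ i)]
          rw [Finset.prod_congr rfl (g := fun _ => (25 / 26 : ℝ))]
          · rw [Finset.prod_const, Finset.card_erase_of_mem (Finset.mem_univ i), Finset.card_univ,
              Fintype.card_fin, Function.update_self, nu_true]
            ring
          · intro j hj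
            rw [Function.update_of_ne (Finset.ne_of_mem_erase hj), nu_false]
        have h2 : Y (Function.update (fun _ : Fin 25 => false) i true) = 1 := by
          unfold Y
          rw [← Finset.add_sum_erase Finset.univ _ (Finset.mem_univ i)]
          rw [Finset.sum_congr rfl (g := fun _ => (-1 : ℤ))]
          · rw [Finset.sum_const, Finset.card_erase_of_mem (Finset.mem_univ i), Finset.card_univ,
              Fintype.card_fin, Function.update_self]
            norm_num
          · intro j hj
            rw [Function.update_of_ne (Finset.ne_of_mem_erase hj)]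
            simp
        rw [expo, h1, h2]
        norm_num
      rw [Finset.sum_congr rfl fun i _ => hterm i, Finset.sum_const, Finset.card_univ,
        Fintype.card_fin, nsmul_eq_mul]
      have he := Real.exp_pos (β / 25)
      have hnum : (1 : ℝ) / 3 ≤ (25 : ℕ) * ((25 / 26) ^ 24 * (1 / 26)) := by norm_num
      nlinarith
    · intro l
      refine up fun b => ?_
      have h1 : (0 : ℝ) ≤ ((Y b : ℝ) - 1) ^ 2 := sq_nonneg _
      nlinarith
    · intro l hl
      rw [← Real.exp_zero]
      refine up fun b => ?_
      have hY : Y b ≠ 1 := fun h => hl (Y_mod b h)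
      have h1 : (1 : ℤ) ≤ (Y b - 1) ^ 2 := by
        have h2 : Y b - 1 ≠ 0 := by omega
        have h3 : 0 < (Y b - 1) ^ 2 := by positivity
        omega
      have h4 : (1 : ℝ) ≤ ((Y b : ℝ) - 1) ^ 2 := by exact_mod_cast h1
      nlinarith

end Pool.Agent.Q141.CP
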