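import Pool.Agent.Q141.CP.Stm

set_option autoImplicit false

namespace Pool.Agent.Q141.CP

open Finset MeasureTheory Filter Topology
open Pool.Agent.Q285.LogFact (G)

namespace PRF

variable {D n : ℕ}

theorem pos_zero (s : Fin n → Dir D) : pos s 0 = 0 := by simp [pos]

theorem loc_ext (s : Fin n → Dir D) (x : Vtx D) :
    loc s x + (if x = 0 then 1 else 0) = ext s x + (if x = pos s n then 1 else 0) := by
  have h1 : ((Finset.range (n + 1)).filter fun i => pos s i = x).card =
      ext s x + (if x = pos s n then 1 else 0) := by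
    rw [Finset.range_add_one, Finset.filter_insert]
    by_cases h : pos s n = x
    · rw [if_pos h, if_pos h.symm, Finset.card_insert_of_notMem (by simp)]
      rfl
    · rw [if_neg h, if_neg (fun h' => h h'.symm)]
      rfl
  have h2 : ((Finset.range (n + 1)).filter fun i => pos s i = x).card =
      loc s x + (if x = 0 then 1 else 0) := by
    have h3 : Finset.range (n + 1) = insert 0 (Finset.Icc 1 n) := by
      ext i
      simp only [Finset.mem_range, Finset.mem_insert, Finset.mem_Icc]
      omega
    rw [h3, Finset.filter_insert, pos_zero]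
    by_cases h : (0 : Vtx D) = x
    · rw [if_pos h, if_pos h.symm, Finset.card_insert_of_notMem (by simp)]
      rfl
    · rw [if_neg h, if_neg (fun h' => h h'.symm)]
      rfl
  rw [← h1, ← h2]

theorem vis_eq (s : Fin n → Dir D) : vis s = (tr s).filter fun x => loc s x ≠ 0 := by
  ext x
  unfold vis tr loc
  simp only [Finset.mem_image, Finset.mem_filter, Finset.card_ne_zero, Finset.mem_Icc,
    Finset.mem_range]
  constructor
  · rintro ⟨i, hi, hx⟩
    exact ⟨⟨i, by omega, hx⟩, ⟨i, by simp only [Finset.mem_filter, Finset.mem_Icc]; exact ⟨hi, hx⟩⟩⟩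
  · rintro ⟨-, ⟨i, hi⟩⟩
    simp only [Finset.mem_filter, Finset.mem_Icc] at hi
    exact ⟨i, hi.1, hi.2⟩

theorem ext_pos (s : Fin n → Dir D) (x : Vtx D) (hx : x ∈ tr s) (hy : x ≠ pos s n) :
    1 ≤ ext s x := by
  unfold tr at hx
  rw [Finset.mem_image] at hx
  obtain ⟨i, hi, rfl⟩ := hx
  rw [Finset.mem_range] at hi
  unfold ext
  rw [Nat.one_le_iff_ne_zero, Finset.card_ne_zero]
  refine ⟨i, ?_⟩
  rw [Finset.mem_filter, Finset.mem_range]
  refine ⟨?_, rfl⟩
  by_contra h
  have : i = n := by omega
  rw [this] at hy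
  exact hy rfl

/-- the exits from the neighbours whose exit number is not `25` -/
def EE (V : Finset (Vtx D)) (e : Vtx D → ℕ) (x : Vtx D) : ℕ :=
  ∑ a : Dir D, if x + stepv a ∈ V ∧ e (x + stepv a) ≠ 25 then e (x + stepv a) else 0

theorem nb_eq (V : Finset (Vtx D)) (x : Vtx D) :
    nb V x = ∑ a : Dir D, if x + stepv a ∈ V then 1 else 0 := by
  unfold nb
  rw [Finset.card_filter]

theorem nb_le (V : Finset (Vtx D)) (x : Vtx D) : nb V x ≤ 2 * D := by
  unfold nb
  refine (Finset.card_le_univ _).trans ?_
  rw [Fintype.card_prod, Fintype.card_fin, Fintype.card_bool]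
  omega

theorem dg_le (V : Finset (Vtx D)) (e : Vtx D → ℕ) (x : Vtx D) :
    dg V e x ≤ 25 * nb V x + EE V e x := by
  unfold dg EE
  rw [nb_eq, Finset.mul_sum, ← Finset.sum_add_distrib]
  refine Finset.sum_le_sum fun a _ => ?_
  by_cases h : x + stepv a ∈ V
  · by_cases h' : e (x + stepv a) = 25
    · simp [h, h']
    · simp [h, h']
  · simp [h]

theorem dg_zero (V : Finset (Vtx D)) (e : Vtx D → ℕ) (x : Vtx D) (h : nb V x = 0) :
    dg V e x = 0 := by
  unfold nb at h
  rw [Finset.card_eq_zero, Finset.filter_eq_empty_iff] at h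
  unfold dg
  refine Finset.sum_eq_zero fun a ha => ?_
  rw [if_neg (h ha)]

theorem sum_EE (V : Finset (Vtx D)) (e : Vtx D → ℕ) :
    ∑ x ∈ V, EE V e x ≤ 2 * D * ∑ x ∈ V, (if e x = 25 then 0 else e x) := by
  unfold EE
  rw [Finset.sum_comm]
  have h : ∀ a : Dir D, ∑ x ∈ V, (if x + stepv a ∈ V ∧ e (x + stepv a) ≠ 25 then
      e (x + stepv a) else 0) ≤ ∑ x ∈ V, (if e x = 25 then 0 else e x) := by
    intro a
    have h1 : ∑ x ∈ V, (if x + stepv a ∈ V ∧ e (x + stepv a) ≠ 25 then
        e (x + stepv a) else 0) =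
        ∑ z ∈ V.image (fun x => x + stepv a), (if z ∈ V ∧ e z ≠ 25 then e z else 0) := by
      rw [Finset.sum_image (fun x _ y _ hxy => add_right_cancel hxy)]
    rw [h1]
    have h2 : ∑ z ∈ V.image (fun x => x + stepv a), (if z ∈ V ∧ e z ≠ 25 then e z else 0) ≤
        ∑ z ∈ V.image (fun x => x + stepv a) ∪ V, (if z ∈ V ∧ e z ≠ 25 then e z else 0) :=
      Finset.sum_le_sum_of_subset Finset.subset_union_left
    refine h2.trans (le_of_eq ?_)
    rw [← Finset.sum_subset (Finset.subset_union_right (s₁ := V.image (fun x => x + stepv a)))]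
    · refine Finset.sum_congr rfl fun z hz => ?_
      by_cases h' : e z = 25
      · simp [h']
      · simp [h', hz]
    · intro z _ hz
      rw [if_neg (fun h' => hz h'.1)]
  refine (Finset.sum_le_sum fun a _ => h a).trans ?_
  rw [Finset.sum_const, smul_eq_mul, Finset.card_univ, Fintype.card_prod, Fintype.card_fin,
    Fintype.card_bool, Nat.mul_comm D 2]

end PRF

open PRF

theorem t_PRF : S_PRF := by
  intro hinj han D hD
  obtain ⟨-, hG0, hGm, hGE, hGl, hGd⟩ := han
  obtain ⟨N, hN⟩ : ∃ N : ℝ, N = 2 * (D : ℝ) := ⟨_, rfl⟩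
  have hN1 : (1 : ℝ) ≤ N := by
    rw [hN]
    have : (1 : ℝ) ≤ D := by exact_mod_cast hD
    linarith
  refine ⟨Real.exp (27 * N), Real.exp_pos _, ?_⟩
  intro η hη hη1
  obtain ⟨B, hB⟩ : ∃ B : ℝ, B = Real.exp (25 * N) := ⟨_, rfl⟩
  have hB1 : 1 ≤ B := by
    rw [hB]
    exact Real.one_le_exp (by linarith)
  obtain ⟨Fa, hFa⟩ : ∃ Fa : ℝ, Fa = ((25).factorial : ℝ) := ⟨_, rfl⟩
  have hFa1 : 1 ≤ Fa := by
    rw [hFa]
    exact_mod_cast Nat.one_le_iff_ne_zero.2 (Nat.factorial_ne_zero 25)
  obtain ⟨P, hP⟩ : ∃ P : ℝ, P = (25 * N) ^ 25 := ⟨_, rfl⟩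
  have hP1 : 1 ≤ P := by
    rw [hP]
    exact one_le_pow₀ (by linarith)
  obtain ⟨ι, hι⟩ : ∃ ι : ℝ, ι = (η⁻¹) ^ 26 := ⟨_, rfl⟩
  have hηi : 1 ≤ η⁻¹ := (one_le_inv₀ hη).2 hη1
  have hι1 : 1 ≤ ι := by
    rw [hι]
    exact one_le_pow₀ hηi
  obtain ⟨K, hK⟩ : ∃ K : ℝ, K = B * Fa * P * ι := ⟨_, rfl⟩
  have hBF : 1 ≤ B * Fa := one_le_mul_of_one_le_of_one_le hB1 hFa1
  have hBFP : 1 ≤ B * Fa * P := one_le_mul_of_one_le_of_one_le hBF hP1
  have hK1 : 1 ≤ K := by
    rw [hK]
    exact one_le_mul_of_one_le_of_one_le hBFP hι1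
  refine ⟨K ^ 2, by positivity, ?_⟩
  intro w hw n V y e S hS
  obtain ⟨hw0, hw25, hwl⟩ := hw
  -- bounds for `A`
  have hA1 : ∀ j, 1 ≤ Fa * A j := by
    intro j
    unfold A
    rw [← hFa, mul_div_cancel₀ _ (by positivity)]
    exact Real.one_le_exp (by have := hG0 (25 * j); positivity)
  have hA0 : ∀ j, 0 < A j := by
    intro j
    unfold A
    positivity
  have hAP : ∀ x, A (nb V x) ≤ P := by
    intro x
    unfold A
    rw [← hFa]
    have h1 : Real.exp (25 * G (25 * nb V x)) ≤ P := by
      have h2 := hGd 25 (25 * (2 * D)) (by omega)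
      have h3 : G (25 * nb V x) ≤ G (25 * (2 * D)) := hGm (Nat.mul_le_mul_left _ (nb_le V x))
      calc Real.exp (25 * G (25 * nb V x)) ≤ Real.exp ((25 : ℕ) * G (25 * (2 * D))) := by
            apply Real.exp_le_exp.2
            push_cast
            linarith
        _ ≤ _ := h2
        _ = P := by rw [hP, hN]; push_cast; ring
    exact (div_le_self (Real.exp_pos _).le hFa1).trans h1
  have hg0 : ∀ x, 0 ≤ (if e x = 25 then A (nb V x) else (Real.exp (27 * N) * η) ^ e x) := by
    intro x
    split_ifs
    · exact (hA0 _).le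
    · positivity
  rcases S.eq_empty_or_nonempty with hSe | ⟨s₀, hs₀⟩
  · rw [hSe, Finset.sum_empty]
    exact mul_nonneg (by positivity) (Finset.prod_nonneg fun x _ => hg0 x)
  obtain ⟨htr, hend, hext⟩ := hS s₀ hs₀
  obtain ⟨l, hl⟩ : ∃ l : Vtx D → ℕ, l = fun x => loc s₀ x := ⟨_, rfl⟩
  have hle : ∀ x, l x + (if x = 0 then 1 else 0) = e x + (if x = y then 1 else 0) := by
    intro x
    have h := loc_ext s₀ x
    rw [hext, hend] at h
    rw [hl]
    exact h
  have hloc : ∀ s ∈ cls n V y e, ∀ x, loc s x = l x := by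
    intro s hs x
    obtain ⟨-, h2, h3⟩ := hs
    have h := loc_ext s x
    rw [h3, h2, ← hle x] at h
    omega
  have hvis : ∀ s ∈ cls n V y e, vis s = V.filter fun x => l x ≠ 0 := by
    intro s hs
    rw [vis_eq, hs.1]
    refine Finset.filter_congr fun x _ => ?_
    rw [hloc s hs x]
  have hepos : ∀ x ∈ V, x ≠ y → 1 ≤ e x := by
    intro x hx hxy
    rw [← hext]
    rw [← htr] at hx
    rw [← hend] at hxy
    exact ext_pos s₀ x hx hxy
  -- the weights
  obtain ⟨wt', hwt'⟩ : ∃ wt' : ℝ, wt' = ∏ x ∈ V, (if l x = 25 then (1 : ℝ) else η ^ l x) :=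
    ⟨_, rfl⟩
  have hwt0 : 0 ≤ wt' := by
    rw [hwt']
    refine Finset.prod_nonneg fun x _ => ?_
    split_ifs <;> positivity
  have hprod : ∀ s ∈ S, ∏ x ∈ vis s, w (loc s x) ≤ wt' := by
    intro s hs
    rw [hvis s (hS s hs), hwt', Finset.prod_congr rfl fun x _ => by rw [hloc s (hS s hs) x]]
    rw [Finset.prod_filter]
    refine Finset.prod_le_prod (fun x _ => ?_) fun x _ => ?_
    · split_ifs
      · exact hw0 _
      · exact zero_le_one
    · by_cases h0 : l x = 0
      · simp [h0]
      · rw [if_pos h0]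
        by_cases h25 : l x = 25
        · rw [if_pos h25, h25]
          exact hw25
        · rw [if_neg h25]
          exact hwl _ (by omega) h25
  have hsum1 : ∑ s ∈ S, ∏ x ∈ vis s, w (loc s x) ≤ (S.card : ℝ) * wt' := by
    refine (Finset.sum_le_sum hprod).trans (le_of_eq ?_)
    rw [Finset.sum_const, nsmul_eq_mul]
  have hcard : (S.card : ℝ) ≤ ((cls n V y e).ncard : ℝ) := by
    have h1 : (S : Set (Fin n → Dir D)) ⊆ cls n V y e := fun s hs => hS s hs
    have h2 := Set.ncard_le_ncard h1 (Set.toFinite _)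
    rw [Set.ncard_coe_finset] at h2
    exact_mod_cast h2
  have hinj' := hinj D n V y e l hloc
  have hfac : 0 < ∏ x ∈ V, ((l x).factorial : ℝ) :=
    Finset.prod_pos fun x _ => by exact_mod_cast Nat.factorial_pos _
  have hcls : ((cls n V y e).ncard : ℝ) ≤
      ∏ x ∈ V, (Real.exp ((l x : ℝ) * G (dg V e x)) / ((l x).factorial : ℝ)) := by
    rw [Finset.prod_div_distrib, ← Real.exp_sum, le_div_iff₀ hfac]
    exact hinj'
  -- the pointwise bound
  have hpt : ∀ x ∈ V, Real.exp ((l x : ℝ) * G (dg V e x)) / ((l x).factorial : ℝ) *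
      (if l x = 25 then (1 : ℝ) else η ^ l x) ≤
      Real.exp (2 * (EE V e x : ℝ)) *
        ((if x = 0 then K else 1) * (if x = y then K else 1) *
          (if e x = 25 then A (nb V x) else (B * η) ^ e x)) := by
    intro x hx
    have hd := dg_le V e x
    have hnb := nb_le V x
    -- first the bound by `h x`
    have hh : Real.exp ((l x : ℝ) * G (dg V e x)) / ((l x).factorial : ℝ) *
      (if l x = 25 then (1 : ℝ) else η ^ l x) ≤ Real.exp (2 * (EE V e x : ℝ)) *
        (if l x = 25 then A (nb V x) else B * η ^ l x) := by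
      by_cases h25 : l x = 25
      · rw [if_pos h25, if_pos h25, h25, mul_one]
        unfold A
        rw [← mul_div_assoc, ← Real.exp_add]
        refine div_le_div_of_nonneg_right (Real.exp_le_exp.2 ?_) (by positivity)
        push_cast
        by_cases h0 : nb V x = 0
        · rw [dg_zero V e x h0, h0]
          have : (0 : ℝ) ≤ EE V e x := Nat.cast_nonneg _
          simp only [Nat.mul_zero]
          linarith
        · have h1 : G (dg V e x) ≤ G (25 * nb V x + EE V e x) := hGm hd
          have h2 := hGE (25 * nb V x) (EE V e x) (by omega)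
          have h3 : 2 * (EE V e x : ℝ) / ((25 * nb V x : ℕ) : ℝ) ≤ 2 * (EE V e x : ℝ) / 25 := by
            apply div_le_div_of_nonneg_left (by positivity) (by norm_num)
            have h4 : 25 ≤ 25 * nb V x := by omega
            exact_mod_cast h4
          linarith
      · rw [if_neg h25, if_neg h25, ← mul_assoc]
        refine mul_le_mul_of_nonneg_right ?_ (by positivity)
        have h1 := hGl (l x) (dg V e x)
        have hf : (0 : ℝ) < ((l x).factorial : ℝ) := by exact_mod_cast Nat.factorial_pos _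
        rw [div_le_iff₀ hf, hB, ← Real.exp_add, mul_comm _ ((l x).factorial : ℝ)]
        refine h1.trans (mul_le_mul_of_nonneg_left (Real.exp_le_exp.2 ?_) hf.le)
        have h2 : (dg V e x : ℝ) ≤ 25 * (nb V x : ℝ) + EE V e x := by exact_mod_cast hd
        have h3 : (nb V x : ℝ) ≤ N := by rw [hN]; exact_mod_cast hnb
        have h4 : (0 : ℝ) ≤ EE V e x := Nat.cast_nonneg _
        linarith
    refine hh.trans (mul_le_mul_of_nonneg_left ?_ (Real.exp_pos _).le)
    -- now the comparison of `l` and `e`
    have hlx := hle x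
    have hgx0 : 0 ≤ (if e x = 25 then A (nb V x) else (B * η) ^ e x) := by
      split_ifs
      · exact (hA0 _).le
      · positivity
    have hBe : ∀ k : ℕ, η ^ k ≤ (B * η) ^ k := by
      intro k
      refine pow_le_pow_left₀ hη.le ?_ k
      nlinarith
    by_cases hxy : x = 0 ∨ x = y
    · -- a factor `K` is available
      have hKK : K ≤ (if x = 0 then K else 1) * (if x = y then K else 1) := by
        rcases hxy with h | h
        · rw [if_pos h]
          refine le_mul_of_one_le_right (by linarith) ?_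
          split_ifs
          · exact hK1
          · exact le_refl _
        · rw [if_pos h]
          refine le_mul_of_one_le_left (by linarith) ?_
          split_ifs
          · exact hK1
          · exact le_refl _
      refine le_trans ?_ (mul_le_mul_of_nonneg_right hKK hgx0)
      have hlx1 : e x ≤ l x + 1 := by
        split_ifs at hlx <;> omega
      have hη26 : ι * η ^ 26 = 1 := by
        rw [hι, ← mul_pow, inv_mul_cancel₀ hη.ne', one_pow]
      by_cases h25 : l x = 25
      · rw [if_pos h25]
        by_cases he : e x = 25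
        · rw [if_pos he]
          exact le_mul_of_one_le_left (hA0 _).le hK1
        · rw [if_neg he]
          have h1 : (1 : ℝ) ≤ ι * (B * η) ^ e x := by
            calc (1 : ℝ) = ι * η ^ 26 := hη26.symm
              _ ≤ ι * η ^ e x := by
                  refine mul_le_mul_of_nonneg_left ?_ (by linarith)
                  exact pow_le_pow_of_le_one hη.le hη1 (by omega)
              _ ≤ ι * (B * η) ^ e x := mul_le_mul_of_nonneg_left (hBe _) (by linarith)
          calc A (nb V x) ≤ P := hAP x
            _ ≤ B * Fa * P := le_mul_of_one_le_left (by linarith) hBF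
            _ ≤ B * Fa * P * (ι * (B * η) ^ e x) :=
                le_mul_of_one_le_right (by linarith) h1
            _ = K * (B * η) ^ e x := by rw [hK]; ring
      · rw [if_neg h25]
        by_cases he : e x = 25
        · rw [if_pos he]
          have h1 : η ^ l x ≤ 1 := pow_le_one₀ hη.le hη1
          calc B * η ^ l x ≤ B := mul_le_of_le_one_right (by linarith) h1
            _ ≤ B * (Fa * A (nb V x)) := le_mul_of_one_le_right (by linarith) (hA1 _)
            _ ≤ B * (Fa * A (nb V x)) * (P * ι) := by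
                refine le_mul_of_one_le_right ?_ (one_le_mul_of_one_le_of_one_le hP1 hι1)
                have := hA1 (nb V x)
                positivity
            _ = K * A (nb V x) := by rw [hK]; ring
        · rw [if_neg he]
          have h1 : η ^ l x ≤ η⁻¹ * η ^ e x := by
            have h2 : η ^ (l x + 1) ≤ η ^ e x := pow_le_pow_of_le_one hη.le hη1 hlx1
            calc η ^ l x = η⁻¹ * η ^ (l x + 1) := by
                  rw [pow_succ]
                  field_simp
              _ ≤ η⁻¹ * η ^ e x := mul_le_mul_of_nonneg_left h2 (by positivity)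
          have h3 : η⁻¹ ≤ ι := by
            rw [hι]
            exact le_self_pow₀ hηi (by norm_num)
          have h5 : η⁻¹ ≤ Fa * P * ι := by
            have h6 : 1 ≤ Fa * P := one_le_mul_of_one_le_of_one_le hFa1 hP1
            exact h3.trans (le_mul_of_one_le_left (by linarith) h6)
          have h7 : 0 ≤ (B * η) ^ e x := by positivity
          calc B * η ^ l x ≤ B * (η⁻¹ * η ^ e x) :=
                mul_le_mul_of_nonneg_left h1 (by linarith)
            _ ≤ B * (η⁻¹ * (B * η) ^ e x) := by
                refine mul_le_mul_of_nonneg_left ?_ (by linarith)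
                exact mul_le_mul_of_nonneg_left (hBe _) (by positivity)
            _ ≤ B * ((Fa * P * ι) * (B * η) ^ e x) := by
                refine mul_le_mul_of_nonneg_left ?_ (by linarith)
                exact mul_le_mul_of_nonneg_right h5 h7
            _ = K * (B * η) ^ e x := by rw [hK]; ring
    · rw [not_or] at hxy
      rw [if_neg hxy.1, if_neg hxy.2, one_mul, one_mul]
      rw [if_neg hxy.1, if_neg hxy.2, add_zero, add_zero] at hlx
      rw [hlx]
      by_cases he : e x = 25
      · rw [if_pos he, if_pos he]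
      · rw [if_neg he, if_neg he, mul_pow]
        refine mul_le_mul_of_nonneg_right ?_ (by positivity)
        have := hepos x hx hxy.2
        exact le_self_pow₀ hB1 (by omega)
  -- conclusion
  have hKp : ∏ x ∈ V, ((if x = 0 then K else 1) * (if x = y then K else 1)) ≤ K ^ 2 := by
    rw [Finset.prod_mul_distrib, sq]
    have h1 : ∀ z : Vtx D, ∏ x ∈ V, (if x = z then K else 1) ≤ K := by
      intro z
      rw [Finset.prod_ite_eq']
      split_ifs
      · exact le_refl _
      · exact hK1
    have h2 : ∀ z : Vtx D, 0 ≤ ∏ x ∈ V, (if x = z then K else 1) := by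
      intro z
      refine Finset.prod_nonneg fun x _ => ?_
      split_ifs
      · linarith
      · exact zero_le_one
    exact mul_le_mul (h1 0) (h1 y) (h2 y) (by linarith)
  have hexp : ∏ x ∈ V, Real.exp (2 * (EE V e x : ℝ)) ≤
      ∏ x ∈ V, (if e x = 25 then (1 : ℝ) else Real.exp (2 * N) ^ e x) := by
    have h1 : ∀ x, (if e x = 25 then (1 : ℝ) else Real.exp (2 * N) ^ e x) =
        Real.exp (2 * N * ((if e x = 25 then 0 else e x : ℕ) : ℝ)) := by
      intro x
      split_ifs
      · simp
      · rw [← Real.exp_nat_mul]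
        congr 1
        ring
    rw [Finset.prod_congr rfl fun x _ => h1 x, ← Real.exp_sum, ← Real.exp_sum]
    apply Real.exp_le_exp.2
    rw [← Finset.mul_sum, ← Finset.mul_sum]
    have h2 := sum_EE V e
    have h3 : (∑ x ∈ V, (EE V e x : ℝ)) ≤
        2 * D * ∑ x ∈ V, ((if e x = 25 then 0 else e x : ℕ) : ℝ) := by exact_mod_cast h2
    rw [hN]
    linarith
  have hgx' : ∀ x, 0 ≤ (if e x = 25 then A (nb V x) else (B * η) ^ e x) := by
    intro x
    split_ifs
    · exact (hA0 _).le
    · positivity
  calc ∑ s ∈ S, ∏ x ∈ vis s, w (loc s x) ≤ (S.card : ℝ) * wt' := hsum1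
    _ ≤ ((cls n V y e).ncard : ℝ) * wt' := mul_le_mul_of_nonneg_right hcard hwt0
    _ ≤ (∏ x ∈ V, (Real.exp ((l x : ℝ) * G (dg V e x)) / ((l x).factorial : ℝ))) * wt' :=
        mul_le_mul_of_nonneg_right hcls hwt0
    _ = ∏ x ∈ V, (Real.exp ((l x : ℝ) * G (dg V e x)) / ((l x).factorial : ℝ) *
          (if l x = 25 then (1 : ℝ) else η ^ l x)) := by rw [hwt', ← Finset.prod_mul_distrib]
    _ ≤ ∏ x ∈ V, (Real.exp (2 * (EE V e x : ℝ)) *
        ((if x = 0 then K else 1) * (if x = y then K else 1) *
          (if e x = 25 then A (nb V x) else (B * η) ^ e x))) := by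
        refine Finset.prod_le_prod (fun x _ => ?_) hpt
        refine mul_nonneg (by positivity) ?_
        split_ifs <;> positivity
    _ = (∏ x ∈ V, Real.exp (2 * (EE V e x : ℝ))) *
        ((∏ x ∈ V, ((if x = 0 then K else 1) * (if x = y then K else 1))) *
          ∏ x ∈ V, (if e x = 25 then A (nb V x) else (B * η) ^ e x)) := by
        rw [Finset.prod_mul_distrib, Finset.prod_mul_distrib]
    _ ≤ (∏ x ∈ V, (if e x = 25 then (1 : ℝ) else Real.exp (2 * N) ^ e x)) *
        (K ^ 2 * ∏ x ∈ V, (if e x = 25 then A (nb V x) else (B * η) ^ e x)) := by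
        have h1 : 0 ≤ ∏ x ∈ V, (if e x = 25 then A (nb V x) else (B * η) ^ e x) :=
          Finset.prod_nonneg fun x _ => hgx' x
        have h2 : 0 ≤ ∏ x ∈ V, ((if x = 0 then K else 1) * (if x = y then K else 1)) := by
          refine Finset.prod_nonneg fun x _ => ?_
          split_ifs <;> positivity
        refine mul_le_mul hexp (mul_le_mul_of_nonneg_right hKp h1) (mul_nonneg h2 h1) ?_
        refine Finset.prod_nonneg fun x _ => ?_
        split_ifs <;> positivity
    _ = K ^ 2 * ∏ x ∈ V, (if e x = 25 then A (nb V x) else (Real.exp (27 * N) * η) ^ e x) := by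
        rw [mul_left_comm, ← Finset.prod_mul_distrib]
        congr 1
        refine Finset.prod_congr rfl fun x _ => ?_
        split_ifs
        · rw [one_mul]
        · rw [← mul_pow, ← mul_assoc, hB, ← Real.exp_add]
          congr 3
          ring

end Pool.Agent.Q141.CP
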