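import Pool.Agent.Q127.DJ.Stm

/-!
# Project DJ, job CE2
-/

set_option autoImplicit false

namespace Pool.Agent.Q222.DJ_CE2

open Pool.Agent.Q127.DJ MeasureTheory

theorem meas_nm {m : ℕ} (f : ℕ → Fin m) (t : ℕ) : Measurable (nm f t) := by
  refine measurable_pi_iff.2 fun i => ?_
  exact (measurable_from_top (f := f)).comp (measurable_pi_apply (i : ℕ))

theorem meas_cyl {m : ℕ} (f : ℕ → Fin m) (t : ℕ) (w : Fin t → Fin m) :
    MeasurableSet (cyl f t w) :=
  meas_nm f t (measurableSet_singleton w)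

theorem split (μ : Measure (ℕ → ℕ)) [IsProbabilityMeasure μ] {m : ℕ} (f : ℕ → Fin m) (t : ℕ)
    (F : (ℕ → ℕ) → ℝ) (hF : Integrable F μ) :
    ∫ x, F x ∂μ = ∑ w : Fin t → Fin m, ∫ x in cyl f t w, F x ∂μ := by
  have hU : (⋃ w : Fin t → Fin m, cyl f t w) = Set.univ := by
    ext x
    simp [cyl]
  have hd : Pairwise (Function.onFun Disjoint fun w : Fin t → Fin m => cyl f t w) := by
    intro w w' hw
    refine Set.disjoint_left.2 fun x hx hx' => hw ?_
    exact (show nm f t x = w from hx).symm.trans (show nm f t x = w' from hx')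
  have h := integral_iUnion_fintype (μ := μ) (f := F) (s := fun w : Fin t → Fin m => cyl f t w)
    (fun w => meas_cyl f t w) hd (fun w => hF.integrableOn)
  rw [hU, setIntegral_univ] at h
  exact h

theorem integrable_of_BM (μ : Measure (ℕ → ℕ)) [IsProbabilityMeasure μ] {C : ℝ}
    {φ : (ℕ → ℕ) → ℝ} (h : BM C φ) : Integrable φ μ :=
  Integrable.of_bound h.1.aestronglyMeasurable C (Filter.Eventually.of_forall fun x => by
    rw [Real.norm_eq_abs]; exact h.2 x)

theorem ce2 (h1 : S_ce1) : S_ce2 := by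
  intro μ _ m f t C C' φ ψ hφ hψ hdep
  have hC : 0 ≤ C := (abs_nonneg _).trans (hφ.2 fun _ => 0)
  have hC' : 0 ≤ C' := (abs_nonneg _).trans (hψ.2 fun _ => 0)
  obtain ⟨hE, hEB⟩ := h1 μ m f t C φ hC hφ
  have mulBM : ∀ u : (ℕ → ℕ) → ℝ, BM C u → BM (C' * C) fun x => ψ x * u x := fun u hu =>
    ⟨hψ.1.mul hu.1, fun x => by
      rw [abs_mul]
      exact mul_le_mul (hψ.2 x) (hu.2 x) (abs_nonneg _) hC'⟩
  rw [split μ f t _ (integrable_of_BM μ (mulBM _ hEB)),
    split μ f t _ (integrable_of_BM μ (mulBM _ hφ))]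
  refine Finset.sum_congr rfl fun w _ => ?_
  by_cases hz : μ (cyl f t w) = 0
  · rw [Measure.restrict_eq_zero.2 hz]
    simp
  · have hne : (cyl f t w).Nonempty := by
      by_contra hne
      rw [Set.not_nonempty_iff_eq_empty] at hne
      exact hz (by rw [hne]; exact measure_empty)
    obtain ⟨x₀, hx₀⟩ := hne
    have hx₀' : nm f t x₀ = w := hx₀
    have hr : μ.real (cyl f t w) ≠ 0 := by
      intro h
      rcases (ENNReal.toReal_eq_zero_iff _).1 h with h | h
      · exact hz h
      · exact measure_ne_top μ _ h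
    have e1 : ∫ x in cyl f t w, ψ x * E μ f t φ x ∂μ =
        ∫ x in cyl f t w, ψ x₀ * ((∫ y in cyl f t w, φ y ∂μ) / μ.real (cyl f t w)) ∂μ := by
      refine setIntegral_congr_fun (meas_cyl f t w) fun x hx => ?_
      have hx' : nm f t x = w := hx
      have : ψ x = ψ x₀ := hdep x x₀ (hx'.trans hx₀'.symm)
      simp only [this, E, hx']
    have e2 : ∫ x in cyl f t w, ψ x * φ x ∂μ = ∫ x in cyl f t w, ψ x₀ * φ x ∂μ := by
      refine setIntegral_congr_fun (meas_cyl f t w) fun x hx => ?_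
      have hx' : nm f t x = w := hx
      have : ψ x = ψ x₀ := hdep x x₀ (hx'.trans hx₀'.symm)
      simp only [this]
    rw [e1, e2, setIntegral_const, smul_eq_mul, integral_const_mul]
    field_simp

end Pool.Agent.Q222.DJ_CE2
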