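import Pool.Agent.Q127.DJ.Stm

/-!
# Project DJ, job HIL
-/

set_option autoImplicit false

namespace Pool.Agent.Q222.DJ_HIL

open Pool.Agent.Q127.DJ Filter Topology



/-- the Hilbert space of square summable two-sided sequences -/
abbrev H : Type := lp (fun _ : ℤ => ℝ) 2

theorem two_pos' : 0 < (2 : ENNReal).toReal := by norm_num

theorem mem_of {f : ℤ → ℝ} (hf : Summable fun n => f n ^ 2) : Memℓp f 2 := by
  refine memℓp_gen ?_
  have : (fun i => ‖f i‖ ^ (2 : ENNReal).toReal) = fun n => f n ^ 2 := by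
    funext i
    rw [ENNReal.toReal_ofNat]
    rw [show ((2 : ℝ)) = ((2 : ℕ) : ℝ) by norm_num, Real.rpow_natCast, Real.norm_eq_abs, sq_abs]
  rw [this]; exact hf

/-- the sequence as a vector -/
def mk (f : ℤ → ℝ) (hf : Summable fun n => f n ^ 2) : H := ⟨f, mem_of hf⟩

theorem mk_apply (f : ℤ → ℝ) (hf : Summable fun n => f n ^ 2) (n : ℤ) : (mk f hf : H) n = f n :=
  rfl

theorem summ (x : H) : Summable fun n => (x n) ^ 2 := by
  have h := (memℓp_gen_iff two_pos').1 (lp.memℓp x)
  have : (fun i => ‖x i‖ ^ (2 : ENNReal).toReal) = fun n => x n ^ 2 := by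
    funext i
    rw [ENNReal.toReal_ofNat]
    rw [show ((2 : ℝ)) = ((2 : ℕ) : ℝ) by norm_num, Real.rpow_natCast, Real.norm_eq_abs, sq_abs]
  rw [this] at h; exact h

theorem inner_eq (x y : H) : (inner ℝ (x) (y)) = ∑' n, x n * y n := by
  rw [lp.inner_eq_tsum]
  refine tsum_congr fun n => ?_
  simp [mul_comm]

theorem norm_sq (x : H) : ‖x‖ ^ 2 = ∑' n, (x n) ^ 2 := by
  rw [← real_inner_self_eq_norm_sq, inner_eq]
  exact tsum_congr fun n => (sq _).symm

/-- the shift by `j` -/
noncomputable def sh (j : ℤ) : H →ₗᵢ[ℝ] H where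
  toFun x := mk (fun n => x (n - j)) ((Equiv.subRight j).summable_iff.2 (summ x))
  map_add' x y := by
    ext n
    simp [mk_apply]
  map_smul' c x := by
    ext n
    simp [mk_apply]
  norm_map' x := by
    have h : ‖mk (fun n => x (n - j)) ((Equiv.subRight j).summable_iff.2 (summ x))‖ ^ 2 =
        ‖x‖ ^ 2 := by
      rw [norm_sq, norm_sq]
      exact (Equiv.subRight j).tsum_eq fun n => (x n) ^ 2
    exact (sq_eq_sq₀ (norm_nonneg _) (norm_nonneg _)).1 h

theorem sh_apply (j : ℤ) (x : H) (n : ℤ) : sh j x n = x (n - j) := rfl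

theorem sh_sh (i j : ℤ) (x : H) : sh i (sh j x) = sh (i + j) x := by
  ext n
  change x (n - i - j) = x (n - (i + j))
  rw [sub_sub]

theorem sh_zero (x : H) : sh 0 x = x := by
  ext n
  simp only [sh_apply, sub_zero]

/-- the unit vector at `0` -/
noncomputable def e : H := lp.single 2 (0 : ℤ) (1 : ℝ)

theorem inner_e (x : H) : (inner ℝ (e) (x)) = x 0 := by
  unfold e
  rw [lp.inner_single_left]
  simp

theorem norm_e : ‖e‖ ^ 2 = 1 := by
  rw [← real_inner_self_eq_norm_sq, inner_e]
  simp [e]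

/-- the main argument -/
theorem main (a b : H) (hab : ∀ j : ℤ, (inner ℝ (a) (sh j b)) = 0) (hb : ∀ n : ℤ, n < 0 → b n = 0)
    (hb0 : b 0 ≠ 0) : a 0 = 0 := by
  classical
  let K : Submodule ℝ H :=
    (Submodule.span ℝ (Set.range fun j : ℕ => sh ((j : ℤ) + 1) b)).topologicalClosure
  have hKc : IsClosed (K : Set H) := Submodule.isClosed_topologicalClosure _
  haveI : CompleteSpace K := hKc.completeSpace_coe
  have gen : ∀ (L : H →L[ℝ] ℝ), (∀ j : ℕ, L (sh ((j : ℤ) + 1) b) = 0) → ∀ y ∈ K, L y = 0 := by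
    intro L hL y hy
    have hle : K ≤ LinearMap.ker (L : H →ₗ[ℝ] ℝ) := by
      refine Submodule.topologicalClosure_minimal _ ?_ ?_
      · rw [Submodule.span_le]
        rintro _ ⟨j, rfl⟩
        exact hL j
      · exact L.isClosed_ker
    exact hle hy
  have hshK : ∀ (j : ℕ), ∀ y ∈ K, sh ((j : ℤ) + 1) y ∈ K := by
    intro j y hy
    have hle : K ≤ K.comap (sh ((j : ℤ) + 1)).toLinearMap := by
      refine Submodule.topologicalClosure_minimal _ ?_ ?_
      · rw [Submodule.span_le]
        rintro _ ⟨i, rfl⟩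
        refine Submodule.le_topologicalClosure _ (Submodule.subset_span ⟨i + j + 1, ?_⟩)
        change sh (((i + j + 1 : ℕ) : ℤ) + 1) b = sh ((j : ℤ) + 1) (sh ((i : ℤ) + 1) b)
        rw [sh_sh]
        congr 1
        push_cast
        ring
      · exact hKc.preimage (sh ((j : ℤ) + 1)).continuous
    exact hle hy
  set p : H := K.starProjection b with hp
  have hpK : p ∈ K := K.starProjection_apply_mem b
  set u : H := b - p with hu
  have huK : ∀ y ∈ K, (inner ℝ (u) (y)) = 0 := fun y hy => K.starProjection_inner_eq_zero b y hy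
  -- coordinates
  have hy0 : ∀ y ∈ K, y 0 = 0 := by
    intro y hy
    rw [← inner_e]
    refine gen (innerSL ℝ e) (fun j => ?_) y hy
    rw [innerSL_apply_apply, inner_e, sh_apply]
    exact hb _ (by omega)
  have hu0 : u 0 = b 0 := by
    have : u 0 = b 0 - p 0 := rfl
    rw [this, hy0 p hpK, sub_zero]
  have hune : u ≠ 0 := by
    intro h
    apply hb0
    rw [← hu0, h]
    rfl
  have hnu : ‖u‖ ≠ 0 := norm_ne_zero_iff.2 hune
  -- the shifts of u
  have hau : ∀ j : ℤ, (inner ℝ (a) (sh j u)) = 0 := by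
    intro j
    rw [hu, map_sub, inner_sub_right, hab j, zero_sub, neg_eq_zero]
    refine gen ((innerSL ℝ a).comp (sh j).toContinuousLinearMap) (fun i => ?_) p hpK
    change inner ℝ a (sh j (sh ((i : ℤ) + 1) b)) = 0
    rw [sh_sh]
    exact hab _
  have hshu : ∀ j : ℕ, sh ((j : ℤ) + 1) u ∈ K := by
    intro j
    rw [hu, map_sub]
    refine K.sub_mem ?_ (hshK j p hpK)
    exact Submodule.le_topologicalClosure _ (Submodule.subset_span ⟨j, rfl⟩)
  have horth : ∀ i j : ℤ, i < j → (inner ℝ (sh i u) (sh j u)) = 0 := by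
    intro i j hij
    obtain ⟨n, hn⟩ := Int.eq_ofNat_of_zero_le (show 0 ≤ j - i - 1 by omega)
    have hj : sh j u = sh i (sh ((n : ℤ) + 1) u) := by
      rw [sh_sh]; congr 2; omega
    rw [hj, LinearIsometry.inner_map_map]
    exact huK _ (hshu n)
  let v : ℤ → H := fun j => ‖u‖⁻¹ • sh j u
  have hv : Orthonormal ℝ v := by
    constructor
    · intro j
      change ‖‖u‖⁻¹ • sh j u‖ = 1
      rw [norm_smul, norm_inv, norm_norm, LinearIsometry.norm_map]
      exact inv_mul_cancel₀ hnu
    · intro i j hij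
      change inner ℝ (‖u‖⁻¹ • sh i u) (‖u‖⁻¹ • sh j u) = 0
      rw [inner_smul_left, inner_smul_right]
      rcases lt_or_gt_of_ne hij with h | h
      · rw [horth i j h]; simp
      · rw [real_inner_comm, horth j i h]; simp
  -- Parseval
  let c : ℤ → ℝ := fun j => ‖u‖⁻¹ * u (-j)
  have hc : ∀ j, (inner ℝ (v j) (e)) = c j := by
    intro j
    change inner ℝ (‖u‖⁻¹ • sh j u) e = _
    rw [inner_smul_left, real_inner_comm, inner_e, sh_apply]
    simp [c]
  have hcs : HasSum (fun j => c j ^ 2) 1 := by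
    have h1 : HasSum (fun j => (u j) ^ 2) (‖u‖ ^ 2) := by
      rw [norm_sq]; exact (summ u).hasSum
    have h2 : HasSum (fun j => (u (-j)) ^ 2) (‖u‖ ^ 2) := (Equiv.neg ℤ).hasSum_iff.2 h1
    have h3 := h2.mul_left ((‖u‖⁻¹) ^ 2)
    have h4 : ‖u‖⁻¹ ^ 2 * ‖u‖ ^ 2 = 1 := by
      rw [← mul_pow, inv_mul_cancel₀ hnu, one_pow]
    rw [h4] at h3
    refine h3.congr_fun ?_ |> id
    intro j
    simp only [c, mul_pow]
  have key : ∀ s : Finset ℤ, (inner ℝ (a) (e)) ^ 2 ≤ ‖a‖ ^ 2 * (1 - ∑ j ∈ s, c j ^ 2) := by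
    intro s
    set w : H := ∑ j ∈ s, c j • v j with hw
    have haw : (inner ℝ (a) (w)) = 0 := by
      rw [hw, inner_sum]
      refine Finset.sum_eq_zero fun j _ => ?_
      rw [inner_smul_right]
      change c j * inner ℝ a (‖u‖⁻¹ • sh j u) = 0
      rw [inner_smul_right, hau j]; simp
    have hww : (inner ℝ (w) (w)) = ∑ j ∈ s, c j ^ 2 := by
      rw [hw, hv.inner_sum]
      refine Finset.sum_congr rfl fun j _ => ?_
      simp [sq]
    have hwe : (inner ℝ (w) (e)) = ∑ j ∈ s, c j ^ 2 := by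
      rw [hw, sum_inner]
      refine Finset.sum_congr rfl fun j _ => ?_
      rw [inner_smul_left, hc j]; simp [sq]
    have hn : ‖e - w‖ ^ 2 = 1 - ∑ j ∈ s, c j ^ 2 := by
      rw [@norm_sub_sq_real, norm_e, real_inner_comm, hwe, ← real_inner_self_eq_norm_sq, hww]
      ring
    have h1 : (inner ℝ (a) (e)) = (inner ℝ (a) (e - w)) := by rw [inner_sub_right, haw, sub_zero]
    rw [h1, ← hn, ← mul_pow]
    exact sq_le_sq' (by
      have := neg_le_of_abs_le (abs_real_inner_le_norm a (e - w))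
      exact this) (real_inner_le_norm _ _)
  have lim : Tendsto (fun s : Finset ℤ => ‖a‖ ^ 2 * (1 - ∑ j ∈ s, c j ^ 2)) atTop
      (𝓝 (‖a‖ ^ 2 * (1 - 1))) := (tendsto_const_nhds.sub hcs).const_mul _
  have hle : (inner ℝ (a) (e)) ^ 2 ≤ ‖a‖ ^ 2 * (1 - 1) := ge_of_tendsto lim (Eventually.of_forall key)
  rw [sub_self, mul_zero] at hle
  have h0 : (inner ℝ (a) (e)) = 0 := by
    have := le_antisymm hle (sq_nonneg _)
    exact pow_eq_zero_iff (two_ne_zero) |>.1 this
  rw [real_inner_comm, inner_e] at h0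
  exact h0

/-- extension by zero -/
def ext (α : ℕ → ℝ) (n : ℤ) : ℝ := if 0 ≤ n then α n.toNat else 0

theorem ext_nat (α : ℕ → ℝ) (k : ℕ) : ext α (k : ℤ) = α k := by
  unfold ext
  rw [if_pos (by omega), Int.toNat_natCast]

theorem ext_neg (α : ℕ → ℝ) {n : ℤ} (h : n < 0) : ext α n = 0 := if_neg (by omega)

theorem ext_summ (α : ℕ → ℝ) (h : Summable fun k => α k ^ 2) :
    Summable fun n : ℤ => ext α n ^ 2 := by
  refine (Function.Injective.summable_iff (g := fun k : ℕ => (k : ℤ)) Nat.cast_injective ?_).1 ?_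
  · intro x hx
    have : x < 0 := by
      by_contra hh
      exact hx ⟨x.toNat, by simp; omega⟩
    rw [ext_neg α this]; norm_num
  · have : ((fun n : ℤ => ext α n ^ 2) ∘ fun k : ℕ => (k : ℤ)) = fun k => α k ^ 2 := by
      funext k
      simp only [Function.comp_apply, ext_nat]
    rw [this]; exact h

theorem hil : S_hil := by
  intro α β hα hβ h0α h0β
  by_contra hcon
  push Not at hcon
  apply h0α
  have hmain := main (mk (ext α) (ext_summ α hα)) (mk (ext β) (ext_summ β hβ)) ?_ ?_ ?_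
  · rw [mk_apply] at hmain
    have := ext_nat α 0
    rw [Nat.cast_zero] at this
    rw [← this]; exact hmain
  · intro j
    rw [inner_eq]
    simp only [sh_apply, mk_apply]
    rcases le_total 0 j with hj | hj
    · obtain ⟨i, rfl⟩ := Int.eq_ofNat_of_zero_le hj
      have hinj : Function.Injective fun k : ℕ => (k : ℤ) + (i : ℤ) := by
        intro k k' h
        simpa using h
      rw [← hinj.tsum_eq (f := fun n : ℤ => ext α n * ext β (n - i))]
      · rw [← (hcon i).2]
        refine tsum_congr fun k => ?_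
        have e1 : ((k : ℤ) + (i : ℤ)) = ((k + i : ℕ) : ℤ) := by push_cast; ring
        rw [add_sub_cancel_right, ext_nat, e1, ext_nat]
      · intro n hn
        by_contra hh
        apply hn
        have : n - i < 0 := by
          by_contra h2
          exact hh ⟨(n - i).toNat, by simp; omega⟩
        simp only [ext_neg β this, mul_zero]
    · obtain ⟨i, hi⟩ := Int.eq_ofNat_of_zero_le (show 0 ≤ -j by omega)
      have hj' : j = -(i : ℤ) := by omega
      subst hj'
      rw [← (Nat.cast_injective (R := ℤ)).tsum_eq (f := fun n : ℤ => ext α n * ext β (n - -i))]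
      · rw [← (hcon i).1]
        refine tsum_congr fun k => ?_
        have e1 : ((k : ℤ) - -(i : ℤ)) = ((k + i : ℕ) : ℤ) := by push_cast; ring
        rw [e1, ext_nat, ext_nat]
      · intro n hn
        by_contra hh
        apply hn
        have : n < 0 := by
          by_contra h2
          exact hh ⟨n.toNat, by simp; omega⟩
        simp only [ext_neg α this, zero_mul]
  · intro n hn
    rw [mk_apply, ext_neg β hn]
  · rw [mk_apply]
    have := ext_nat β 0
    rw [Nat.cast_zero] at this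
    rw [this]; exact h0β

end Pool.Agent.Q222.DJ_HIL
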