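import Pool.Agent.Q109.ISat.Stm

/-!
Project ISat (helper109), job SYM (helper222).
-/

set_option autoImplicit false

namespace Q222.ISatSYM

open Q109.ISat Set

theorem sym : S_SYM := by
  refine ⟨?_, ?_, ?_, ?_⟩
  · rintro k m W _ H s ⟨δ, I, hI⟩
    refine ⟨¬ δ, Iᶜ, ⟨?_, ?_, ?_, ?_⟩⟩
    · exact not_congr hI.base
    · rintro ⟨φ, hφ⟩
      exact hI.free ⟨φ, fun f hf => not_iff_not.1 (hφ f hf)⟩
    · intro w
      obtain ⟨ψ, h1, h2⟩ := hI.flip w
      refine ⟨ψ, h1, fun f hf => ?_⟩
      have h3 := h2 f hf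
      rw [Set.mem_symmDiff] at h3 ⊢
      rw [Set.mem_compl_iff, Set.mem_compl_iff]
      tauto
    · intro X Y hd hX hY hc ζ h1 h2 h3 h4
      exact hI.cross X Y hd hX hY (fun f hf a b => not_iff_not.1 (hc f hf a b)) ζ h1 h2 h3
        (fun f hf hd => not_iff_not.1 (h4 f hf hd))
  · rintro k W V H G ⟨h1, h2⟩
    refine ⟨?_, ?_⟩
    · rintro ⟨φ, hφ⟩
      exact h1 ⟨φ, fun f hf => not_iff_not.1 (hφ f hf)⟩
    · intro P hP hk hfin
      obtain ⟨φ, hφ⟩ := h2 P hP hk hfin
      refine ⟨φ, fun f hf => ?_⟩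
      have h3 := hφ f hf
      rw [Set.mem_symmDiff] at h3 ⊢
      rw [Set.mem_compl_iff, Set.mem_compl_iff]
      tauto
  · rintro k W W' V H H' G e he ⟨h1, h2⟩
    refine ⟨?_, ?_⟩
    · rintro ⟨φ, hφ⟩
      refine h1 ⟨e.symm.toEmbedding.trans φ, fun f hf => ?_⟩
      have h3 := he (f.map e.symm.toEmbedding) (by rw [Finset.card_map, hf])
      have h4 := hφ (f.map e.symm.toEmbedding) (by rw [Finset.card_map, hf])
      rw [Finset.map_map] at h3 h4
      have h5 : e.symm.toEmbedding.trans e.toEmbedding = Function.Embedding.refl W' := by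
        ext x
        simp
      rw [h5, Finset.map_refl] at h3
      rw [← h3, h4]
    · intro P hP hk hfin
      obtain ⟨φ, hφ⟩ := h2 P hP hk hfin
      refine ⟨e.toEmbedding.trans φ, fun f hf => ?_⟩
      rw [he f hf, hφ _ (by rw [Finset.card_map, hf]), Finset.map_map]
  · rintro k W V V' H G e ⟨h1, h2⟩
    refine ⟨{f | f.map e.symm.toEmbedding ∈ G}, ?_, ?_⟩
    · rintro ⟨φ, hφ⟩
      refine h1 ⟨φ.trans e.symm.toEmbedding, fun f hf => ?_⟩
      rw [hφ f hf, Set.mem_ofPred_eq, Finset.map_map]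
    · intro P hP hk hfin
      have he : e.toEmbedding.trans e.symm.toEmbedding = Function.Embedding.refl V := by
        ext x
        simp
      have he' : e.symm.toEmbedding.trans e.toEmbedding = Function.Embedding.refl V' := by
        ext x
        simp
      obtain ⟨φ, hφ⟩ := h2 {f | f.map e.toEmbedding ∈ P} (by
        obtain ⟨f, hf⟩ := hP
        refine ⟨f.map e.symm.toEmbedding, ?_⟩
        rw [Set.mem_ofPred_eq, Finset.map_map, he', Finset.map_refl]
        exact hf) (by
        intro f hf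
        have := hk _ hf
        rwa [Finset.card_map] at this) (by
        intro v
        refine ((hfin (e v)).preimage (Finset.map_injective e.toEmbedding).injOn).subset ?_
        rintro f ⟨hf, hv⟩
        exact ⟨hf, Finset.mem_map_of_mem e.toEmbedding hv⟩)
      refine ⟨φ.trans e.toEmbedding, fun f hf => ?_⟩
      rw [hφ f hf, Set.mem_symmDiff, Set.mem_symmDiff, Set.mem_ofPred_eq, Set.mem_ofPred_eq,
        ← Finset.map_map, Finset.map_map e.toEmbedding e.symm.toEmbedding, he, Finset.map_refl]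

end Q222.ISatSYM
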