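import Pool.Agent.Q109.ISat.Stm

/-!
Project ISat (helper109), job T2A (helper222).
-/

set_option autoImplicit false

namespace Q222.ISatT2A

open Q109.ISat Set

theorem c3 {W : Type} [DecidableEq W] {a b c : W} (hab : a ≠ b) (hac : a ≠ c) (hbc : b ≠ c) :
    ({a, b, c} : Finset W).card = 3 :=
  Finset.card_eq_three.2 ⟨a, b, c, hab, hac, hbc, rfl⟩

/-- the bijection of the vertices -/
def σ : Fin 3 ⊕ Fin 2 ≃ Fin 5 where
  toFun x := match x with
    | Sum.inl 0 => 1
    | Sum.inl 1 => 2
    | Sum.inl 2 => 3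
    | Sum.inr 0 => 0
    | Sum.inr 1 => 4
  invFun x := match x with
    | 0 => Sum.inr 0
    | 1 => Sum.inl 0
    | 2 => Sum.inl 1
    | 3 => Sum.inl 2
    | 4 => Sum.inr 1
  left_inv x := by
    rcases x with x | x <;> fin_cases x <;> rfl
  right_inv x := by
    fin_cases x <;> rfl

section

variable {W : Type} [DecidableEq W] {H : Set (Finset W)} {δ : Prop}

/-- links of twins -/
theorem link {u v : W} (h : Twins 3 H δ u v) {a b : W} (hab : a ≠ b) (hua : u ≠ a) (hub : u ≠ b)
    (hva : v ≠ a) (hvb : v ≠ b) : (({u, a, b} : Finset W) ∈ H ↔ ({v, a, b} : Finset W) ∈ H) := by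
  apply h.2.2 {a, b}
  · rw [Finset.card_pair hab]
  · simp [hua, hub]
  · simp [hva, hvb]

end

theorem hdec : ∀ a b : Fin 5, a ≠ b → ¬ ((a = 0 ∨ a = 1 ∨ a = 2) ∧ (b = 0 ∨ b = 1 ∨ b = 2)) →
    ¬ ((a = 0 ∨ a = 1 ∨ a = 3) ∧ (b = 0 ∨ b = 1 ∨ b = 3)) → ¬ ((a = 0 ∨ a = 1 ∨ a = 4) ∧ (b = 0 ∨ b = 1 ∨ b = 4)) →
    ¬ ((a = 0 ∨ a = 2 ∨ a = 3) ∧ (b = 0 ∨ b = 2 ∨ b = 3)) → ¬ ((a = 0 ∨ a = 2 ∨ a = 4) ∧ (b = 0 ∨ b = 2 ∨ b = 4)) →
    (a = 3 ∧ b = 4) ∨ (a = 4 ∧ b = 3) := by
  intro a b
  fin_cases a <;> fin_cases b <;> simp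

theorem t2a : S_CLB → S_CLF → S_T2A := by
  intro hclb hclf W _ _ H e h034 h134 h234 h012 h013 h014 h023 h024 h123 h124
  have ne : ∀ {i j : Fin 5}, i ≠ j → e i ≠ e j := fun h h' => h (e.injective h')
  let τ : Fin 3 ⊕ Fin 2 ≃ W := σ.trans e
  have hfirst : first τ = {e 1, e 2, e 3} := by
    have h1 : (Finset.univ : Finset (Fin 3)) = {0, 1, 2} := by decide
    rw [first, h1, Finset.map_insert, Finset.map_insert, Finset.map_singleton]
    rfl
  obtain ⟨hb, hfl⟩ := hclb 3 2 W τ H False (by norm_num)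
  refine ⟨True, clone τ H False, ⟨?_, ?_, hfl, ?_⟩⟩
  · rw [hb, hfirst]
    exact ⟨fun h => h h123, fun h => h.elim⟩
  · apply hclf 3 2 W τ H False (by norm_num)
    intro v hv u htw
    rw [hfirst] at hv
    simp only [Finset.mem_insert, Finset.mem_singleton] at hv
    obtain ⟨j, rfl⟩ := e.surjective u
    have hno : ∀ f : Finset W, f ∈ H → f.card = 3 → v ∈ f → e j ∈ f → False := fun f hf hf3 h1 h2 =>
      (htw.2.1 f hf3 h1 h2).1 hf
    have c123 : ({e 1, e 2, e 3} : Finset W).card = 3 := c3 (ne (by decide)) (ne (by decide)) (ne (by decide))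
    have c034 : ({e 0, e 3, e 4} : Finset W).card = 3 := c3 (ne (by decide)) (ne (by decide)) (ne (by decide))
    have c134 : ({e 1, e 3, e 4} : Finset W).card = 3 := c3 (ne (by decide)) (ne (by decide)) (ne (by decide))
    have c234 : ({e 2, e 3, e 4} : Finset W).card = 3 := c3 (ne (by decide)) (ne (by decide)) (ne (by decide))
    have hj : j = 0 ∨ j = 1 ∨ j = 2 ∨ j = 3 ∨ j = 4 := by fin_cases j <;> simp
    rcases hv with rfl | rfl | rfl
    · rcases hj with rfl | rfl | rfl | rfl | rfl
      · have h1 := link htw (ne (show (2 : Fin 5) ≠ 3 by decide)) (ne (by decide)) (ne (by decide)) (ne (by decide)) (ne (by decide))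
        exact h023 (h1.1 h123)
      · exact htw.1 rfl
      · exact hno _ h123 c123 (by simp) (by simp)
      · exact hno _ h123 c123 (by simp) (by simp)
      · exact hno _ h134 c134 (by simp) (by simp)
    · rcases hj with rfl | rfl | rfl | rfl | rfl
      · have h1 := link htw (ne (show (1 : Fin 5) ≠ 3 by decide)) (ne (by decide)) (ne (by decide)) (ne (by decide)) (ne (by decide))
        rw [Finset.insert_comm] at h1
        exact h013 (h1.1 h123)
      · exact hno _ h123 c123 (by simp) (by simp)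
      · exact htw.1 rfl
      · exact hno _ h123 c123 (by simp) (by simp)
      · exact hno _ h234 c234 (by simp) (by simp)
    · rcases hj with rfl | rfl | rfl | rfl | rfl
      · exact hno _ h034 c034 (by simp) (by simp)
      · exact hno _ h123 c123 (by simp) (by simp)
      · exact hno _ h123 c123 (by simp) (by simp)
      · exact htw.1 rfl
      · exact hno _ h134 c134 (by simp) (by simp)
  · intro X Y hXY hX hY hcr ζ hζ hζY hζZ h
    have hcr' : ∀ i j k : Fin 5, i ≠ j → i ≠ k → j ≠ k → ({e i, e j, e k} : Finset W) ∉ H → ∀ a b : Fin 5,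
        (a = i ∨ a = j ∨ a = k) → (b = i ∨ b = j ∨ b = k) → e a ∈ X → e b ∈ Y → False := by
      intro i j k hij hik hjk hn a b ha hb haX hbY
      apply hn
      refine (hcr _ (c3 (ne hij) (ne hik) (ne hjk)) ⟨e a, Finset.mem_inter.2 ⟨?_, haX⟩⟩ ⟨e b, Finset.mem_inter.2 ⟨?_, hbY⟩⟩).2 trivial
      · rcases ha with rfl | rfl | rfl <;> simp
      · rcases hb with rfl | rfl | rfl <;> simp
    have k012 := hcr' 0 1 2 (by decide) (by decide) (by decide) h012
    have k013 := hcr' 0 1 3 (by decide) (by decide) (by decide) h013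
    have k014 := hcr' 0 1 4 (by decide) (by decide) (by decide) h014
    have k023 := hcr' 0 2 3 (by decide) (by decide) (by decide) h023
    have k024 := hcr' 0 2 4 (by decide) (by decide) (by decide) h024
    have hne : ∀ a, e a ∈ X → e a ∈ Y → False := fun a h1 h2 => Finset.disjoint_left.1 hXY h1 h2
    have key : ∀ a b : Fin 5, e a ∈ X → e b ∈ Y → (a = 3 ∧ b = 4) ∨ (a = 4 ∧ b = 3) := by
      intro a b ha hb
      have h6 : a ≠ b := by
        rintro rfl
        exact hne a ha hb
      exact hdec a b h6 (fun h => k012 a b h.1 h.2 ha hb) (fun h => k013 a b h.1 h.2 ha hb)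
        (fun h => k014 a b h.1 h.2 ha hb) (fun h => k023 a b h.1 h.2 ha hb) (fun h => k024 a b h.1 h.2 ha hb)
    obtain ⟨x₁, hx₁⟩ := hX
    obtain ⟨y₁, hy₁⟩ := hY
    obtain ⟨a₁, rfl⟩ := e.surjective x₁
    obtain ⟨b₁, rfl⟩ := e.surjective y₁
    have hXm : ∀ a, e a ∈ X → a = a₁ := by
      intro a ha
      have h1 := key a b₁ ha hy₁
      have h2 := key a₁ b₁ hx₁ hy₁
      rcases h1 with h1 | h1 <;> rcases h2 with h2 | h2
      · rw [h1.1, h2.1]
      · exact absurd (h1.2.symm.trans h2.2) (by decide)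
      · exact absurd (h1.2.symm.trans h2.2) (by decide)
      · rw [h1.1, h2.1]
    have hYm : ∀ b, e b ∈ Y → b = b₁ := by
      intro b hb
      have h1 := key a₁ b hx₁ hb
      have h2 := key a₁ b₁ hx₁ hy₁
      rcases h1 with h1 | h1 <;> rcases h2 with h2 | h2
      · rw [h1.2, h2.2]
      · exact absurd (h1.1.symm.trans h2.1) (by decide)
      · exact absurd (h1.1.symm.trans h2.1) (by decide)
      · rw [h1.2, h2.2]
    have hab₁ := key a₁ b₁ hx₁ hy₁
    have hb₁ : b₁ = 3 ∨ b₁ = 4 := by
      rcases hab₁ with h1 | h1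
      · exact Or.inr h1.2
      · exact Or.inl h1.2
    have ha₁ : a₁ = 3 ∨ a₁ = 4 := by
      rcases hab₁ with h1 | h1
      · exact Or.inl h1.1
      · exact Or.inr h1.1
    have hlow : ∀ i : Fin 5, i = 0 ∨ i = 1 ∨ i = 2 → e i ∉ X ∧ e i ∉ Y := by
      intro i hi
      constructor
      · intro h1
        have := hXm i h1
        subst this
        rcases hi with rfl | rfl | rfl <;> revert ha₁ <;> decide
      · intro h1
        have := hYm i h1
        subst this
        rcases hi with rfl | rfl | rfl <;> revert hb₁ <;> decide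
    have hyX : e b₁ ∉ X := fun h1 => Finset.disjoint_left.1 hXY h1 hy₁
    obtain ⟨⟨q, n⟩, hq⟩ := Sum.isRight_iff.1 (hζY _ hy₁)
    obtain ⟨l0, hl0⟩ := Sum.isLeft_iff.1 (hζZ _ (hlow 0 (by simp)).1 (hlow 0 (by simp)).2)
    obtain ⟨l1, hl1⟩ := Sum.isLeft_iff.1 (hζZ _ (hlow 1 (by simp)).1 (hlow 1 (by simp)).2)
    obtain ⟨l2, hl2⟩ := Sum.isLeft_iff.1 (hζZ _ (hlow 2 (by simp)).1 (hlow 2 (by simp)).2)
    have hl01 : l0 ≠ l1 := by
      rintro rfl
      have := hζ (hlow 0 (by simp)).1 (hlow 1 (by simp)).1 (hl0.trans hl1.symm)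
      exact ne (by decide) this
    have hl12 : l1 ≠ l2 := by
      rintro rfl
      have := hζ (hlow 1 (by simp)).1 (hlow 2 (by simp)).1 (hl1.trans hl2.symm)
      exact ne (by decide) this
    -- membership of the triples in the clone structure
    have hcl : ∀ (l l' : Fin 3), l ≠ l' → (({Sum.inr (q, n), Sum.inl l, Sum.inl l'} : Finset (Nw 3 2)) ∈ clone τ H False ↔
        ({τ (Sum.inr q), τ (Sum.inl l), τ (Sum.inl l')} : Finset W) ∈ symmDiff H {first τ}) := by
      intro l l' hll
      have h1 : ({Sum.inr (q, n), Sum.inl l, Sum.inl l'} : Finset (Nw 3 2)).image (proj τ) =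
          {τ (Sum.inr q), τ (Sum.inl l), τ (Sum.inl l')} := by
        rw [Finset.image_insert, Finset.image_insert, Finset.image_singleton]
        rfl
      have h2 : Set.InjOn (proj τ) ((({Sum.inr (q, n), Sum.inl l, Sum.inl l'} : Finset (Nw 3 2)) : Finset (Nw 3 2)) : Set (Nw 3 2)) := by
        rw [← Finset.card_image_iff, h1, c3, c3]
        · simp
        · simp
        · simpa using hll
        · intro h3
          have := τ.injective h3
          simp at this
        · intro h3
          have := τ.injective h3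
          simp at this
        · intro h3
          have := τ.injective h3
          rw [Sum.inl.injEq] at this
          exact hll this
      show ((¬ Set.InjOn (proj τ) _ ∧ False) ∨ (Set.InjOn (proj τ) _ ∧ Finset.image (proj τ) _ ∈ symmDiff H {first τ})) ↔ _
      rw [h1]
      exact ⟨fun h => h.elim (fun h => h.2.elim) (fun h => h.2), fun h => Or.inr ⟨h2, h⟩⟩
    have hdis : ∀ i j : Fin 5, (i = 0 ∨ i = 1 ∨ i = 2) → (j = 0 ∨ j = 1 ∨ j = 2) → Disjoint ({e b₁, e i, e j} : Finset W) X := by
      intro i j hi hj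
      rw [Finset.disjoint_left]
      intro a ha haX
      simp only [Finset.mem_insert, Finset.mem_singleton] at ha
      rcases ha with rfl | rfl | rfl
      · exact hyX haX
      · exact (hlow i hi).1 haX
      · exact (hlow j hj).1 haX
    have hc12 : ({e b₁, e 1, e 2} : Finset W).card = 3 := by
      rcases hb₁ with rfl | rfl
      · exact c3 (ne (by decide)) (ne (by decide)) (ne (by decide))
      · exact c3 (ne (by decide)) (ne (by decide)) (ne (by decide))
    have hc01 : ({e b₁, e 0, e 1} : Finset W).card = 3 := by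
      rcases hb₁ with rfl | rfl
      · exact c3 (ne (by decide)) (ne (by decide)) (ne (by decide))
      · exact c3 (ne (by decide)) (ne (by decide)) (ne (by decide))
    have t12 : ({e b₁, e 1, e 2} : Finset W) ∈ H := by
      rcases hb₁ with rfl | rfl
      · have h1 : ({e 3, e 1, e 2} : Finset W) = {e 1, e 2, e 3} := by
          rw [Finset.insert_comm, Finset.pair_comm (e 3)]
        rw [h1]
        exact h123
      · have h1 : ({e 4, e 1, e 2} : Finset W) = {e 1, e 2, e 4} := by
          rw [Finset.insert_comm, Finset.pair_comm (e 4)]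
        rw [h1]
        exact h124
    have t01 : ({e b₁, e 0, e 1} : Finset W) ∉ H := by
      rcases hb₁ with rfl | rfl
      · have h1 : ({e 3, e 0, e 1} : Finset W) = {e 0, e 1, e 3} := by
          rw [Finset.insert_comm, Finset.pair_comm (e 3)]
        rw [h1]
        exact h013
      · have h1 : ({e 4, e 0, e 1} : Finset W) = {e 0, e 1, e 4} := by
          rw [Finset.insert_comm, Finset.pair_comm (e 4)]
        rw [h1]
        exact h014
    have u12 := h _ hc12 (hdis 1 2 (by simp) (by simp))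
    have u01 := h _ hc01 (hdis 0 1 (by simp) (by simp))
    rw [Finset.image_insert, Finset.image_insert, Finset.image_singleton, hq, hl1, hl2, hcl l1 l2 hl12] at u12
    rw [Finset.image_insert, Finset.image_insert, Finset.image_singleton, hq, hl0, hl1, hcl l0 l1 hl01] at u01
    have v12 := u12.1 t12
    have v01 : ({τ (Sum.inr q), τ (Sum.inl l0), τ (Sum.inl l1)} : Finset W) ∉ symmDiff H {first τ} := fun h1 => t01 (u01.2 h1)
    have hnf : ∀ l l' : Fin 3, ({τ (Sum.inr q), τ (Sum.inl l), τ (Sum.inl l')} : Finset W) ≠ first τ := by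
      intro l l' h1
      have h2 : τ (Sum.inr q) ∈ first τ := by
        rw [← h1]
        simp
      obtain ⟨i, -, hi⟩ := Finset.mem_map.1 h2
      have h3 : τ (Sum.inl i) = τ (Sum.inr q) := hi
      have := τ.injective h3
      simp at this
    rw [Set.mem_symmDiff, Set.mem_singleton_iff] at v12 v01
    have w12 : ({τ (Sum.inr q), τ (Sum.inl l1), τ (Sum.inl l2)} : Finset W) ∈ H := by
      rcases v12 with h1 | h1
      · exact h1.1
      · exact absurd h1.1 (hnf _ _)
    have w01 : ({τ (Sum.inr q), τ (Sum.inl l0), τ (Sum.inl l1)} : Finset W) ∉ H := fun h1 => v01 (Or.inl ⟨h1, hnf _ _⟩)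
    have r0 : τ (Sum.inr 0) = e 0 := rfl
    have r1 : τ (Sum.inr 1) = e 4 := rfl
    have s0 : τ (Sum.inl 0) = e 1 := rfl
    have s1 : τ (Sum.inl 1) = e 2 := rfl
    have s2 : τ (Sum.inl 2) = e 3 := rfl
    have hq2 : q = 0 ∨ q = 1 := by fin_cases q <;> simp
    have fl : ∀ l : Fin 3, l = 0 ∨ l = 1 ∨ l = 2 := by decide
    have rot : ∀ a b c : W, ({a, b, c} : Finset W) = {b, c, a} := by
      intro a b c
      rw [Finset.insert_comm, Finset.pair_comm a]
    rcases hq2 with rfl | rfl
    · rw [r0] at w12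
      rcases fl l1 with rfl | rfl | rfl <;> rcases fl l2 with rfl | rfl | rfl
      · exact hl12 rfl
      · exact h012 w12
      · exact h013 w12
      · rw [s0, s1, Finset.pair_comm] at w12
        exact h012 w12
      · exact hl12 rfl
      · exact h023 w12
      · rw [s0, s2, Finset.pair_comm] at w12
        exact h013 w12
      · rw [s1, s2, Finset.pair_comm] at w12
        exact h023 w12
      · exact hl12 rfl
    · rw [r1] at w01
      rcases fl l0 with rfl | rfl | rfl <;> rcases fl l1 with rfl | rfl | rfl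
      · exact hl01 rfl
      · rw [s0, s1, rot] at w01
        exact w01 h124
      · rw [s0, s2, rot] at w01
        exact w01 h134
      · rw [s0, s1, Finset.pair_comm, rot] at w01
        exact w01 h124
      · exact hl01 rfl
      · rw [s1, s2, rot] at w01
        exact w01 h234
      · rw [s0, s2, Finset.pair_comm, rot] at w01
        exact w01 h134
      · rw [s1, s2, Finset.pair_comm, rot] at w01
        exact w01 h234
      · exact hl01 rfl

end Q222.ISatT2A
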