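import Mathlib
import Pool.Agent.Q127.KI.Stm
import Pool.Agent.Q127.KI.Stm2

/-!
# Project KI (helper127), second part, job FRL: frequencies of visits to neighbourhoods of cylinders
-/

set_option autoImplicit false

namespace Pool.Agent.Q127.KI

open MeasureTheory Filter Topology

open Classical in
/-- FRL. The frequency of visits to the neighbourhood of a cylinder exists. -/
theorem frl (h1 : S_cnv) (h2 : S_fr2) (h3 : S_shd) : S_frl := by
  intro M _ _ f Φ hf hne hsh hΦ x hx a u δ hδ hsep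
  set U : Set M := Metric.thickening δ (Φ '' Cyl a u) with hU
  let b : ℕ → ℝ := fun j => if f^[j] x ∈ U then 1 else 0
  have hb1 : ∀ n, |b n| ≤ 1 := by
    intro n
    by_cases h : f^[n] x ∈ U
    · simp [b, h]
    · simp [b, h]
  let g : (ℤ → Bool) → ℝ := fun w => if (∀ i : ℤ, -(a : ℤ) ≤ i → i ≤ a → w i = u i) then 1 else 0
  have hg1 : ∀ w, |g w| ≤ 1 := by
    intro w
    by_cases h : ∀ i : ℤ, -(a : ℤ) ≤ i → i ≤ a → w i = u i
    · simp only [g]
      rw [if_pos h]
      norm_num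
    · simp only [g]
      rw [if_neg h]
      norm_num
  have hg2 : ∀ w w' : ℤ → Bool, (∀ i : ℤ, -(a : ℤ) ≤ i → i ≤ a → w i = w' i) → g w = g w' := by
    intro w w' hw
    have h : (∀ i : ℤ, -(a : ℤ) ≤ i → i ≤ a → w i = u i) ↔
        (∀ i : ℤ, -(a : ℤ) ≤ i → i ≤ a → w' i = u i) := by
      constructor
      · intro h i hi1 hi2
        rw [← hw i hi1 hi2]
        exact h i hi1 hi2
      · intro h i hi1 hi2
        rw [hw i hi1 hi2]
        exact h i hi1 hi2
    simp only [g]
    by_cases h' : ∀ i : ℤ, -(a : ℤ) ≤ i → i ≤ a → w i = u i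
    · rw [if_pos h', if_pos (h.1 h')]
    · rw [if_neg h', if_neg (fun h'' => h' (h.2 h''))]
  have hwin : ∀ ε : ℝ, 0 < ε → ∃ (n0 : ℕ) (c : ℝ) (J : ℕ), 0 < n0 ∧ ∀ j, J ≤ j →
      |∑ i ∈ Finset.range n0, b (j + i) - n0 * c| ≤ ε * n0 := by
    intro ε hε
    obtain ⟨n0, c, hn0, H⟩ := h2 a g hg1 hg2 ε hε
    obtain ⟨J, HJ⟩ := h3 M f Φ hf hne hsh hΦ x hx δ hδ n0
    refine ⟨n0, c, J, hn0, ?_⟩
    intro j hj
    obtain ⟨w, hw, hd⟩ := HJ j hj
    have hS : ∀ i : ℕ, sh^[i] w ∈ Sub := by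
      intro i
      induction i with
      | zero => exact hw
      | succ i ih =>
        rw [Function.iterate_succ_apply']
        exact hsh _ ih
    have key : ∀ i ∈ Finset.range n0, b (j + i) = g (sh^[i] w) := by
      intro i hi
      have hi' : i ≤ n0 := (Finset.mem_range.1 hi).le
      have hdi := hd i hi'
      simp only [b, g]
      by_cases h : ∀ i' : ℤ, -(a : ℤ) ≤ i' → i' ≤ a → (sh^[i] w) i' = u i'
      · have hc : sh^[i] w ∈ Cyl a u := ⟨hS i, h⟩
        have hm : f^[j + i] x ∈ U := by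
          rw [hU, Metric.mem_thickening_iff]
          exact ⟨Φ (sh^[i] w), Set.mem_image_of_mem Φ hc, hdi⟩
        rw [if_pos hm, if_pos h]
      · have hc : sh^[i] w ∉ Cyl a u := fun hc => h hc.2
        have hm : f^[j + i] x ∉ U := by
          rw [hU, Metric.mem_thickening_iff]
          rintro ⟨z, ⟨w', hw', rfl⟩, hz⟩
          have h4 := hsep w' hw' (sh^[i] w) (hS i) hc
          have h5 : dist (Φ w') (Φ (sh^[i] w)) ≤
              dist (Φ w') (f^[j + i] x) + dist (f^[j + i] x) (Φ (sh^[i] w)) := dist_triangle _ _ _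
          rw [dist_comm (Φ w') (f^[j + i] x)] at h5
          linarith
        rw [if_neg hm, if_neg h]
    rw [Finset.sum_congr rfl key]
    exact H w hw
  obtain ⟨c, hc⟩ := h1 b hb1 hwin
  refine ⟨c, ?_⟩
  refine hc.congr (fun n => ?_)
  congr 1
  simp only [b]
  rw [Finset.sum_boole]

end Pool.Agent.Q127.KI
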