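import Pool.Agent.Q88.MF.Stm

set_option autoImplicit false

open Set MeasureTheory Filter Topology
open scoped ContDiff ENNReal NNReal

namespace Pool.Agent.Q88.MF

theorem dea : S_dea := by
  intro d g D hD
  have h : (D : E (d + 1) →ₗ[ℝ] E (d + 1)) = LinearMap.transvection
      ((g : E (d + 1) →ₗ[ℝ] ℝ) - (EuclideanSpace.proj (0 : Fin (d + 1)) :
        E (d + 1) →L[ℝ] ℝ).toLinearMap) (e0 d) := by
    ext1 v
    rw [LinearMap.transvection.apply]
    exact hD v
  show LinearMap.det (D : E (d + 1) →ₗ[ℝ] E (d + 1)) = g (e0 d)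
  rw [h, LinearMap.transvection.det, LinearMap.sub_apply]
  have h0 : (EuclideanSpace.proj (0 : Fin (d + 1)) : E (d + 1) →L[ℝ] ℝ).toLinearMap (e0 d) = 1 := by
    simp [e0]
  rw [h0]
  show 1 + (g (e0 d) - 1) = g (e0 d)
  ring

end Pool.Agent.Q88.MF
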