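import Pool.Agent.Q88.MF.Stm

set_option autoImplicit false

open Set MeasureTheory Filter Topology
open scoped ContDiff ENNReal NNReal

namespace Pool.Agent.Q88.MF

theorem hom (h : S_coo) (h1 : S_bij) (h2 : S_lff) : S_hom := by
  intro d a ha
  have hinj : Function.Injective (F d a) := by
    intro x y hxy
    obtain ⟨x0, xs, xr, -⟩ := h d a x
    obtain ⟨y0, ys, yr, -⟩ := h d a y
    have hr : rho x = rho y := by rw [← xr, ← yr, hxy]
    have h0 : hh a (x 0) (rho x) = hh a (y 0) (rho x) := by
      rw [← x0, hxy, y0, hr]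
    have h0' : x 0 = y 0 := (h1 a (rho x) ha).1.injective h0
    ext i
    refine Fin.cases h0' (fun j => ?_) i
    rw [← xs j, ← ys j, hxy]
  have hsurj : Function.Surjective (F d a) := by
    intro y
    obtain ⟨s, hs⟩ := (h1 a (rho y) ha).2.1 (y 0)
    have hs' : hh a s (rho y) = y 0 := hs
    refine ⟨y + (s - y 0) • e0 d, ?_⟩
    obtain ⟨-, -, -, hy⟩ := h d a y
    obtain ⟨hy1, hy2⟩ := hy (s - y 0)
    unfold F
    rw [hy1, hy2, add_sub_cancel, hs', add_assoc, ← add_smul]
    simp
  obtain ⟨L, hL⟩ := h2 d a ha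
  have hcont : Continuous (F d a) := hL.continuous
  have hbd : ∀ s r : ℝ, |hh a s r - s| ≤ 1 := by
    intro s r
    obtain ⟨hm, -, hb, hz, hu⟩ := h1 a r ha
    by_cases hs : 1 ≤ |s|
    · rw [hb s hs, sub_self, abs_zero]
      exact zero_le_one
    · rw [not_le, abs_lt] at hs
      by_cases hs0 : 0 ≤ s
      · obtain ⟨u1, u2⟩ := hu s hs0 hs.2.le
        rw [abs_le]
        constructor <;> linarith
      · have e1 : hh a (-1) r = -1 := hb (-1) (by norm_num)
        have e2 : hh a (-1) r < hh a s r := hm hs.1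
        have e3 : hh a s r < hh a 0 r := hm (not_le.1 hs0)
        rw [abs_le]
        constructor <;> linarith
  have he0 : ‖e0 d‖ = 1 := by
    unfold e0
    simp
  have hnorm : ∀ x, ‖x‖ - 1 ≤ ‖F d a x‖ := by
    intro x
    have e1 : ‖F d a x - x‖ ≤ 1 := by
      unfold F
      rw [add_sub_cancel_left, norm_smul, he0, mul_one, Real.norm_eq_abs]
      exact hbd _ _
    have e2 := norm_sub_norm_le x (F d a x)
    rw [norm_sub_rev] at e2
    linarith
  have hprop : Tendsto (F d a) (cocompact (E (d + 1))) (cocompact (E (d + 1))) := by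
    rw [← Metric.cobounded_eq_cocompact, ← comap_norm_atTop, tendsto_comap_iff]
    refine tendsto_atTop_mono hnorm ?_
    exact tendsto_atTop_add_const_right _ (-1) tendsto_comap
  have hclosed : IsClosedMap (F d a) :=
    (isProperMap_iff_tendsto_cocompact.2 ⟨hcont, hprop⟩).isClosedMap
  exact ⟨(Equiv.ofBijective (F d a) ⟨hinj, hsurj⟩).toHomeomorphOfContinuousClosed hcont hclosed,
    fun x => rfl⟩

end Pool.Agent.Q88.MF
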