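import Pool.Agent.Q256.MP.Stm
import Pool.Agent.W276.GE.Poly

/-!
# Project MP (helper256), job JPK: `S_jpk`. Author of this file: helper222.
-/

set_option autoImplicit false

open Height NumberField Pool.Agent.W276.GE

noncomputable section

namespace Pool.Agent.Q222.MPJPK

open Pool.Agent.Q256.MP

/-! ### The binary forms -/

/-- the linear form with the coefficients `u` -/
def lf {n : ℕ} (u : Fin n → ℤ) : MvPolynomial (Fin n) ℤ :=
  ∑ j, MvPolynomial.C (u j) * MvPolynomial.X j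

theorem lf_hom {n : ℕ} (u : Fin n → ℤ) : (lf u).IsHomogeneous 1 := by
  refine MvPolynomial.IsHomogeneous.sum _ _ _ fun j _ => ?_
  have h := (MvPolynomial.isHomogeneous_C (Fin n) (u j)).mul (MvPolynomial.isHomogeneous_X ℤ j)
  rwa [zero_add] at h

theorem lf_eval {R : Type} [CommRing R] {n : ℕ} (u : Fin n → ℤ) (x : Fin n → R) :
    MvPolynomial.aeval x (lf u) = ∑ j, (u j : R) * x j := by
  rw [lf, map_sum]
  refine Finset.sum_congr rfl fun j _ => ?_
  rw [map_mul, MvPolynomial.aeval_X, MvPolynomial.aeval_C]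
  simp

/-- the form `(u X) ^ k (v X) ^ (d - k)` -/
def bp {n : ℕ} (d : ℕ) (u v : Fin n → ℤ) (k : Fin (d + 1)) : MvPolynomial (Fin n) ℤ :=
  lf u ^ (k : ℕ) * lf v ^ (d - k)

theorem bp_hom {n : ℕ} (d : ℕ) (u v : Fin n → ℤ) (k : Fin (d + 1)) : (bp d u v k).IsHomogeneous d := by
  have h := ((lf_hom u).pow (k : ℕ)).mul ((lf_hom v).pow (d - k))
  rw [one_mul, one_mul] at h
  have e : (k : ℕ) + (d - k) = d := by
    have := k.2
    omega
  rwa [e] at h

/-- its coefficients -/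
def bc {n : ℕ} (d : ℕ) (u v : Fin n → ℤ) (k : Fin (d + 1)) : E n d → ℤ := cf d (bp d u v k)

theorem bc_ev {R : Type} [CommRing R] {n : ℕ} (d : ℕ) (u v : Fin n → ℤ) (k : Fin (d + 1)) (x : Fin n → R) :
    ev (bc d u v k) x = (∑ j, (u j : R) * x j) ^ (k : ℕ) * (∑ j, (v j : R) * x j) ^ (d - k) := by
  rw [bc, ← aeval_eq_ev (bp_hom d u v k), bp, map_mul, map_pow, map_pow, lf_eval, lf_eval]

/-- the form attached to a polynomial in one variable -/
def gf {n : ℕ} (d : ℕ) (u v : Fin n → ℤ) (g : Fin (d + 1) → ℤ) : E n d → ℤ := ∑ k, g k • bc d u v k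

theorem gf_ev {n : ℕ} (d : ℕ) (u v : Fin n → ℤ) (g : Fin (d + 1) → ℤ) (x : Fin n → ℂ)
    (hv : ∑ j, (v j : ℂ) * x j ≠ 0) :
    ev (gf d u v g) x = (∑ j, (v j : ℂ) * x j) ^ d *
      ∑ k, (g k : ℂ) * ((∑ j, (u j : ℂ) * x j) / ∑ j, (v j : ℂ) * x j) ^ (k : ℕ) := by
  rw [gf, ev_sum, Finset.mul_sum]
  refine Finset.sum_congr rfl fun k _ => ?_
  rw [ev_zsmul, bc_ev]
  have e : (∑ j, (v j : ℂ) * x j) ^ d = (∑ j, (v j : ℂ) * x j) ^ (k : ℕ) * (∑ j, (v j : ℂ) * x j) ^ (d - k) := by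
    rw [← pow_add]
    congr 1
    have := k.2
    omega
  rw [e, div_pow]
  field_simp

/-- a bound for the coefficients -/
theorem bc_bound (n d R : ℕ) : ∃ B : ℕ, ∀ u v : Fin n → ℤ, (∀ j, |u j| ≤ (R : ℤ)) → (∀ j, |v j| ≤ (R : ℤ)) →
    ∀ k α, |bc d u v k α| ≤ (B : ℤ) := by
  classical
  obtain ⟨S, hS⟩ : ∃ S : Finset (Fin n → ℤ), ∀ u : Fin n → ℤ, (∀ j, |u j| ≤ (R : ℤ)) → u ∈ S := by
    refine ⟨Fintype.piFinset fun _ => Finset.Icc (-(R : ℤ)) R, fun u hu => ?_⟩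
    rw [Fintype.mem_piFinset]
    intro j
    rw [Finset.mem_Icc]
    exact abs_le.1 (hu j)
  refine ⟨∑ u ∈ S, ∑ v ∈ S, ∑ k, ∑ α, (bc d u v k α).natAbs, fun u v hu hv k α => ?_⟩
  rw [Int.abs_eq_natAbs]
  norm_cast
  calc (bc d u v k α).natAbs ≤ ∑ α, (bc d u v k α).natAbs :=
        Finset.single_le_sum (f := fun α => (bc d u v k α).natAbs) (fun _ _ => Nat.zero_le _) (Finset.mem_univ α)
    _ ≤ ∑ k, ∑ α, (bc d u v k α).natAbs :=
        Finset.single_le_sum (f := fun k => ∑ α, (bc d u v k α).natAbs) (fun _ _ => Nat.zero_le _)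
          (Finset.mem_univ k)
    _ ≤ ∑ v ∈ S, ∑ k, ∑ α, (bc d u v k α).natAbs :=
        Finset.single_le_sum (f := fun v => ∑ k, ∑ α, (bc d u v k α).natAbs) (fun _ _ => Nat.zero_le _) (hS v hv)
    _ ≤ _ :=
        Finset.single_le_sum (f := fun u => ∑ v ∈ S, ∑ k, ∑ α, (bc d u v k α).natAbs)
          (fun _ _ => Nat.zero_le _) (hS u hu)

theorem gf_box {n d B H : ℕ} {u v : Fin n → ℤ} (hB : ∀ k α, |bc d u v k α| ≤ (B : ℤ))
    {g : Fin (d + 1) → ℤ} (hg : ∀ k, |g k| ≤ (H : ℤ)) : gf d u v g ∈ box n d ((d + 1) * B * H) := by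
  rw [mem_box]
  intro α
  rw [gf, Finset.sum_apply]
  calc |∑ k, (g k • bc d u v k) α| ≤ ∑ k, |(g k • bc d u v k) α| := Finset.abs_sum_le_sum_abs _ _
    _ ≤ ∑ _k : Fin (d + 1), (H : ℤ) * B := by
        refine Finset.sum_le_sum fun k _ => ?_
        rw [Pi.smul_apply, smul_eq_mul, abs_mul]
        exact mul_le_mul (hg k) (hB k α) (abs_nonneg _) (by positivity)
    _ = (((d + 1) * B * H : ℕ) : ℤ) := by
        rw [Finset.sum_const, Finset.card_univ, Fintype.card_fin, nsmul_eq_mul]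
        push_cast
        ring

/-! ### Counting -/

/-- the polynomials in one variable with bounded coefficients -/
def pb (d T : ℕ) : Finset (Fin (d + 1) → ℤ) := Fintype.piFinset fun _ => Finset.Icc (-(T : ℤ)) T

theorem mem_pb {d T : ℕ} {g : Fin (d + 1) → ℤ} : g ∈ pb d T ↔ ∀ k, |g k| ≤ (T : ℤ) := by
  simp only [pb, Fintype.mem_piFinset, Finset.mem_Icc, abs_le]

theorem card_pb (d T : ℕ) : (pb d T).card = (2 * T + 1) ^ (d + 1) := by
  rw [pb, Fintype.card_piFinset]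
  simp only [Int.card_Icc, Finset.prod_const, Finset.card_univ, Fintype.card_fin]
  congr 1
  omega

/-- the values at the `x i` -/
def vl {m d : ℕ} (x : Fin m → ℂ) (g : Fin (d + 1) → ℤ) : Fin m → ℂ := fun i => ∑ k, (g k : ℂ) * x i ^ (k : ℕ)

/-- the number of polynomials which vanish at the `x i` -/
def zn {m : ℕ} (d H : ℕ) (x : Fin m → ℂ) : ℕ :=
  {g : Fin (d + 1) → ℤ | (∀ k, |g k| ≤ 2 * (H : ℤ)) ∧ ∀ i, ∑ k, (g k : ℂ) * x i ^ (k : ℕ) = 0}.ncard

theorem zn_finite {m : ℕ} (d H : ℕ) (x : Fin m → ℂ) :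
    {g : Fin (d + 1) → ℤ | (∀ k, |g k| ≤ 2 * (H : ℤ)) ∧ ∀ i, ∑ k, (g k : ℂ) * x i ^ (k : ℕ) = 0}.Finite := by
  refine (pb d (2 * H)).finite_toSet.subset ?_
  rintro g ⟨hg, -⟩
  rw [Finset.mem_coe, mem_pb]
  intro k
  push_cast
  exact hg k

theorem fibre {m : ℕ} (d H : ℕ) (x : Fin m → ℂ) :
    (2 * H + 1) ^ (d + 1) ≤ zn d H x * ((pb d H).image (vl x)).card := by
  classical
  rw [← card_pb]
  refine Finset.card_le_mul_card_image (pb d H) (zn d H x) fun a ha => ?_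
  obtain ⟨g₀, hg₀, rfl⟩ := Finset.mem_image.1 ha
  rw [zn, ← Set.ncard_coe_finset]
  refine Set.ncard_le_ncard_of_injOn (fun g => g - g₀) ?_ ?_ (zn_finite d H x)
  · intro g hg
    rw [Finset.mem_coe, Finset.mem_filter] at hg
    obtain ⟨h1, h2⟩ := hg
    refine ⟨fun k => ?_, fun i => ?_⟩
    · have e1 := mem_pb.1 h1 k
      have e2 := mem_pb.1 hg₀ k
      rw [Pi.sub_apply]
      calc |g k - g₀ k| ≤ |g k| + |g₀ k| := abs_sub _ _
        _ ≤ 2 * (H : ℤ) := by omega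
    · have h3 := congrFun h2 i
      simp only [vl] at h3
      simp only [Pi.sub_apply, Int.cast_sub, sub_mul, Finset.sum_sub_distrib, h3, sub_self]
  · intro g _ g' _ h
    exact sub_left_injective h

theorem nzj_finite {m n : ℕ} (z : Fin m → Fin n → ℂ) (d T : ℕ) :
    {g : E n d → ℤ | g ∈ box n d T ∧ ∀ i, ev g (z i) = 0}.Finite :=
  (box n d T).finite_toSet.subset fun _ hg => hg.1

/-- the forms `gf g + h` are different -/
theorem pack {m n d B H : ℕ} {u v : Fin n → ℤ} (hB : ∀ k α, |bc d u v k α| ≤ (B : ℤ))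
    (z : Fin m → Fin n → ℂ) (hv : ∀ i, ∑ j, (v j : ℂ) * z i j ≠ 0) :
    ((pb d H).image (vl fun i => (∑ j, (u j : ℂ) * z i j) / ∑ j, (v j : ℂ) * z i j)).card * nzj z d (2 * H) ≤
      (2 * (((d + 1) * B + 2) * H) + 1) ^ Fintype.card (E n d) := by
  classical
  obtain ⟨x, hx⟩ : ∃ x : Fin m → ℂ, x = fun i => (∑ j, (u j : ℂ) * z i j) / ∑ j, (v j : ℂ) * z i j := ⟨_, rfl⟩
  rw [← hx, ← card_box]
  obtain ⟨Z, hZ⟩ : ∃ Z : Finset (E n d → ℤ), ∀ g, g ∈ Z ↔ g ∈ box n d (2 * H) ∧ ∀ i, ev g (z i) = 0 :=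
    ⟨(nzj_finite z d (2 * H)).toFinset, fun g => by rw [Set.Finite.mem_toFinset]; rfl⟩
  have hZc : nzj z d (2 * H) = Z.card := by
    rw [nzj, ← Set.ncard_coe_finset]
    congr 1
    ext g
    rw [Finset.mem_coe, hZ]
    rfl
  have hch : ∀ a ∈ (pb d H).image (vl x), ∃ g ∈ pb d H, vl x g = a := fun a ha => Finset.mem_image.1 ha
  choose! s hs1 hs2 using hch
  rw [hZc, ← Finset.card_product]
  refine Finset.card_le_card_of_injOn (fun p => gf d u v (s p.1) + p.2) ?_ ?_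
  · intro p hp
    rw [Finset.mem_coe, Finset.mem_product] at hp
    obtain ⟨h1, h2⟩ := hp
    have h3 := mem_box.1 (gf_box hB (mem_pb.1 (hs1 _ h1)))
    have h4 := mem_box.1 ((hZ _).1 h2).1
    rw [Finset.mem_coe, mem_box]
    intro α
    change |gf d u v (s p.1) α + p.2 α| ≤ _
    refine (abs_add_le _ _).trans ?_
    have h5 := h3 α
    have h6 := h4 α
    push_cast at h5 h6 ⊢
    linarith
  · intro p hp q hq hpq
    rw [Finset.mem_coe, Finset.mem_product] at hp hq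
    obtain ⟨h1, h2⟩ := hp
    obtain ⟨h3, h4⟩ := hq
    have hval : vl x (s p.1) = vl x (s q.1) := by
      funext i
      have h5 := congrArg (fun g => ev g (z i)) hpq
      simp only [ev_add, ((hZ _).1 h2).2 i, ((hZ _).1 h4).2 i, add_zero] at h5
      rw [gf_ev d u v _ _ (hv i), gf_ev d u v _ _ (hv i)] at h5
      have h6 := mul_left_cancel₀ (pow_ne_zero d (hv i)) h5
      rw [hx]
      exact h6
    have e1 : p.1 = q.1 := by rw [← hs2 _ h1, ← hs2 _ h3, hval]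
    refine Prod.ext e1 ?_
    simp only [e1] at hpq
    exact add_left_cancel hpq

/-! ### The theorem -/

theorem alg {K : Type} [Field K] [NumberField K] (φ : K →+* ℂ) (y : K) : IsAlgebraic ℚ (φ y) := by
  have h := Algebra.IsAlgebraic.isAlgebraic (R := ℚ) y
  exact h.algHom φ.toRatAlgHom

/-- the numerical part -/
theorem final (M m d : ℕ) (H Y C₂ B₁ nz vals zn : ℝ) (hH : 1 ≤ H) (hY : 0 ≤ Y) (hnz : 0 ≤ nz)
    (hzn : 0 ≤ zn) (hB : 0 ≤ B₁) (hm : m ≤ d + 1) (hM : d + 1 ≤ M)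
    (h1 : (2 * H + 1) ^ (d + 1) ≤ zn * vals) (h2 : vals * nz ≤ (B₁ * H) ^ M)
    (h3 : zn * Y ^ (d + 1 - m) ≤ C₂ * H ^ (d + 1 - m)) :
    nz * Y ^ (d + 1 - m) ≤ C₂ * B₁ ^ M * H ^ (M - m) := by
  have hH0 : 0 < H := by linarith
  have e1 : H ^ (d + 1) ≤ zn * vals := (pow_le_pow_left₀ hH0.le (by linarith) _).trans h1
  have e2 : nz * Y ^ (d + 1 - m) * H ^ (d + 1) ≤ (C₂ * B₁ ^ M * H ^ (M - m)) * H ^ (d + 1) := by
    calc nz * Y ^ (d + 1 - m) * H ^ (d + 1) ≤ nz * Y ^ (d + 1 - m) * (zn * vals) :=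
          mul_le_mul_of_nonneg_left e1 (by positivity)
      _ = (vals * nz) * (zn * Y ^ (d + 1 - m)) := by ring
      _ ≤ (B₁ * H) ^ M * (C₂ * H ^ (d + 1 - m)) :=
          mul_le_mul h2 h3 (by positivity) (by positivity)
      _ = (C₂ * B₁ ^ M * H ^ (M - m)) * H ^ (d + 1) := by
          have e3 : H ^ M = H ^ (M - m) * H ^ m := by
            rw [← pow_add]
            congr 1
            omega
          have e4 : H ^ (d + 1) = H ^ m * H ^ (d + 1 - m) := by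
            rw [← pow_add]
            congr 1
            omega
          rw [mul_pow, e3, e4]
          ring
  exact le_of_mul_le_mul_right e2 (by positivity)

theorem jpk (h1 : S_bin) (h2 : S_proj) (h3 : S_vdim) : S_jpk := by
  intro N D m d hN hD hm hmd
  obtain ⟨R, C₁, hC₁, hproj⟩ := h2 N D m
  obtain ⟨C₂, hC₂, hbin⟩ := h1 D m d hD hm hmd
  obtain ⟨B, hB⟩ := bc_bound (N + 1) d R
  obtain ⟨M, hM⟩ : ∃ M, M = MM N d := ⟨_, rfl⟩
  have hMd : d + 1 ≤ M := by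
    rw [hM, MM, card_E, Nat.choose_symm_add]
    calc d + 1 = (1 + d).choose d := by rw [add_comm 1 d, Nat.choose_succ_self_right]
      _ ≤ (N + d).choose d := Nat.choose_le_choose d (by omega)
  obtain ⟨C', hC'⟩ : ∃ C' : ℝ, C' = max 1 C₁ := ⟨_, rfl⟩
  have hC'1 : 1 ≤ C' := hC' ▸ le_max_left _ _
  have hC'2 : C₁ ≤ C' := hC' ▸ le_max_right _ _
  obtain ⟨B₁, hB₁⟩ : ∃ B₁ : ℝ, B₁ = 2 * ((d + 1) * B + 2) + 1 := ⟨_, rfl⟩
  have hB₁0 : 0 ≤ B₁ := by rw [hB₁]; positivity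
  refine ⟨C' ^ (d + 1 - m) * (5 ^ (M - m) + C₂ * B₁ ^ M), by positivity, ?_⟩
  intro H hH Y hY hYH z hz hz1 ⟨i₀, K, hK1, hK2, φ, P, hKD, hP, hPY, hzP⟩
  have hHR : (1 : ℝ) ≤ H := by exact_mod_cast hH
  rw [← hM]
  obtain ⟨u, v, hu, hv, hvz, hinj, hht⟩ := hproj z hz i₀ K φ P hKD hP hzP
  obtain ⟨ξ, hξ⟩ : ∃ ξ, ξ = (∑ j, (u j : K) * P j) / ∑ j, (v j : K) * P j := ⟨_, rfl⟩
  rw [← hξ] at hht
  rcases le_or_gt Y C' with hYC | hYC
  · -- small `Y`
    have e1 := h3 (N + 1) d m (2 * H) hmd z hz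
    have e2 : (nzj z d (2 * H) : ℝ) ≤ (5 * H) ^ (M - m) := by
      calc (nzj z d (2 * H) : ℝ) ≤ (((2 * (2 * H) + 1) ^ (Fintype.card (E (N + 1) d) - m) : ℕ) : ℝ) := by
            exact_mod_cast e1
        _ ≤ (5 * H) ^ (M - m) := by
            push_cast
            rw [hM]
            exact pow_le_pow_left₀ (by positivity) (by linarith) _
    calc (nzj z d (2 * H) : ℝ) * Y ^ (d + 1 - m) ≤ (5 * H) ^ (M - m) * C' ^ (d + 1 - m) :=
          mul_le_mul e2 (pow_le_pow_left₀ (by linarith) hYC _) (by positivity) (by positivity)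
      _ = C' ^ (d + 1 - m) * (5 ^ (M - m)) * (H : ℝ) ^ (M - m) := by
          rw [mul_pow]
          ring
      _ ≤ C' ^ (d + 1 - m) * (5 ^ (M - m) + C₂ * B₁ ^ M) * (H : ℝ) ^ (M - m) := by
          refine mul_le_mul_of_nonneg_right (mul_le_mul_of_nonneg_left ?_ (by positivity)) (by positivity)
          have : 0 ≤ C₂ * B₁ ^ M := by positivity
          linarith
  · -- large `Y`
    have hC'0 : 0 < C' := by linarith
    have hY1 : 1 ≤ Y / C' := by
      rw [le_div_iff₀ hC'0]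
      linarith
    have hY2 : Y / C' ≤ H := by
      refine (div_le_self (by linarith) hC'1).trans hYH
    have hξY : (Y / C') ^ (2 * D) ≤ mulHeight₁ ξ := by
      have e1 : (Y ^ (2 * D)) ^ (N + 1) ≤ (C' ^ (2 * D) * mulHeight₁ ξ) ^ (N + 1) := by
        calc (Y ^ (2 * D)) ^ (N + 1) = Y ^ (2 * D * (N + 1)) := (pow_mul Y (2 * D) (N + 1)).symm
          _ ≤ mulHeight P := hPY
          _ ≤ C₁ * mulHeight₁ ξ ^ (N + 1) := hht
          _ ≤ (C' ^ (2 * D)) ^ (N + 1) * mulHeight₁ ξ ^ (N + 1) := by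
              refine mul_le_mul_of_nonneg_right ?_ (pow_nonneg (mulHeight₁_pos ξ).le _)
              rw [← pow_mul]
              exact hC'2.trans (le_self_pow₀ hC'1 (by positivity))
          _ = _ := by rw [mul_pow]
      have e2 := le_of_pow_le_pow_left₀ (Nat.succ_ne_zero N)
        (mul_nonneg (by positivity) (mulHeight₁_pos ξ).le) e1
      rw [div_pow, div_le_iff₀ (by positivity)]
      linarith
    have hφξ : φ ξ = (∑ j, (u j : ℂ) * z i₀ j) / ∑ j, (v j : ℂ) * z i₀ j := by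
      rw [hξ, hzP, map_div₀, map_sum, map_sum]
      simp only [map_mul, map_intCast]
    have halg : ∀ i, IsAlgebraic ℚ ((∑ j, (u j : ℂ) * z i j) / ∑ j, (v j : ℂ) * z i j) := by
      intro i
      obtain ⟨K', hK'1, hK'2, φ', P', -, -, -, hzP'⟩ := hz1 i
      have e : (∑ j, (u j : ℂ) * z i j) / ∑ j, (v j : ℂ) * z i j =
          φ' ((∑ j, (u j : K') * P' j) / ∑ j, (v j : K') * P' j) := by
        rw [hzP', map_div₀, map_sum, map_sum]
        simp only [map_mul, map_intCast]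
      rw [e]
      exact alg φ' _
    have e1 := hbin H hH (Y / C') hY1 hY2 _ hinj halg i₀ K φ ξ hKD hφξ hξY
    have e2 := fibre d H (fun i => (∑ j, (u j : ℂ) * z i j) / ∑ j, (v j : ℂ) * z i j)
    have e3 := pack (H := H) (hB u v hu hv) z hvz
    have e2' : (2 * (H : ℝ) + 1) ^ (d + 1) ≤
        (zn d H (fun i => (∑ j, (u j : ℂ) * z i j) / ∑ j, (v j : ℂ) * z i j) : ℝ) *
        (((pb d H).image (vl fun i => (∑ j, (u j : ℂ) * z i j) / ∑ j, (v j : ℂ) * z i j)).card : ℝ) := by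
      exact_mod_cast e2
    have e3' : (((pb d H).image (vl fun i => (∑ j, (u j : ℂ) * z i j) / ∑ j, (v j : ℂ) * z i j)).card : ℝ) *
        (nzj z d (2 * H) : ℝ) ≤ (B₁ * H) ^ M := by
      calc (((pb d H).image (vl fun i => (∑ j, (u j : ℂ) * z i j) / ∑ j, (v j : ℂ) * z i j)).card : ℝ) *
          (nzj z d (2 * H) : ℝ) ≤ (((2 * (((d + 1) * B + 2) * H) + 1) ^ Fintype.card (E (N + 1) d) : ℕ) : ℝ) := by
            exact_mod_cast e3
        _ ≤ (B₁ * H) ^ M := by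
            push_cast
            rw [hM, hB₁]
            refine pow_le_pow_left₀ (by positivity) ?_ _
            nlinarith
    have e4 := final M m d H (Y / C') C₂ B₁ _ _ _ hHR (by linarith) (Nat.cast_nonneg _)
      (Nat.cast_nonneg _) hB₁0 hmd hMd e2' e3' e1
    calc (nzj z d (2 * H) : ℝ) * Y ^ (d + 1 - m) =
          C' ^ (d + 1 - m) * ((nzj z d (2 * H) : ℝ) * (Y / C') ^ (d + 1 - m)) := by
          rw [div_pow]
          field_simp
      _ ≤ C' ^ (d + 1 - m) * (C₂ * B₁ ^ M * (H : ℝ) ^ (M - m)) :=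
          mul_le_mul_of_nonneg_left e4 (by positivity)
      _ = C' ^ (d + 1 - m) * (C₂ * B₁ ^ M) * (H : ℝ) ^ (M - m) := by ring
      _ ≤ C' ^ (d + 1 - m) * (5 ^ (M - m) + C₂ * B₁ ^ M) * (H : ℝ) ^ (M - m) := by
          refine mul_le_mul_of_nonneg_right (mul_le_mul_of_nonneg_left ?_ (by positivity)) (by positivity)
          have : (0 : ℝ) ≤ 5 ^ (M - m) := by positivity
          linarith

end Pool.Agent.Q222.MPJPK
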