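import Pool.Agent.Q88.MT.Stm2

/-! Project MT, job COE -/

set_option autoImplicit false

open Set Filter Topology
open scoped InnerProductSpace ENNReal NNReal

noncomputable section

namespace Pool.Agent.Q222.MT_COE

open Pool.Agent.Q88.MT

/-- the Hilbert space of square summable families -/
abbrev HH (n : ℕ) := lp (fun _ : X n => ℂ) 2

theorem memp {n : ℕ} {u : X n → ℂ} (h : Sq u) : Memℓp u 2 := by
  apply memℓp_gen
  have h2 : Summable fun x => ‖u x‖ ^ 2 := h
  simpa using h2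

theorem sqf {n : ℕ} (f : HH n) : Sq (f : X n → ℂ) := by
  have h1 := (lp.memℓp f).summable (by norm_num)
  have h2 : Summable fun x => ‖(f : X n → ℂ) x‖ ^ 2 := by simpa using h1
  exact h2

theorem nnf {n : ℕ} (f : HH n) : nn (f : X n → ℂ) = ‖f‖ := by
  rw [lp.norm_eq_tsum_rpow (by norm_num)]
  simp [nn, Real.sqrt_eq_rpow]

/-- the closed subspace -/
def SS (n : ℕ) (b : Bool) : Submodule ℂ (HH n) where
  carrier := {f | ∀ (π : Equiv.Perm (Fin n)) (x : X n),
    (f : X n → ℂ) (fun j => x (π j)) = chi b π * (f : X n → ℂ) x}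
  add_mem' := by
    intro f g hf hg π x
    have h1 := hf π x
    have h2 := hg π x
    rw [lp.coeFn_add]
    simp only [Pi.add_apply]
    rw [h1, h2]
    ring
  zero_mem' := by
    intro π x
    rw [lp.coeFn_zero]
    simp
  smul_mem' := by
    intro c f hf π x
    have h1 := hf π x
    rw [lp.coeFn_smul]
    simp only [Pi.smul_apply, smul_eq_mul]
    rw [h1]
    ring

theorem closed (n : ℕ) (b : Bool) : IsClosed (SS n b : Set (HH n)) := by
  have h : (SS n b : Set (HH n)) = ⋂ (π : Equiv.Perm (Fin n)) (x : X n),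
      {f : HH n | (f : X n → ℂ) (fun j => x (π j)) = chi b π * (f : X n → ℂ) x} := by
    ext f
    simp only [Set.mem_iInter]
    rfl
  rw [h]
  refine isClosed_iInter fun π => isClosed_iInter fun x => isClosed_eq ?_ ?_
  · exact (lp.evalCLM ℂ (fun _ : X n => ℂ) 2 (fun j => x (π j))).continuous
  · exact continuous_const.mul (lp.evalCLM ℂ (fun _ : X n => ℂ) 2 x).continuous

instance (n : ℕ) (b : Bool) : CompleteSpace (SS n b) := (closed n b).completeSpace_coe

/-- elements of `M n b` as elements of the Hilbert space -/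
def mk {n : ℕ} {b : Bool} (u : X n → ℂ) (hu : u ∈ M n b) : SS n b := ⟨⟨u, memp hu.1⟩, hu.2⟩

theorem memM {n : ℕ} {b : Bool} (f : SS n b) : ((f : HH n) : X n → ℂ) ∈ M n b :=
  ⟨sqf _, f.2⟩

theorem T_zero {n : ℕ} {k : Fin n → ℤ} : T k (fun _ => 0) = fun _ => 0 := by
  funext y
  simp [T, W]

theorem memA (h2 : S_inv) {n : ℕ} {b : Bool} (k : Fin n → ℤ) (l : ℂ) (f : SS n b) :
    (fun y => T k ((f : HH n) : X n → ℂ) y - l * ((f : HH n) : X n → ℂ) y) ∈ M n b := by
  obtain ⟨i1, i2, i3⟩ := h2 n k b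
  have h := i3 _ (i1 _ (memM f)) _ (memM f) (-l)
  convert! h using 2
  ring

/-- the operator `T k - l` -/
def AA (h : S_bas) (h1 : S_bdd) (h2 : S_inv) {n : ℕ} (b : Bool) (k : Fin n → ℤ) (l : ℂ) :
    SS n b →L[ℂ] SS n b :=
  LinearMap.mkContinuous
    { toFun := fun f => mk _ (memA h2 k l f)
      map_add' := by
        intro f g
        apply Subtype.ext
        apply Subtype.ext
        funext y
        have e := congrFun ((h2 n k b).2.1 ((f : HH n) : X n → ℂ) ((g : HH n) : X n → ℂ) 1) y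
        simp only [one_mul] at e
        show T k (fun x => ((f : HH n) : X n → ℂ) x + ((g : HH n) : X n → ℂ) x) y
          - l * (((f : HH n) : X n → ℂ) y + ((g : HH n) : X n → ℂ) y) =
          (T k ((f : HH n) : X n → ℂ) y - l * ((f : HH n) : X n → ℂ) y) +
          (T k ((g : HH n) : X n → ℂ) y - l * ((g : HH n) : X n → ℂ) y)
        rw [e]
        ring
      map_smul' := by
        intro c f
        apply Subtype.ext
        apply Subtype.ext
        funext y
        have e := congrFun ((h2 n k b).2.1 (fun _ => 0) ((f : HH n) : X n → ℂ) c) y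
        simp only [zero_add, T_zero] at e
        show T k (fun x => c * ((f : HH n) : X n → ℂ) x) y
          - l * (c * ((f : HH n) : X n → ℂ) y) =
          c * (T k ((f : HH n) : X n → ℂ) y - l * ((f : HH n) : X n → ℂ) y)
        rw [e]
        ring } (1 + ‖l‖) (by
    intro f
    obtain ⟨b1, b2, b3, b4⟩ := h n
    have hf : ‖f‖ = nn ((f : HH n) : X n → ℂ) := (nnf _).symm
    have hm := h1 n k _ (memM f).1
    have e := (b2 (-l) _ (memM f).1)
    have e2 := (b1 _ _ hm.1 e.1).2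
    have e3 : ‖(mk _ (memA h2 k l f) : SS n b)‖ =
        nn (fun y => T k ((f : HH n) : X n → ℂ) y - l * ((f : HH n) : X n → ℂ) y) :=
      (nnf _).symm
    show ‖(mk _ (memA h2 k l f) : SS n b)‖ ≤ _
    rw [e3, hf]
    have e4 : (fun y => T k ((f : HH n) : X n → ℂ) y - l * ((f : HH n) : X n → ℂ) y) =
        fun x => T k ((f : HH n) : X n → ℂ) x + -l * ((f : HH n) : X n → ℂ) x := by
      funext y
      ring
    rw [e4]
    refine e2.trans ?_
    rw [e.2, norm_neg]
    nlinarith [hm.2])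

theorem AA_apply (h : S_bas) (h1 : S_bdd) (h2 : S_inv) {n : ℕ} (b : Bool) (k : Fin n → ℤ) (l : ℂ)
    (f : SS n b) : AA h h1 h2 b k l f = mk _ (memA h2 k l f) := rfl

theorem nn_sq {n : ℕ} (u : X n → ℂ) : nn u ^ 2 = ∑' x, ‖u x‖ ^ 2 :=
  Real.sq_sqrt (tsum_nonneg fun _ => by positivity)

theorem inner_AA (h : S_bas) (h1 : S_bdd) (h2 : S_inv) {n : ℕ} (b : Bool) (k : Fin n → ℤ) (l : ℂ)
    (f : SS n b)
    (hs : Summable (fun y => (starRingEnd ℂ) (((f : HH n) : X n → ℂ) y) *
      T k ((f : HH n) : X n → ℂ) y)) :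
    ⟪f, AA h h1 h2 b k l f⟫_ℂ = (∑' y, (starRingEnd ℂ) (((f : HH n) : X n → ℂ) y) *
      T k ((f : HH n) : X n → ℂ) y) - l * ((nn ((f : HH n) : X n → ℂ) ^ 2 : ℝ) : ℂ) := by
  rw [AA_apply, Submodule.coe_inner, lp.inner_eq_tsum]
  have hs2 : Summable (fun y => ((‖((f : HH n) : X n → ℂ) y‖ ^ 2 : ℝ) : ℂ)) :=
    Complex.ofRealCLM.summable (memM f).1
  rw [nn_sq, Complex.ofReal_tsum, ← tsum_mul_left, ← hs.tsum_sub (hs2.mul_left l)]
  congr 1
  funext y
  have e : (((mk _ (memA h2 k l f) : SS n b) : HH n) : X n → ℂ) y =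
    T k ((f : HH n) : X n → ℂ) y - l * ((f : HH n) : X n → ℂ) y := rfl
  rw [e, RCLike.inner_apply]
  have e5 : (starRingEnd ℂ) (((f : HH n) : X n → ℂ) y) * ((f : HH n) : X n → ℂ) y =
      ((‖((f : HH n) : X n → ℂ) y‖ ^ 2 : ℝ) : ℂ) := by
    rw [Complex.conj_mul']
    push_cast
    rfl
  rw [← e5]
  ring

/-- **COE** -/
theorem coe (h : S_bas) (h1 : S_bdd) (h2 : S_inv) (h3 : S_fou) : S_coe := by
  intro n k τ b hτ l hl
  by_contra hc
  -- the operator is bounded below in the sense of the numerical range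
  have hpos : ∃ c : ℝ, 0 < c ∧ ∀ f : SS n b,
      ‖f‖ ^ 2 * c ≤ ‖⟪AA h h1 h2 b k l f, f⟫_ℂ‖ := by
    by_cases him : l.im = 0
    · have hre : l.re < mu k := by
        by_contra h5
        exact hc ⟨him, not_lt.mp h5⟩
      refine ⟨mu k - l.re, sub_pos.mpr hre, fun f => ?_⟩
      obtain ⟨g1, g2, g3⟩ := h3 n k τ hτ _ (memM f).1
      refine le_of_le_of_eq ?_ (norm_inner_symm (𝕜 := ℂ) f (AA h h1 h2 b k l f))
      rw [inner_AA h h1 h2 b k l f g1]
      refine le_trans ?_ (Complex.re_le_norm _)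
      have hf : ‖f‖ = nn ((f : HH n) : X n → ℂ) := (nnf _).symm
      rw [Complex.sub_re, Complex.re_mul_ofReal, hf]
      nlinarith [g3]
    · refine ⟨|l.im|, abs_pos.mpr him, fun f => ?_⟩
      obtain ⟨g1, g2, g3⟩ := h3 n k τ hτ _ (memM f).1
      refine le_of_le_of_eq ?_ (norm_inner_symm (𝕜 := ℂ) f (AA h h1 h2 b k l f))
      rw [inner_AA h h1 h2 b k l f g1]
      refine le_trans ?_ (Complex.abs_im_le_norm _)
      have hf : ‖f‖ = nn ((f : HH n) : X n → ℂ) := (nnf _).symm
      rw [Complex.sub_im, Complex.im_mul_ofReal, g2, hf, zero_sub, abs_neg, abs_mul,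
        abs_of_nonneg (sq_nonneg (nn _))]
      rw [mul_comm]
  obtain ⟨c, hc0, hcf⟩ := hpos
  have hu := ContinuousLinearMap.isUnit_of_forall_le_norm_inner_map (AA h h1 h2 b k l)
    (c := c.toNNReal) (Real.toNNReal_pos.mpr hc0)
    (by rw [Real.coe_toNNReal c hc0.le]; exact hcf)
  rw [ContinuousLinearMap.isUnit_iff_bijective] at hu
  apply hl
  intro v hv
  obtain ⟨f, hf⟩ := hu.2 (mk v hv)
  refine ⟨((f : HH n) : X n → ℂ), ⟨memM f, ?_⟩, ?_⟩
  · have := congrArg (fun g : SS n b => ((g : HH n) : X n → ℂ)) hf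
    exact this
  · rintro u ⟨hu1, hu2⟩
    have e1 : AA h h1 h2 b k l (mk u hu1) = mk v hv := by
      apply Subtype.ext
      apply Subtype.ext
      exact hu2
    have e2 : mk u hu1 = f := hu.1 (e1.trans hf.symm)
    exact congrArg (fun g : SS n b => ((g : HH n) : X n → ℂ)) e2

end Pool.Agent.Q222.MT_COE
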