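import Pool.Agent.Q82.QD.Stm

/-!
Project QD (helper82), job MAIN2: the assembly of the sequences (port of Pool/Agent/Q82/QC/Main.lean).
-/

set_option autoImplicit false

open MeasureTheory Filter Topology Real InnerProductSpace Laplacian Set
open Pool.Agent.Q82.QC (E Om pp lg bd pot mol Ctl HolderConv S_MASS S_POT0 S_POT3 S_POTH S_POTL S_MOL
  S_MOLI)

namespace Pool.Agent.Q82.QD

theorem main2_contDiffAt_lap {f : E → ℝ} {x : E} (h : ∀ n : ℕ, ContDiffAt ℝ n f x) (n : ℕ) :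
    ContDiffAt ℝ n (Δ f) x := by
  have e : Δ f = fun y => ∑ i, iteratedFDeriv ℝ 2 f y ![EuclideanSpace.basisFun (Fin 4) ℝ i,
      EuclideanSpace.basisFun (Fin 4) ℝ i] := by
    funext y
    rw [laplacian_eq_iteratedFDeriv_orthonormalBasis f (EuclideanSpace.basisFun (Fin 4) ℝ)]
  rw [e]
  refine ContDiffAt.sum fun i _ => ?_
  have h2 : ContDiffAt ℝ n (iteratedFDeriv ℝ 2 f) x :=
    (h (n + 2)).iteratedFDeriv_right (by push_cast; exact le_rfl)
  exact ((ContinuousMultilinearMap.apply ℝ (fun _ : Fin 2 => E) ℝ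
    ![EuclideanSpace.basisFun (Fin 4) ℝ i, EuclideanSpace.basisFun (Fin 4) ℝ i]).contDiff.contDiffAt).comp
      x h2

theorem main2_lap_lap_add {f g : E → ℝ} {x : E} (hf : ∀ n : ℕ, ContDiffAt ℝ n f x)
    (hg : ∀ n : ℕ, ContDiffAt ℝ n g x) :
    Δ (Δ (fun y => f y + g y)) x = Δ (Δ f) x + Δ (Δ g) x := by
  have h1 : Δ (f + g) =ᶠ[𝓝 x] (Δ f) + (Δ g) := ContDiffAt.laplacian_add_nhds (hf 2) (hg 2)
  have h2 : Δ (Δ (f + g)) x = Δ (Δ f + Δ g) x := (laplacian_congr_nhds h1).eq_of_nhds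
  have h3 : Δ (Δ f + Δ g) x = Δ (Δ f) x + Δ (Δ g) x :=
    ContDiffAt.laplacian_add (main2_contDiffAt_lap hf 2) (main2_contDiffAt_lap hg 2)
  exact h2.trans h3

theorem main2_continuous_B {F : ℝ → ℝ} (hF : Continuous F) (N : ℝ) : Continuous (B F N) := by
  unfold B
  fun_prop

theorem main2_pp (x : E) (hx : x ∈ Om) : 8 ≤ ‖x - pp‖ := by
  have h1 : |(x - pp) 0| ≤ ‖x - pp‖ := by
    have := EuclideanSpace.norm_eq (x - pp)
    rw [← Real.norm_eq_abs]
    exact PiLp.norm_apply_le (x - pp) 0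
  have h2 : (x - pp) 0 = x 0 - 10 := by simp [pp]
  rw [h2] at h1
  have h3 := hx.2
  rw [abs_of_neg (by linarith)] at h1
  linarith

theorem main2_int_abs {C δ : ℝ} {g : E → ℝ} (h : Ctl C δ g) : ∫ x, |g x| ≤ δ := by
  obtain ⟨h1, h2, h3, _, h5⟩ := h
  refine le_trans (integral_mono ?_ ?_ ?_) h5
  · exact (h1.abs).integrable_of_hasCompactSupport (by simpa using h2.norm)
  · refine Continuous.integrable_of_hasCompactSupport (by fun_prop) ?_
    exact HasCompactSupport.mul_left (by simpa using h2.norm)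
  · intro x
    rcases eq_or_ne (g x) 0 with h0 | h0
    · simp [h0]
    · have hx : x ∈ Om := h3 (subset_tsupport g h0)
      have := main2_pp x hx
      nlinarith [abs_nonneg (g x)]

theorem main2_ball : Metric.ball (0 : E) (3 / 2) ⊆ Om := by
  intro x hx
  have h1 : |x 0| ≤ ‖x‖ := by
    rw [← Real.norm_eq_abs]
    exact PiLp.norm_apply_le x 0
  have h2 : ‖x‖ < 3 / 2 := by simpa using hx
  exact abs_lt.1 (by linarith)

theorem main2_ball' : Metric.ball x0 (1 / 2) ⊆ Metric.ball (0 : E) (3 / 2) := by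
  intro x hx
  have h1 : ‖x - x0‖ < 1 / 2 := by simpa [dist_eq_norm] using hx
  have h2 : ‖x0‖ = 1 := by simp [x0]
  have h3 : ‖x‖ ≤ ‖x - x0‖ + ‖x0‖ := by
    have := norm_add_le (x - x0) x0
    rwa [sub_add_cancel] at this
  have : ‖x‖ < 3 / 2 := by linarith
  simpa using this

theorem main2 (h1 : S_EXF) (h2 : S_DAT) (h3 : S_MM) (h4 : S_WL2) (h5 : S_POTL) (h6 : S_CTL2)
    (h7 : S_VOL2) (h8 : S_EPS2) (h9 : S_POT0) (h10 : S_CONV2) (h11 : S_CONC2) (h12 : S_VCONV2)
    (h13 : S_NSPH) (h14 : S_MOLI) : S_MAIN2 := by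
  obtain ⟨F, hP⟩ := h1
  obtain ⟨a, C0, hD⟩ := h2 F hP
  have ha : 0 < a := hD.2.1
  obtain ⟨C, hC, hctl⟩ := h6 F a C0 hD
  obtain ⟨δ, hδ, hpot⟩ := h9 C hC 1 one_pos
  obtain ⟨CV, hvol⟩ := h7 F a C0 hD
  obtain ⟨N0, hN0⟩ := Filter.eventually_atTop.1 ((hctl δ hδ).and hvol)
  set N : ℕ → ℝ := fun k => max N0 1 + k with hN
  have hNN : ∀ k, N0 ≤ N k := fun k =>
    (le_max_left N0 1).trans (le_add_of_nonneg_right (Nat.cast_nonneg k))
  have hN1 : ∀ k, 1 ≤ N k := fun k =>
    (le_max_right N0 1).trans (le_add_of_nonneg_right (Nat.cast_nonneg k))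
  have hNp : ∀ k, 0 < N k := fun k => lt_of_lt_of_le one_pos (hN1 k)
  have hNt : Tendsto N atTop atTop :=
    tendsto_atTop_add_const_left _ _ tendsto_natCast_atTop_atTop
  have hctlk : ∀ k, Ctl C δ (gg F a (N k)) := fun k => (hN0 (N k) (hNN k)).1
  have hctle : ∀ δ' : ℝ, 0 < δ' → ∀ᶠ k in atTop, Ctl C δ' (gg F a (N k)) := fun δ' h' =>
    hNt.eventually (hctl δ' h')
  have hgc : ∀ k, Continuous (gg F a (N k)) := fun k => (hctlk k).1
  have hgs : ∀ k, HasCompactSupport (gg F a (N k)) := fun k => (hctlk k).2.1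
  have hex : ∀ k : ℕ, ∃ e : ℝ, 0 < e ∧ e ≤ 1 ∧ ∀ x : E, ‖x‖ ≤ 3 / 2 →
      |mol e (gg F a (N k)) x - gg F a (N k) x| ≤
        1 / ((k : ℝ) + 1) * (6 * Real.exp (4 * W F a (N k) x)) := fun k =>
    h8 F hP a (N k) (hNp k) (hgc k) (hgs k) _ (by positivity)
  choose e he0 he1 hee using hex
  set u : ℕ → E → ℝ := fun k x => W F a (N k) x + pot (e k) (gg F a (N k)) x with hu
  set V : ℕ → E → ℝ := fun k x => (B F (N k) x + mol (e k) (gg F a (N k)) x) *
    Real.exp (-(4 * (W F a (N k) x + pot (e k) (gg F a (N k)) x))) with hV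
  have hVu : ∀ k x, V k x * Real.exp (4 * u k x) = B F (N k) x + mol (e k) (gg F a (N k)) x := by
    intro k x
    simp only [hV, hu]
    rw [mul_assoc, ← Real.exp_add, neg_add_cancel, Real.exp_zero, mul_one]
  have hWc : ∀ k, ∀ n : ℕ, ContDiff ℝ n (W F a (N k)) := fun k => (h4 F hP a (N k) (hNp k)).1
  have hWs : ∀ k, ∀ x : E, ∀ n : ℕ, ContDiffAt ℝ n (W F a (N k)) x := fun k x n =>
    (hWc k n).contDiffAt
  have hPs : ∀ k, ∀ x ∈ Om, ∀ n : ℕ, ContDiffAt ℝ n (pot (e k) (gg F a (N k))) x := fun k x hx =>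
    (h5 (e k) _ (he0 k) (hgc k) (hgs k) x hx).1
  have hus : ∀ k, ∀ x ∈ Om, ∀ n : ℕ, ContDiffAt ℝ n (u k) x := fun k x hx n =>
    (hWs k x n).add (hPs k x hx n)
  have huc : ∀ k, ContinuousOn (u k) (Metric.ball 0 (3 / 2)) := fun k x hx =>
    ((hus k x (main2_ball hx) 0).continuousAt).continuousWithinAt
  have hmc : ∀ k, Continuous (mol (e k) (gg F a (N k))) := fun k =>
    (h14 (e k) _ (he0 k) (hgc k) (hgs k)).1
  have hBm : ∀ k, Continuous fun x => B F (N k) x + mol (e k) (gg F a (N k)) x := fun k =>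
    (main2_continuous_B hP.1 (N k)).add (hmc k)
  have hVc : ∀ k, ContinuousOn (V k) (Metric.ball 0 (3 / 2)) := by
    intro k
    refine (hBm k).continuousOn.mul ?_
    exact Real.continuous_exp.comp_continuousOn ((continuousOn_const.mul (huc k)).neg)
  have hVunif : TendstoUniformlyOn V (fun _ => 6) atTop (Metric.ball 0 (3 / 2)) :=
    h12 F a ha N e hNt (fun k => ⟨he0 k, he1 k⟩) ⟨C, hC, hctle⟩ (fun k x hx => hee k x hx)
  have hconc := h11 F hP N e (fun k => gg F a (N k)) (fun k x => V k x * Real.exp (4 * u k x))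
    hNp hNt he0 (fun k => ⟨hgc k, hgs k⟩) (by
      rw [Metric.tendsto_atTop]
      intro η hη
      obtain ⟨M, hM⟩ := Filter.eventually_atTop.1 (hctle (η / 2) (by linarith))
      refine ⟨M, fun k hk => ?_⟩
      have h1 := main2_int_abs (hM k hk)
      have h2 : 0 ≤ ∫ x, |gg F a (N k) x| := integral_nonneg fun x => abs_nonneg _
      rw [Real.dist_eq, sub_zero, abs_of_nonneg h2]
      linarith) (fun k x _ => hVu k x)
  have hbt : Tendsto (fun k => bet a (N k)) atTop atTop := by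
    refine tendsto_atTop_mono (fun k => ?_) (hNt.const_mul_atTop (show 0 < a / 4 by positivity))
    have h1 : N k ≤ (N k ^ 5) ^ 2 := by
      rw [← pow_mul]
      exact le_self_pow₀ (hN1 k) (by norm_num)
    unfold bet
    nlinarith
  refine ⟨V, u, fun k => bet a (N k), mm F, hVc, hVunif, ?_, ?_, ?_, (h3 F hP).2.1, hconc.1, hconc.2,
    hbt, ?_, ?_⟩
  · intro k n x hx
    exact (hus k x (main2_ball hx) n).contDiffWithinAt
  · intro k x hx
    rw [hVu]
    have := main2_lap_lap_add (hWs k x) (hPs k x (main2_ball hx))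
    rw [hu]
    rw [this, (h4 F hP a (N k) (hNp k)).2, (h5 (e k) _ (he0 k) (hgc k) (hgs k) x (main2_ball hx)).2]
  · refine ⟨Real.exp 4 * CV, fun k => ?_⟩
    have hle := (hN0 (N k) (hNN k)).2
    have hm : MeasurableSet (Metric.ball (0 : E) (3 / 2)) := Metric.isOpen_ball.measurableSet
    have hi : IntegrableOn (fun x => Real.exp (4 * W F a (N k) x)) (Metric.ball (0 : E) (3 / 2)) := by
      have hc : Continuous fun x => Real.exp (4 * W F a (N k) x) :=
        Real.continuous_exp.comp (continuous_const.mul (hWc k 0).continuous)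
      exact (hc.continuousOn.integrableOn_compact (isCompact_closedBall (0 : E) (3 / 2))).mono_set
        Metric.ball_subset_closedBall
    have hb2 : ∀ x ∈ Metric.ball (0 : E) (3 / 2),
        Real.exp (4 * u k x) ≤ Real.exp 4 * Real.exp (4 * W F a (N k) x) := by
      intro x hx
      rw [← Real.exp_add]
      apply Real.exp_le_exp.2
      have := (abs_le.1 (hpot (e k) _ (he0 k) (he1 k) (hctlk k) x (main2_ball hx))).2
      simp only [hu]
      linarith
    have hI : IntegrableOn (fun x => Real.exp (4 * u k x)) (Metric.ball (0 : E) (3 / 2)) := by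
      refine Integrable.mono' (hi.const_mul (Real.exp 4)) ?_ ?_
      · exact (Real.continuous_exp.comp_continuousOn
          (continuousOn_const.mul (huc k))).aestronglyMeasurable hm
      · refine (ae_restrict_iff' hm).2 (Eventually.of_forall fun x hx => ?_)
        rw [Real.norm_eq_abs, abs_of_pos (Real.exp_pos _)]
        exact hb2 x hx
    refine ⟨hI, ?_⟩
    calc ∫ x in Metric.ball (0 : E) (3 / 2), Real.exp (4 * u k x)
        ≤ ∫ x in Metric.ball (0 : E) (3 / 2), Real.exp 4 * Real.exp (4 * W F a (N k) x) :=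
          setIntegral_mono_on hI (hi.const_mul _) hm hb2
      _ = Real.exp 4 * ∫ x in Metric.ball (0 : E) (3 / 2), Real.exp (4 * W F a (N k) x) :=
          integral_const_mul _ _
      _ ≤ Real.exp 4 * CV := mul_le_mul_of_nonneg_left hle (Real.exp_pos _).le
  · exact h10 F a C0 hD N e (fun k => gg F a (N k)) hNp hNt (fun k => ⟨he0 k, he1 k⟩) ⟨C, hC, hctle⟩
  · refine h13 V u (mm F) (h3 F hP).2.2 (fun k => ⟨(hVc k).mono main2_ball', (huc k).mono main2_ball'⟩)
      (fun k => ?_) (hVunif.mono main2_ball') (hconc.1 (1 / 2) (by norm_num) le_rfl)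
    have h15 : (fun x => V k x * Real.exp (4 * u k x)) =
        fun x => B F (N k) x + mol (e k) (gg F a (N k)) x := funext (hVu k)
    rw [h15]
    exact ((hBm k).continuousOn.integrableOn_compact (isCompact_closedBall x0 (1 / 2))).mono_set
      Metric.ball_subset_closedBall

end Pool.Agent.Q82.QD
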