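import Mathlib
import Pool.Agent.Q16.SQ.Stm5
import Pool.Agent.Helper549.Tri.Vertex

set_option autoImplicit false

/-!
# The conjugate dissection: angle count at the corners
-/

noncomputable section
open scoped BigOperators
open Pool.Agent.Helper549.Tri

namespace Q222.SQC

lemma cnt_map {N : ℕ} (t : Fin N → Fin 3 → ℂ) (τ : Fin N → Equiv.Perm (Fin 3)) (Φ : ℂ → ℂ)
    (hΦ : Function.Injective Φ) (p : ℂ) (k : Fin 3) :
    cnt (fun i m => Φ (t i m)) τ (Φ p) k = cnt t τ p k := by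
  classical
  unfold cnt
  refine Finset.sum_congr rfl fun i _ => Finset.sum_congr rfl fun m _ => ?_
  by_cases hc : t i m = p ∧ τ i m = k
  · rw [if_pos hc, if_pos ⟨congrArg Φ hc.1, hc.2⟩]
  · rw [if_neg hc, if_neg fun h => hc ⟨hΦ h.1, h.2⟩]

theorem t_CONJ (h1 : Q16.SQ.S_NORM) (h2 : Q16.SQ.S_SEMI) (h3 : Q16.SQ.S_IMG) (h4 : Q16.SQ.S_DDT)
    (h5 : Q16.SQ.S_SUMW) (h6 : Q16.SQ.S_TOPD) : Q16.SQ.S_CONJ := by
  classical
  intro N T t h hN τ ℓ θ hlen hang n a hn ha hs hθ j hj hv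
  obtain ⟨T', t', hD, hcnt⟩ := h1 h hN τ ℓ θ hlen hang n a hn ha hs hθ
  obtain ⟨Φ, hΦ⟩ := h2 (4 * n) j (by omega) (Dvd.intro _ rfl) hj
  obtain ⟨hpos, hangI⟩ := h3 hD j Φ hj hΦ hv
  have hT := h4 hD hN j Φ hj hΦ hv
  have hw := h5 hD hN j Φ hj hΦ hv
  have hDis : Dis N (fun m => Φ (T' m)) (fun i m => Φ (t' i m)) :=
    h6 N (fun m => Φ (T' m)) (fun i m => Φ (t' i m)) hT hpos hw
  have hinj : Function.Injective Φ := hΦ.2.1
  have hA : ∀ q : Fin 3, ∑ k, (cnt t τ (T q) k : ℝ) * (Real.pi * Q16.SQ.vf n j (a k))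
      = ang (fun m => Φ (T' m)) q := by
    intro q
    have h := Pool.Agent.Helper549.Tri.Vertex.corner_angles hDis τ
      (fun k => Real.pi * Q16.SQ.vf n j (a k)) hangI q
    rw [← h]
    refine Finset.sum_congr rfl fun k _ => ?_
    rw [← hcnt q k, ← cnt_map t' τ Φ hinj (T' q) k]
  have hsum := Pool.Agent.Helper549.Tri.Angles.ang_sum (fun m => Φ (T' m)) hT
  rw [← hA 0, ← hA 1, ← hA 2, ← Finset.sum_add_distrib, ← Finset.sum_add_distrib] at hsum
  have hpi := Real.pi_pos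
  refine mul_left_cancel₀ hpi.ne' ?_
  rw [mul_one, Finset.mul_sum]
  refine Eq.trans ?_ hsum
  refine Finset.sum_congr rfl fun k _ => ?_
  rw [Fin.sum_univ_three]
  push_cast
  ring

end Q222.SQC
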