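import Mathlib
import Pool.Agent.Q16.SQ.Stm5
import Pool.Agent.Helper549.Tri.Basic

set_option autoImplicit false

/-!
# The line identity summed over all lines
-/

noncomputable section
open scoped BigOperators
open Pool.Agent.Helper549.Tri

namespace Q222.SQL

/-- the line of a side, as a point of the plane times the reals -/
def ln (v : Fin 3 → ℂ) (k : Fin 3) : ℂ × ℝ := (dir v k, lev v k)

open Classical in
/-- the sum over a symmetric finite set of the terms at q and at its opposite -/
lemma sum_two (Q : Finset (ℂ × ℝ)) (p : ℂ × ℝ) (hp : p ∈ Q) (hn : -p ∈ Q) (hne : p ≠ -p)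
    (g : ℂ × ℝ → ℝ) (hg : g (-p) = g p) :
    ∑ q ∈ Q, (if p = q ∨ p = -q then g q else 0) = 2 * g p := by
  have h1 : ∀ q ∈ Q, (if p = q ∨ p = -q then g q else 0)
      = (if p = q then g q else 0) + (if -p = q then g q else 0) := by
    intro q _
    have e : (p = -q) ↔ (-p = q) := by
      constructor
      · intro h; rw [h, neg_neg]
      · intro h; rw [← h, neg_neg]
    by_cases ha : p = q
    · have hb : ¬ (-p = q) := by
        intro hb
        exact hne (ha.trans hb.symm)
      rw [if_pos (Or.inl ha), if_pos ha, if_neg hb, add_zero]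
    · by_cases hb : -p = q
      · rw [if_pos (Or.inr (e.mpr hb)), if_neg ha, if_pos hb, zero_add]
      · have hc : ¬ (p = q ∨ p = -q) := by
          rintro (h | h)
          · exact ha h
          · exact hb (e.mp h)
        rw [if_neg hc, if_neg ha, if_neg hb, add_zero]
  rw [Finset.sum_congr rfl h1, Finset.sum_add_distrib, Finset.sum_ite_eq, Finset.sum_ite_eq,
    if_pos hp, if_pos hn, hg]
  ring

theorem t_LINESUM (hL : Q16.SQ.S_LINEH) : Q16.SQ.S_LINESUM := by
  classical
  intro N T t h H hH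
  set Q0 : Finset (ℂ × ℝ) :=
    (Finset.univ.image fun x : Fin N × Fin 3 => ln (t x.1) x.2) ∪
      (Finset.univ.image fun k : Fin 3 => ln T k) with hQ0
  set Q : Finset (ℂ × ℝ) := Q0 ∪ Q0.image (fun q => -q) with hQ
  have hQneg : ∀ q ∈ Q, -q ∈ Q := by
    intro q hq
    rw [hQ, Finset.mem_union] at hq ⊢
    rcases hq with hq | hq
    · right; exact Finset.mem_image_of_mem _ hq
    · left
      obtain ⟨r, hr, rfl⟩ := Finset.mem_image.mp hq
      simpa using hr
  have hmt : ∀ i k, ln (t i) k ∈ Q := by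
    intro i k
    rw [hQ, Finset.mem_union]
    left
    rw [hQ0, Finset.mem_union]
    left
    exact Finset.mem_image_of_mem (fun x : Fin N × Fin 3 => ln (t x.1) x.2)
      (Finset.mem_univ (i, k))
  have hmT : ∀ k, ln T k ∈ Q := by
    intro k
    rw [hQ, Finset.mem_union]
    left
    rw [hQ0, Finset.mem_union]
    right
    exact Finset.mem_image_of_mem (fun k : Fin 3 => ln T k) (Finset.mem_univ k)
  have hnorm : ∀ q ∈ Q, ‖q.1‖ = 1 := by
    intro q hq
    have key : ∀ q ∈ Q0, ‖q.1‖ = 1 := by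
      intro q hq
      rw [hQ0, Finset.mem_union] at hq
      rcases hq with hq | hq
      · obtain ⟨x, -, rfl⟩ := Finset.mem_image.mp hq
        exact Basic.norm_dir _ (h.ccwt x.1) x.2
      · obtain ⟨x, -, rfl⟩ := Finset.mem_image.mp hq
        exact Basic.norm_dir _ h.ccwT x
    rw [hQ, Finset.mem_union] at hq
    rcases hq with hq | hq
    · exact key q hq
    · obtain ⟨r, hr, rfl⟩ := Finset.mem_image.mp hq
      rw [Prod.fst_neg, norm_neg]
      exact key r hr
  have hne : ∀ q ∈ Q, q ≠ -q := by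
    intro q hq e
    have h1 := hnorm q hq
    have h2 : q.1 = -q.1 := congrArg Prod.fst e
    have h3 : q.1 = 0 := self_eq_neg.mp h2
    rw [h3, norm_zero] at h1
    exact zero_ne_one h1
  -- one side
  have side : ∀ v : Fin 3 → ℂ, ∀ k, ln v k ∈ Q →
      ∑ q ∈ Q, (if (dir v k = q.1 ∧ lev v k = q.2) ∨ (dir v k = -q.1 ∧ lev v k = -q.2) then
        H q.1 q.2 (v (k + 2)) - H q.1 q.2 (v (k + 1)) else 0)
      = 2 * (H (dir v k) (lev v k) (v (k + 2)) - H (dir v k) (lev v k) (v (k + 1))) := by
    intro v k hm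
    have := sum_two Q (ln v k) hm (hQneg _ hm) (hne _ hm)
      (fun q => H q.1 q.2 (v (k + 2)) - H q.1 q.2 (v (k + 1))) (by
        show H (-(dir v k)) (-(lev v k)) (v (k + 2)) - H (-(dir v k)) (-(lev v k)) (v (k + 1)) = _
        rw [hH, hH]
        rfl)
    rw [show 2 * (H (dir v k) (lev v k) (v (k + 2)) - H (dir v k) (lev v k) (v (k + 1)))
      = 2 * (H (ln v k).1 (ln v k).2 (v (k + 2)) - H (ln v k).1 (ln v k).2 (v (k + 1))) from rfl,
      ← this]
    refine Finset.sum_congr rfl fun q _ => ?_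
    have e1 : (ln v k = q) ↔ (dir v k = q.1 ∧ lev v k = q.2) := Prod.ext_iff
    have e2 : (ln v k = -q) ↔ (dir v k = -q.1 ∧ lev v k = -q.2) := Prod.ext_iff
    by_cases hc : ln v k = q ∨ ln v k = -q
    · rw [if_pos hc, if_pos (by rwa [e1, e2] at hc)]
    · rw [if_neg hc, if_neg (by rwa [e1, e2] at hc)]
  have hsum : ∀ q ∈ Q, _ := fun q hq => hL h q.1 q.2 (hnorm q hq) (H q.1 q.2)
  have htot := Finset.sum_congr rfl hsum
  rw [Finset.sum_comm] at htot
  have hl : ∀ i ∈ (Finset.univ : Finset (Fin N)), _ := fun i _ =>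
    (Finset.sum_comm (s := Q) (t := (Finset.univ : Finset (Fin 3)))
      (f := fun q k => if (dir (t i) k = q.1 ∧ lev (t i) k = q.2) ∨
        (dir (t i) k = -q.1 ∧ lev (t i) k = -q.2) then
          H q.1 q.2 (t i (k + 2)) - H q.1 q.2 (t i (k + 1)) else 0))
  rw [Finset.sum_congr rfl hl, Finset.sum_comm (s := Q)] at htot
  have h1 : ∀ i ∈ (Finset.univ : Finset (Fin N)), ∀ k ∈ (Finset.univ : Finset (Fin 3)), _ :=
    fun i _ k _ => side (t i) k (hmt i k)
  rw [Finset.sum_congr rfl fun i hi => Finset.sum_congr rfl (h1 i hi),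
    Finset.sum_congr rfl fun k (_ : k ∈ (Finset.univ : Finset (Fin 3))) => side T k (hmT k)] at htot
  simp_rw [← Finset.mul_sum] at htot
  have h2 : (2 : ℝ) ≠ 0 := two_ne_zero
  exact mul_left_cancel₀ h2 htot

end Q222.SQL
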